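import Mathlib

set_option autoImplicit false

/-! The elements `ξ` of a commutative ring for which `B - ξ B` is small: closure under sums, differences and
products. -/

namespace Pool.Agent.J4.H80.BGR

open Finset
open scoped Pointwise Combinatorics.Additive

variable {R : Type*} [CommRing R] [DecidableEq R]

/-- the dilate `ξ B` -/
def dil (ξ : R) (B : Finset R) : Finset R := B.image (fun x => ξ * x)

lemma mem_dil {ξ x : R} {B : Finset R} : x ∈ dil ξ B ↔ ∃ b ∈ B, ξ * b = x := by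
  unfold dil
  rw [mem_image]

lemma card_dil {ξ : R} (hξ : IsUnit ξ) (B : Finset R) : (dil ξ B).card = B.card :=
  card_image_of_injective _ hξ.mul_right_injective

lemma dil_sub (ξ : R) (A B : Finset R) : dil ξ (A - B) = dil ξ A - dil ξ B := by
  ext x
  simp only [mem_dil, mem_sub]
  constructor
  · rintro ⟨_, ⟨a, ha, b, hb, rfl⟩, rfl⟩
    exact ⟨_, ⟨a, ha, rfl⟩, _, ⟨b, hb, rfl⟩, by ring⟩
  · rintro ⟨_, ⟨a, ha, rfl⟩, _, ⟨b, hb, rfl⟩, rfl⟩
    exact ⟨_, ⟨a, ha, b, hb, rfl⟩, by ring⟩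

lemma dil_add (ξ : R) (A B : Finset R) : dil ξ (A + B) = dil ξ A + dil ξ B := by
  ext x
  simp only [mem_dil, mem_add]
  constructor
  · rintro ⟨_, ⟨a, ha, b, hb, rfl⟩, rfl⟩
    exact ⟨_, ⟨a, ha, rfl⟩, _, ⟨b, hb, rfl⟩, by ring⟩
  · rintro ⟨_, ⟨a, ha, rfl⟩, _, ⟨b, hb, rfl⟩, rfl⟩
    exact ⟨_, ⟨a, ha, b, hb, rfl⟩, by ring⟩

lemma dil_mono (ξ : R) {A B : Finset R} (h : A ⊆ B) : dil ξ A ⊆ dil ξ B := image_subset_image h

lemma card_sub_comm (A B : Finset R) : (A - B).card = (B - A).card := by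
  rw [← card_neg, neg_sub]

lemma dil_dil (ξ η : R) (B : Finset R) : dil ξ (dil η B) = dil (ξ * η) B := by
  ext x
  simp only [mem_dil]
  constructor
  · rintro ⟨b, ⟨c, hc, rfl⟩, rfl⟩
    exact ⟨c, hc, by ring⟩
  · rintro ⟨c, hc, rfl⟩
    exact ⟨η * c, ⟨c, hc, rfl⟩, by ring⟩

lemma dil_nonempty {ξ : R} {B : Finset R} (hB : B.Nonempty) : (dil ξ B).Nonempty :=
  hB.image _

/-- `|B - ξ B| ≤ C |B|` -/
def Sm (B : Finset R) (C : ℝ) (ξ : R) : Prop := ((B - dil ξ B).card : ℝ) ≤ C * B.card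

lemma Sm.one_le {B : Finset R} (hB : B.Nonempty) {C : ℝ} {ξ : R} (h : Sm B C ξ) : 1 ≤ C := by
  have h1 : B.card ≤ (B - dil ξ B).card := card_le_card_sub_right (dil_nonempty hB)
  have h2 : (0 : ℝ) < B.card := by exact_mod_cast hB.card_pos
  unfold Sm at h
  have h3 : (1 : ℝ) * B.card ≤ C * B.card := by
    rw [one_mul]
    exact le_trans (by exact_mod_cast h1) h
  exact le_of_mul_le_mul_right h3 h2

lemma Sm.mono {B : Finset R} {C C' : ℝ} (hC : C ≤ C') {ξ : R} (h : Sm B C ξ) : Sm B C' ξ :=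
  le_trans h (mul_le_mul_of_nonneg_right hC (Nat.cast_nonneg _))

lemma Sm.one {B : Finset R} {K : ℝ} (hK : ((B - B).card : ℝ) ≤ K * B.card) : Sm B K 1 := by
  unfold Sm
  have h : dil (1 : R) B = B := by
    ext x
    rw [mem_dil]
    constructor
    · rintro ⟨b, hb, rfl⟩
      rwa [one_mul]
    · intro hx
      exact ⟨x, hx, one_mul x⟩
  rw [h]
  exact hK

lemma cover {B : Finset R} (hB : B.Nonempty) {C : ℝ} {ξ : R} (h : Sm B C ξ) :
    ∃ F : Finset R, (F.card : ℝ) ≤ C ∧ dil ξ B ⊆ F + (B - B) := by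
  have h1 : ((dil ξ B + (-B)).card : ℝ) ≤ C * (-B).card := by
    rw [card_neg, ← sub_eq_add_neg, ← card_neg (dil ξ B - B), neg_sub]
    exact h
  obtain ⟨F, _, hF, hF2⟩ := Finset.ruzsa_covering_add hB.neg h1
  refine ⟨F, hF, hF2.trans (subset_of_eq ?_)⟩
  rw [sub_neg_eq_add, sub_eq_add_neg, add_comm (-B) B]

lemma pl {B : Finset R} (hB : B.Nonempty) {K : ℝ} (hK : ((B - B).card : ℝ) ≤ K * B.card) :
    ((B + B + B - (B + B)).card : ℝ) ≤ K ^ 5 * B.card := by
  have hB0 : (0 : ℝ) < B.card := by exact_mod_cast hB.card_pos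
  have h := Finset.pluennecke_ruzsa_inequality_nsmul_sub_nsmul_sub hB B (1 + 1 + 1) (1 + 1)
  rw [succ_nsmul, succ_nsmul, one_nsmul] at h
  have h0 := (NNRat.cast_le (K := ℝ)).2 h
  have h1 : ((B + B + B - (B + B)).card : ℝ) ≤ (((B - B).card : ℝ) / B.card) ^ (3 + 2) * B.card := by
    push_cast at h0
    exact h0
  refine h1.trans ?_
  apply mul_le_mul_of_nonneg_right _ hB0.le
  apply pow_le_pow_left₀ (by positivity)
  rw [div_le_iff₀ hB0]
  exact hK

/-- if `ξ B` is contained in `G + 2 B - 2 B` then `B - ξ B` is small -/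
lemma sm_of_cover {B : Finset R} (hB : B.Nonempty) {K : ℝ} (hK : ((B - B).card : ℝ) ≤ K * B.card) {ξ : R}
    {G : Finset R} {C : ℝ} (hG : (G.card : ℝ) ≤ C) (h : dil ξ B ⊆ G + ((B + B) - (B + B))) : Sm B (C * K ^ 5) ξ := by
  have h2 : B - dil ξ B ⊆ (-G) + (B + B + B - (B + B)) := by
    refine (sub_subset_sub_left h).trans (subset_of_eq ?_)
    simp only [sub_eq_add_neg, neg_add, neg_neg]
    ac_rfl
  unfold Sm
  calc ((B - dil ξ B).card : ℝ) ≤ ((-G) + (B + B + B - (B + B))).card := by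
        exact_mod_cast card_le_card h2
    _ ≤ ((-G).card : ℝ) * (B + B + B - (B + B)).card := by exact_mod_cast card_add_le
    _ ≤ C * (K ^ 5 * B.card) := by
        rw [card_neg]
        exact mul_le_mul hG (pl hB hK) (Nat.cast_nonneg _) ((Nat.cast_nonneg _).trans hG)
    _ = _ := by ring

lemma Sm.add {B : Finset R} (hB : B.Nonempty) {K : ℝ} (hK : ((B - B).card : ℝ) ≤ K * B.card)
    {C C' : ℝ} {ξ η : R} (h : Sm B C ξ) (h' : Sm B C' η) : Sm B (C * C' * K ^ 5) (ξ + η) := by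
  have hC := h.one_le hB
  obtain ⟨F, hF, hF2⟩ := cover hB h
  obtain ⟨F', hF', hF'2⟩ := cover hB h'
  refine sm_of_cover hB hK (G := F + F') (C := C * C') ?_ ?_
  · calc ((F + F').card : ℝ) ≤ F.card * F'.card := by exact_mod_cast card_add_le
      _ ≤ C * C' := mul_le_mul hF hF' (Nat.cast_nonneg _) (by linarith)
  · have h1 : dil (ξ + η) B ⊆ dil ξ B + dil η B := by
      intro x hx
      rw [mem_dil] at hx
      obtain ⟨b, hb, rfl⟩ := hx
      rw [add_mul]
      exact add_mem_add (mem_dil.2 ⟨b, hb, rfl⟩) (mem_dil.2 ⟨b, hb, rfl⟩)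
    refine (h1.trans (add_subset_add hF2 hF'2)).trans (subset_of_eq ?_)
    simp only [sub_eq_add_neg, neg_add, neg_neg]
    ac_rfl

lemma Sm.sub {B : Finset R} (hB : B.Nonempty) {K : ℝ} (hK : ((B - B).card : ℝ) ≤ K * B.card)
    {C C' : ℝ} {ξ η : R} (h : Sm B C ξ) (h' : Sm B C' η) : Sm B (C * C' * K ^ 5) (ξ - η) := by
  have hC := h.one_le hB
  obtain ⟨F, hF, hF2⟩ := cover hB h
  obtain ⟨F', hF', hF'2⟩ := cover hB h'
  refine sm_of_cover hB hK (G := F - F') (C := C * C') ?_ ?_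
  · calc ((F - F').card : ℝ) ≤ F.card * F'.card := by exact_mod_cast card_sub_le
      _ ≤ C * C' := mul_le_mul hF hF' (Nat.cast_nonneg _) (by linarith)
  · have h1 : dil (ξ - η) B ⊆ dil ξ B - dil η B := by
      intro x hx
      rw [mem_dil] at hx
      obtain ⟨b, hb, rfl⟩ := hx
      rw [sub_mul]
      exact sub_mem_sub (mem_dil.2 ⟨b, hb, rfl⟩) (mem_dil.2 ⟨b, hb, rfl⟩)
    refine (h1.trans (sub_subset_sub hF2 hF'2)).trans (subset_of_eq ?_)
    simp only [sub_eq_add_neg, neg_add, neg_neg]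
    generalize -F' = V
    generalize -B = W
    ac_rfl

lemma Sm.mul {B : Finset R} (hB : B.Nonempty) {K : ℝ} (hK : ((B - B).card : ℝ) ≤ K * B.card)
    {C C' : ℝ} {ξ η : R} (h : Sm B C ξ) (h' : Sm B C' η) : Sm B (C ^ 2 * C' * K ^ 5) (ξ * η) := by
  have hC := h.one_le hB
  have hC' := h'.one_le hB
  obtain ⟨F, hF, hF2⟩ := cover hB h
  obtain ⟨F', hF', hF'2⟩ := cover hB h'
  refine sm_of_cover hB hK (G := dil ξ F' + (F - F)) (C := C ^ 2 * C') ?_ ?_
  · have h3 : ((dil ξ F').card : ℝ) ≤ C' := by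
      refine le_trans ?_ hF'
      exact_mod_cast card_image_le
    calc ((dil ξ F' + (F - F)).card : ℝ) ≤ (dil ξ F').card * (F - F).card := by exact_mod_cast card_add_le
      _ ≤ C' * (C * C) := by
          apply mul_le_mul h3 _ (Nat.cast_nonneg _) (by linarith)
          calc ((F - F).card : ℝ) ≤ F.card * F.card := by exact_mod_cast card_sub_le
            _ ≤ C * C := mul_le_mul hF hF (Nat.cast_nonneg _) (by linarith)
      _ = _ := by ring
  · rw [← dil_dil]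
    refine (dil_mono ξ hF'2).trans ?_
    rw [dil_add, dil_sub]
    refine (add_subset_add (Subset.refl _) (sub_subset_sub hF2 hF2)).trans (subset_of_eq ?_)
    simp only [sub_eq_add_neg, neg_add, neg_neg]
    generalize -F = V
    generalize -B = W
    ac_rfl

/-- the closure lemmas with powers of one constant -/
lemma cl_add {B : Finset R} (hB : B.Nonempty) {C : ℝ} (hK : ((B - B).card : ℝ) ≤ C * B.card) {a b : ℕ} {ξ η : R}
    (h : Sm B (C ^ a) ξ) (h' : Sm B (C ^ b) η) : Sm B (C ^ (a + b + 5)) (ξ + η) := by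
  have := h.add hB hK h'
  rwa [← pow_add, ← pow_add] at this

lemma cl_sub {B : Finset R} (hB : B.Nonempty) {C : ℝ} (hK : ((B - B).card : ℝ) ≤ C * B.card) {a b : ℕ} {ξ η : R}
    (h : Sm B (C ^ a) ξ) (h' : Sm B (C ^ b) η) : Sm B (C ^ (a + b + 5)) (ξ - η) := by
  have := h.sub hB hK h'
  rwa [← pow_add, ← pow_add] at this

lemma cl_mul {B : Finset R} (hB : B.Nonempty) {C : ℝ} (hK : ((B - B).card : ℝ) ≤ C * B.card) {a b : ℕ} {ξ η : R}
    (h : Sm B (C ^ a) ξ) (h' : Sm B (C ^ b) η) : Sm B (C ^ (2 * a + b + 5)) (ξ * η) := by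
  have := h.mul hB hK h'
  rwa [← pow_mul, ← pow_add, ← pow_add, mul_comm a 2] at this

lemma cl_mono {B : Finset R} {C : ℝ} (hC : 1 ≤ C) {a b : ℕ} (hab : a ≤ b) {ξ : R} (h : Sm B (C ^ a) ξ) :
    Sm B (C ^ b) ξ := h.mono (pow_le_pow_right₀ hC hab)

end Pool.Agent.J4.H80.BGR
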