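import Pool.Agent.J4.H80.BGR.A

set_option autoImplicit false

/-! Growth in finite fields: `u X + v X` is large for some `u`, `v` formed from few elements of `X` and of a set which
is not contained in a proper subfield. -/

namespace Pool.Agent.J4.H80.BGR

open Finset

/-- sums, differences and products of elements of level `n` have the level `n + 1` -/
structure Filt {R : Type*} [CommRing R] (P : ℕ → R → Prop) : Prop where
  one : P 0 1
  mono : ∀ {n m : ℕ} {x : R}, n ≤ m → P n x → P m x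
  add : ∀ {n : ℕ} {x y : R}, P n x → P n y → P (n + 1) (x + y)
  sub : ∀ {n : ℕ} {x y : R}, P n x → P n y → P (n + 1) (x - y)
  mul : ∀ {n : ℕ} {x y : R}, P n x → P n y → P (n + 1) (x * y)

lemma Filt.map {R F : Type*} [CommRing R] [CommRing F] (π : R →+* F) {P : ℕ → R → Prop} (hP : Filt P) :
    Filt (fun n y => ∃ x, P n x ∧ π x = y) where
  one := ⟨1, hP.one, map_one π⟩
  mono := by
    rintro n m x h ⟨y, hy, rfl⟩
    exact ⟨y, hP.mono h hy, rfl⟩
  add := by
    rintro n x y ⟨a, ha, rfl⟩ ⟨b, hb, rfl⟩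
    exact ⟨a + b, hP.add ha hb, map_add _ _ _⟩
  sub := by
    rintro n x y ⟨a, ha, rfl⟩ ⟨b, hb, rfl⟩
    exact ⟨a - b, hP.sub ha hb, map_sub _ _ _⟩
  mul := by
    rintro n x y ⟨a, ha, rfl⟩ ⟨b, hb, rfl⟩
    exact ⟨a * b, hP.mul ha hb, map_mul _ _ _⟩

lemma coll {α β : Type*} [DecidableEq α] [DecidableEq β] (S : Finset α) (f : α → β) :
    S.card ^ 2 ≤ (S.image f).card * ((S ×ˢ S).filter (fun q => f q.1 = f q.2)).card := by
  have h1 : S.card = ∑ b ∈ S.image f, (S.filter (fun a => f a = b)).card := by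
    apply card_eq_sum_card_fiberwise
    intro a ha
    exact mem_coe.2 (mem_image_of_mem f (mem_coe.1 ha))
  have h2 : ((S ×ˢ S).filter (fun q => f q.1 = f q.2)).card =
      ∑ b ∈ S.image f, (S.filter (fun a => f a = b)).card ^ 2 := by
    rw [card_eq_sum_card_fiberwise (f := fun q : α × α => f q.1) (t := S.image f)]
    · apply sum_congr rfl
      intro b _
      rw [sq, ← card_product]
      congr 1
      ext q
      simp only [mem_filter, mem_product]
      constructor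
      · rintro ⟨⟨⟨h1, h2⟩, h3⟩, h4⟩
        exact ⟨⟨h1, h4⟩, h2, h3 ▸ h4⟩
      · rintro ⟨⟨h1, h2⟩, h3, h4⟩
        exact ⟨⟨⟨h1, h3⟩, h2.trans h4.symm⟩, h2⟩
    · intro q hq
      rw [mem_coe, mem_filter, mem_product] at hq
      exact mem_coe.2 (mem_image_of_mem f hq.1.1)
  rw [h2]
  conv_lhs => rw [h1]
  exact sq_sum_le_card_mul_sum_sq

section field

set_option linter.unusedSectionVars false

variable {F : Type*} [Field F] [Fintype F] [DecidableEq F]

/-- the set `u X + v X` -/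
def lin (u v : F) (X : Finset F) : Finset F := (X ×ˢ X).image (fun z => u * z.1 + v * z.2)

lemma lin_card {u : F} (hu : u ≠ 0) (ζ : F) (X : Finset F) : (lin u (u * ζ) X).card = (lin 1 ζ X).card := by
  have h : lin u (u * ζ) X = (lin 1 ζ X).image (fun x => u * x) := by
    ext x
    unfold lin
    simp only [mem_image]
    constructor
    · rintro ⟨z, hz, rfl⟩
      exact ⟨_, ⟨z, hz, rfl⟩, by ring⟩
    · rintro ⟨_, ⟨z, hz, rfl⟩, rfl⟩
      exact ⟨z, hz, by ring⟩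
  rw [h, card_image_of_injective _ (mul_right_injective₀ hu)]

/-- the number of collisions -/
def col (ξ : F) (X : Finset F) : ℕ :=
  (((X ×ˢ X) ×ˢ (X ×ˢ X)).filter (fun q => (1 : F) * q.1.1 + ξ * q.1.2 = 1 * q.2.1 + ξ * q.2.2)).card

lemma col_lin (ξ : F) (X : Finset F) : X.card ^ 4 ≤ (lin 1 ξ X).card * col ξ X := by
  have h := coll (X ×ˢ X) (fun z : F × F => (1 : F) * z.1 + ξ * z.2)
  rw [card_product] at h
  calc X.card ^ 4 = (X.card * X.card) ^ 2 := by ring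
    _ ≤ _ := h

lemma sum_col (X : Finset F) :
    ∑ ξ ∈ univ.erase (0 : F), col ξ X ≤ (Fintype.card F - 1) * X.card ^ 2 + X.card ^ 4 := by
  classical
  have hq1 : 1 ≤ Fintype.card F := Fintype.card_pos
  unfold col
  simp only [card_filter]
  rw [sum_comm]
  have hc : ((X ×ˢ X) ×ˢ (X ×ˢ X)).card = X.card ^ 4 := by
    rw [card_product, card_product]
    ring
  have h1 : ∀ q ∈ (X ×ˢ X) ×ˢ (X ×ˢ X),
      (∑ ξ ∈ univ.erase (0 : F), if (1 : F) * q.1.1 + ξ * q.1.2 = 1 * q.2.1 + ξ * q.2.2 then 1 else 0) ≤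
      (if q.1 = q.2 then (Fintype.card F - 1) else 0) + 1 := by
    intro q _
    by_cases hq : q.1 = q.2
    · rw [if_pos hq]
      refine le_trans (sum_le_card_nsmul _ _ 1 fun ξ _ => ?_) ?_
      · split_ifs <;> omega
      · rw [card_erase_of_mem (mem_univ _), card_univ, smul_eq_mul, mul_one]
        omega
    · rw [if_neg hq, zero_add, ← card_filter]
      rw [card_le_one]
      intro ξ hξ η hη
      rw [mem_filter] at hξ hη
      have e1 := hξ.2
      have e2 := hη.2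
      have e3 : (ξ - η) * (q.1.2 - q.2.2) = 0 := by linear_combination e1 - e2
      rcases mul_eq_zero.1 e3 with h | h
      · exact sub_eq_zero.1 h
      · exfalso
        apply hq
        have h5 := sub_eq_zero.1 h
        refine Prod.ext ?_ h5
        rw [h5] at e1
        linear_combination e1
  refine (sum_le_sum h1).trans ?_
  rw [sum_add_distrib, sum_const, hc, smul_eq_mul, mul_one]
  apply Nat.add_le_add_right
  rw [← sum_filter, sum_const, smul_eq_mul, mul_comm]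
  apply Nat.mul_le_mul_left
  have h2 : (((X ×ˢ X) ×ˢ (X ×ˢ X)).filter (fun q => q.1 = q.2)).card ≤ (X ×ˢ X).card := by
    apply card_le_card_of_injOn (fun q => q.1)
    · intro q hq
      rw [mem_coe, mem_filter, mem_product] at hq
      exact mem_coe.2 hq.1.1
    · intro q hq r hr h
      rw [mem_coe, mem_filter, mem_product] at hq hr
      have h' : q.1 = r.1 := h
      exact Prod.ext h' (by rw [← hq.2, ← hr.2, h'])
  refine h2.trans ?_
  rw [card_product]
  exact le_of_eq (by ring)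

/-- the quotients of differences -/
def Quo (X : Finset F) (ξ : F) : Prop := ∃ a ∈ X, ∃ b ∈ X, ∃ c ∈ X, ∃ d ∈ X, c ≠ d ∧ ξ * (c - d) = a - b

lemma lin_inj {X : Finset F} {ζ : F} (h : ¬ Quo X ζ) : (lin 1 ζ X).card = X.card ^ 2 := by
  unfold lin
  rw [card_image_of_injOn, card_product, sq]
  intro z hz w hw h'
  rw [mem_coe, mem_product] at hz hw
  have h2 : (1 : F) * z.1 + ζ * z.2 = 1 * w.1 + ζ * w.2 := h'
  by_cases h6 : z.2 = w.2
  · refine Prod.ext ?_ h6
    rw [h6] at h2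
    linear_combination h2
  · exfalso
    apply h
    exact ⟨w.1, hw.1, z.1, hz.1, z.2, hz.2, w.2, hw.2, h6, by linear_combination h2⟩

/-- one step of growth -/
theorem growF {P : ℕ → F → Prop} (hP : Filt P) (D : Set F) (hD : ∀ d ∈ D, P 0 d)
    (gen : ∀ K : Subring F, D ⊆ K → K = ⊤) (n : ℕ) (X : Finset F) (hX : 2 ≤ X.card) (hXP : ∀ x ∈ X, P n x) :
    ∃ u v : F, P (n + 3) u ∧ P (n + 3) v ∧
      (X.card : ℝ) ^ 2 * ((Fintype.card F : ℝ) - 1) ≤
        (lin u v X).card * (((Fintype.card F : ℝ) - 1) + (X.card : ℝ) ^ 2) := by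
  classical
  obtain ⟨q, hq⟩ : ∃ q : ℕ, q = Fintype.card F := ⟨_, rfl⟩
  have hq2 : 2 ≤ q := by rw [hq]; exact Fintype.one_lt_card
  have hqr : (2 : ℝ) ≤ q := by exact_mod_cast hq2
  have hXc : (2 : ℝ) ≤ X.card := by exact_mod_cast hX
  rw [← hq]
  have hinjcase : ∀ u ζ : F, u ≠ 0 → ¬ Quo X ζ → (X.card : ℝ) ^ 2 * ((q : ℝ) - 1) ≤
      (lin u (u * ζ) X).card * (((q : ℝ) - 1) + (X.card : ℝ) ^ 2) := by
    intro u ζ hu hζ
    rw [lin_card hu, lin_inj hζ]
    push_cast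
    have : 0 ≤ (X.card : ℝ) ^ 2 * (X.card : ℝ) ^ 2 := by positivity
    nlinarith
  by_cases hall : ∀ ξ, Quo X ξ
  · -- case 1
    have h1 := sum_col X
    rw [← hq] at h1
    obtain ⟨ξ, hξ, hcol⟩ : ∃ ξ ∈ univ.erase (0 : F), (q - 1) * col ξ X ≤ (q - 1) * X.card ^ 2 + X.card ^ 4 := by
      by_contra hcon
      push Not at hcon
      have h2 : ∑ ξ ∈ univ.erase (0 : F), ((q - 1) * X.card ^ 2 + X.card ^ 4) <
          ∑ ξ ∈ univ.erase (0 : F), (q - 1) * col ξ X := by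
        apply sum_lt_sum_of_nonempty
        · exact ⟨1, mem_erase.2 ⟨one_ne_zero, mem_univ _⟩⟩
        · exact hcon
      rw [sum_const, card_erase_of_mem (mem_univ _), card_univ, ← hq, smul_eq_mul, ← mul_sum] at h2
      exact absurd (Nat.mul_le_mul_left (q - 1) h1) (not_le.2 h2)
    have h3 := col_lin ξ X
    obtain ⟨a, ha, b, hb, c, hc, d, hd, hcd, he⟩ := hall ξ
    have hcd' : c - d ≠ 0 := sub_ne_zero.2 hcd
    refine ⟨c - d, a - b, hP.mono (by omega) (hP.sub (hXP c hc) (hXP d hd)),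
      hP.mono (by omega) (hP.sub (hXP a ha) (hXP b hb)), ?_⟩
    have h4 : (lin (c - d) (a - b) X).card = (lin 1 ξ X).card := by
      rw [← he, mul_comm ξ, lin_card hcd']
    rw [h4]
    obtain ⟨M, hM⟩ : ∃ M : ℝ, M = (lin 1 ξ X).card := ⟨_, rfl⟩
    obtain ⟨x, hx⟩ : ∃ x : ℝ, x = X.card := ⟨_, rfl⟩
    obtain ⟨k, hk⟩ : ∃ k : ℝ, k = col ξ X := ⟨_, rfl⟩
    have h5 : x ^ 4 ≤ M * k := by rw [hx, hM, hk]; exact_mod_cast h3
    have hp1 : ((q - 1 : ℕ) : ℝ) = q - 1 := by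
      rw [Nat.cast_sub (by omega), Nat.cast_one]
    have h6 : ((q : ℝ) - 1) * k ≤ (q - 1) * x ^ 2 + x ^ 4 := by
      rw [hx, hk, ← hp1]
      exact_mod_cast hcol
    rw [← hM, ← hx]
    have hM0 : 0 ≤ M := by rw [hM]; exact Nat.cast_nonneg _
    have hx2 : 2 ≤ x := by rw [hx]; exact hXc
    obtain ⟨Q, hQ⟩ : ∃ Q : ℝ, Q = (q : ℝ) - 1 := ⟨_, rfl⟩
    have hQ1 : 1 ≤ Q := by rw [hQ]; linarith
    rw [← hQ] at h6 ⊢
    have h8 : Q * x ^ 4 ≤ M * (Q * x ^ 2 + x ^ 4) := by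
      calc Q * x ^ 4 ≤ Q * (M * k) := mul_le_mul_of_nonneg_left h5 (by linarith)
        _ = M * (Q * k) := by ring
        _ ≤ _ := mul_le_mul_of_nonneg_left h6 hM0
    have h9 : (x ^ 2 * Q) * x ^ 2 ≤ (M * (Q + x ^ 2)) * x ^ 2 := by
      calc (x ^ 2 * Q) * x ^ 2 = Q * x ^ 4 := by ring
        _ ≤ _ := h8
        _ = _ := by ring
    exact le_of_mul_le_mul_right h9 (by positivity)
  · -- case 2
    push Not at hall
    obtain ⟨ζ₀, hζ₀⟩ := hall
    obtain ⟨c₀, hc₀, d₀, hd₀, hcd₀⟩ := one_lt_card.1 (show 1 < X.card by omega)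
    by_cases hadd : ∀ ξ η, Quo X ξ → Quo X η → Quo X (ξ + η)
    swap
    · push Not at hadd
      obtain ⟨ξ, η, ⟨a, ha, b, hb, c, hc, d, hd, hcd, he⟩, ⟨a', ha', b', hb', c', hc', d', hd', hcd', he'⟩, hn⟩ := hadd
      have hu : (c - d) * (c' - d') ≠ 0 := mul_ne_zero (sub_ne_zero.2 hcd) (sub_ne_zero.2 hcd')
      have h1 := hinjcase _ _ hu hn
      have h2 : (c - d) * (c' - d') * (ξ + η) = (a - b) * (c' - d') + (a' - b') * (c - d) := by
        rw [← he, ← he']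
        ring
      rw [h2] at h1
      refine ⟨_, _, ?_, ?_, h1⟩
      · exact hP.mono (by omega) (hP.mul (hP.sub (hXP c hc) (hXP d hd)) (hP.sub (hXP c' hc') (hXP d' hd')))
      · exact hP.add (hP.mul (hP.sub (hXP a ha) (hXP b hb)) (hP.sub (hXP c' hc') (hXP d' hd')))
          (hP.mul (hP.sub (hXP a' ha') (hXP b' hb')) (hP.sub (hXP c hc) (hXP d hd)))
    by_cases hmul : ∀ ξ η, Quo X ξ → Quo X η → Quo X (ξ * η)
    swap
    · push Not at hmul
      obtain ⟨ξ, η, ⟨a, ha, b, hb, c, hc, d, hd, hcd, he⟩, ⟨a', ha', b', hb', c', hc', d', hd', hcd', he'⟩, hn⟩ := hmul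
      have hu : (c - d) * (c' - d') ≠ 0 := mul_ne_zero (sub_ne_zero.2 hcd) (sub_ne_zero.2 hcd')
      have h1 := hinjcase _ _ hu hn
      have h2 : (c - d) * (c' - d') * (ξ * η) = (a - b) * (a' - b') := by
        rw [← he, ← he']
        ring
      rw [h2] at h1
      refine ⟨_, _, ?_, ?_, h1⟩
      · exact hP.mono (by omega) (hP.mul (hP.sub (hXP c hc) (hXP d hd)) (hP.sub (hXP c' hc') (hXP d' hd')))
      · exact hP.mono (by omega) (hP.mul (hP.sub (hXP a ha) (hXP b hb)) (hP.sub (hXP a' ha') (hXP b' hb')))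
    -- now the quotients form a subring
    obtain ⟨S, hS⟩ : ∃ S : Subring F, ∀ ξ, ξ ∈ S ↔ Quo X ξ := by
      refine ⟨{ carrier := {ξ | Quo X ξ}
                mul_mem' := fun {x y} h h' => hmul x y h h'
                one_mem' := ⟨c₀, hc₀, d₀, hd₀, c₀, hc₀, d₀, hd₀, hcd₀, by ring⟩
                add_mem' := fun {x y} h h' => hadd x y h h'
                zero_mem' := ⟨c₀, hc₀, c₀, hc₀, c₀, hc₀, d₀, hd₀, hcd₀, by ring⟩
                neg_mem' := ?_ }, fun ξ => Iff.rfl⟩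
      rintro ξ ⟨a, ha, b, hb, c, hc, d, hd, hcd, he⟩
      exact ⟨b, hb, a, ha, c, hc, d, hd, hcd, by linear_combination -he⟩
    obtain ⟨d, hdD, hdS⟩ : ∃ d ∈ D, ¬ Quo X d := by
      by_contra hcon
      push Not at hcon
      have h1 := gen S fun d hd => (hS d).2 (hcon d hd)
      exact hζ₀ ((hS ζ₀).1 (h1 ▸ Subring.mem_top ζ₀))
    have h1 := hinjcase 1 d one_ne_zero hdS
    rw [one_mul] at h1
    exact ⟨1, d, hP.mono (by omega) hP.one, hP.mono (by omega) (hD d hdD), h1⟩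

lemma sq_ge (y : ℝ) (hy : 4 ≤ y) : y ^ (3 / 2 : ℝ) ≤ y ^ 2 / 2 := by
  have h1 : y ^ (2 : ℝ) = y ^ (3 / 2 : ℝ) * y ^ (1 / 2 : ℝ) := by
    rw [← Real.rpow_add (by linarith)]
    norm_num
  have h2 : 2 ≤ y ^ (1 / 2 : ℝ) := by
    rw [← Real.sqrt_eq_rpow]
    exact Real.le_sqrt_of_sq_le (by linarith)
  have h3 : y ^ 2 = y ^ (2 : ℝ) := by norm_cast
  rw [h3, h1]
  have h4 : 0 ≤ y ^ (3 / 2 : ℝ) := by positivity
  nlinarith

/-- many steps of growth -/
theorem iterF {P : ℕ → F → Prop} (hP : Filt P) (D : Set F) (hD : ∀ d ∈ D, P 0 d)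
    (gen : ∀ K : Subring F, D ⊆ K → K = ⊤) (hq : 10 ≤ Fintype.card F) (x : ℝ) (hx : 4 ≤ x) (X : Finset F)
    (hX : x ≤ X.card) (hXP : ∀ y ∈ X, P 0 y) (t : ℕ) :
    ∃ Y : Finset F, (∀ y ∈ Y, P (5 * t) y) ∧
      min (x ^ ((3 / 2 : ℝ) ^ t)) (((Fintype.card F : ℝ) - 1) / 2) ≤ Y.card := by
  obtain ⟨q, hqe⟩ : ∃ q : ℕ, q = Fintype.card F := ⟨_, rfl⟩
  rw [← hqe] at hq ⊢
  have hqr : (10 : ℝ) ≤ q := by exact_mod_cast hq
  induction t with
  | zero =>
    refine ⟨X, hXP, ?_⟩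
    rw [pow_zero, Real.rpow_one]
    exact (min_le_left _ _).trans hX
  | succ t ih =>
    obtain ⟨Y, hY1, hY2⟩ := ih
    obtain ⟨y, hy⟩ : ∃ y : ℝ, y = x ^ ((3 / 2 : ℝ) ^ t) := ⟨_, rfl⟩
    rw [← hy] at hY2
    have hy4 : 4 ≤ y := by
      rw [hy]
      calc (4 : ℝ) ≤ x := hx
        _ = x ^ (1 : ℝ) := (Real.rpow_one x).symm
        _ ≤ _ := Real.rpow_le_rpow_of_exponent_le (by linarith) (one_le_pow₀ (by norm_num))
    have hYc : (4 : ℝ) ≤ Y.card := by
      refine le_trans ?_ hY2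
      exact le_min hy4 (by linarith)
    obtain ⟨u, v, hu, hv, huv⟩ := growF hP D hD gen (5 * t) Y (by
        have : (2 : ℝ) ≤ Y.card := by linarith
        exact_mod_cast this) hY1
    refine ⟨lin u v Y, fun ξ hξ => ?_, ?_⟩
    · unfold lin at hξ
      rw [mem_image] at hξ
      obtain ⟨z, hz, rfl⟩ := hξ
      rw [mem_product] at hz
      exact hP.mono (show 5 * t + 3 + 1 + 1 ≤ 5 * (t + 1) by omega)
        (hP.add (hP.mul hu (hP.mono (by omega) (hY1 _ hz.1))) (hP.mul hv (hP.mono (by omega) (hY1 _ hz.2))))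
    · rw [← hqe] at huv
      have h1 : x ^ ((3 / 2 : ℝ) ^ (t + 1)) = y ^ (3 / 2 : ℝ) := by
        rw [hy, ← Real.rpow_mul (by linarith), pow_succ]
      rw [h1]
      have h2 := sq_ge y hy4
      obtain ⟨M, hM⟩ : ∃ M : ℝ, M = (lin u v Y).card := ⟨_, rfl⟩
      obtain ⟨w, hw⟩ : ∃ w : ℝ, w = Y.card := ⟨_, rfl⟩
      obtain ⟨Q, hQ⟩ : ∃ Q : ℝ, Q = (q : ℝ) - 1 := ⟨_, rfl⟩
      rw [← hM, ← hw, ← hQ] at huv
      rw [← hw] at hY2 hYc
      rw [← hQ] at hY2 ⊢
      rw [← hM]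
      have hQ9 : 9 ≤ Q := by rw [hQ]; linarith
      have hM0 : 0 ≤ M := by rw [hM]; exact Nat.cast_nonneg _
      have h3 : min (w ^ 2) Q ≤ 2 * M := by
        rcases le_total (w ^ 2) Q with h | h
        · rw [min_eq_left h]
          have h10 : w ^ 2 * Q ≤ (2 * M) * Q := by
            refine huv.trans ?_
            nlinarith
          exact le_of_mul_le_mul_right h10 (by linarith)
        · rw [min_eq_right h]
          have h10 : Q * w ^ 2 ≤ (2 * M) * w ^ 2 := by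
            have : M * (Q + w ^ 2) ≤ (2 * M) * w ^ 2 := by nlinarith
            linarith
          exact le_of_mul_le_mul_right h10 (by positivity)
      rcases min_le_iff.1 hY2 with h4 | h4
      · have h5 : y ^ 2 ≤ w ^ 2 := pow_le_pow_left₀ (by linarith) h4 2
        rcases min_le_iff.1 h3 with h6 | h6
        · exact (min_le_left _ _).trans (by linarith)
        · exact (min_le_right _ _).trans (by linarith)
      · refine (min_le_right _ _).trans ?_
        have h5 : Q ≤ w ^ 2 := by nlinarith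
        rw [min_eq_right h5] at h3
        linarith

/-- all elements have bounded level -/
theorem fillF {P : ℕ → F → Prop} (hP : Filt P) (D : Set F) (hD : ∀ d ∈ D, P 0 d)
    (gen : ∀ K : Subring F, D ⊆ K → K = ⊤) (hq : 10 ≤ Fintype.card F) (x : ℝ) (hx : 4 ≤ x) (X : Finset F)
    (hX : x ≤ X.card) (hXP : ∀ y ∈ X, P 0 y) (t : ℕ) (ht : (Fintype.card F : ℝ) ≤ x ^ ((3 / 2 : ℝ) ^ t)) (y : F) :
    P (5 * t + 6) y := by
  obtain ⟨Y, hY1, hY2⟩ := iterF hP D hD gen hq x hx X hX hXP t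
  have hqr : (10 : ℝ) ≤ (Fintype.card F : ℝ) := by exact_mod_cast hq
  have hY3 : ((Fintype.card F : ℝ) - 1) / 2 ≤ Y.card := by
    refine le_trans (le_of_eq ?_) hY2
    rw [min_eq_right]
    linarith
  obtain ⟨u, v, hu, hv, huv⟩ := growF hP D hD gen (5 * t) Y (by
    have : (2 : ℝ) ≤ Y.card := by linarith
    exact_mod_cast this) hY1
  obtain ⟨Z, hZ⟩ : ∃ Z : Finset F, Z = lin u v Y := ⟨_, rfl⟩
  rw [← hZ] at huv
  have hZP : ∀ z ∈ Z, P (5 * t + 5) z := by
    intro z hz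
    rw [hZ] at hz
    unfold lin at hz
    rw [mem_image] at hz
    obtain ⟨w, hw, rfl⟩ := hz
    rw [mem_product] at hw
    exact hP.add (hP.mul hu (hP.mono (by omega) (hY1 _ hw.1))) (hP.mul hv (hP.mono (by omega) (hY1 _ hw.2)))
  have hcard : (Fintype.card F : ℝ) < 2 * Z.card := by
    obtain ⟨M, hM⟩ : ∃ M : ℝ, M = Z.card := ⟨_, rfl⟩
    obtain ⟨w, hw⟩ : ∃ w : ℝ, w = Y.card := ⟨_, rfl⟩
    obtain ⟨Q, hQ⟩ : ∃ Q : ℝ, Q = (Fintype.card F : ℝ) - 1 := ⟨_, rfl⟩
    have hQ' : (Fintype.card F : ℝ) = Q + 1 := by rw [hQ]; ring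
    rw [← hM, ← hw, ← hQ] at huv
    rw [← hw, ← hQ] at hY3
    rw [← hM, hQ']
    have hQ9 : 9 ≤ Q := by rw [hQ]; linarith
    by_contra hcon
    rw [not_lt] at hcon
    have h1 : 0 ≤ Q + w ^ 2 := by positivity
    have h2 : w ^ 2 * Q ≤ ((Q + 1) / 2) * (Q + w ^ 2) :=
      huv.trans (mul_le_mul_of_nonneg_right (by linarith) h1)
    have h3 : w ^ 2 * (Q - 1) ≤ Q * (Q + 1) := by nlinarith
    have h4 : (Q / 2) ^ 2 * (Q - 1) ≤ w ^ 2 * (Q - 1) := by
      apply mul_le_mul_of_nonneg_right _ (by linarith)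
      exact pow_le_pow_left₀ (by linarith) hY3 2
    nlinarith
  have hcard' : Fintype.card F < 2 * Z.card := by exact_mod_cast hcard
  obtain ⟨z, hz, w, hw, hzw⟩ : ∃ z ∈ Z, ∃ w ∈ Z, z + w = y := by
    by_contra hcon
    push Not at hcon
    have hdisj : Disjoint Z (Z.image fun z => y - z) := by
      rw [disjoint_left]
      intro a ha hb
      rw [mem_image] at hb
      obtain ⟨b, hb, hab⟩ := hb
      exact hcon a ha b hb (by rw [← hab]; ring)
    have h1 := card_union_of_disjoint hdisj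
    rw [card_image_of_injective _ (fun a b h => by
      have h' : y - a = y - b := h
      exact sub_right_injective h')] at h1
    have h2 := card_le_univ (Z ∪ Z.image fun z => y - z)
    omega
  rw [← hzw]
  exact hP.add (hZP z hz) (hZP w hw)

end field

end Pool.Agent.J4.H80.BGR
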