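import Pool.Agent.J4.H80.BGR.B

set_option autoImplicit false

/-! Bounded generation of finite reduced rings. -/

namespace Pool.Agent.J4.H80.BGR

open Finset

variable {R : Type} [CommRing R]

open Classical in
/-- all classes modulo a maximal ideal contain elements of bounded level -/
theorem fill [Fintype R] {P : ℕ → R → Prop} (hP : Filt P) (D : Finset R) (hDne : D.Nonempty) (hD : ∀ d ∈ D, P 0 d)
    (gen : ∀ S : Subring R, (D : Set R) ⊆ S → S = ⊤) (m : Ideal R) (hm : m.IsMaximal)
    (hq : 10 ≤ Nat.card (R ⧸ m)) (x : ℝ) (hx : 4 ≤ x)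
    (hfib : ∀ c : R, ((D.filter (fun d => d - c ∈ m)).card : ℝ) * x ≤ D.card)
    (t : ℕ) (ht : (Nat.card (R ⧸ m) : ℝ) ≤ x ^ ((3 / 2 : ℝ) ^ t)) (y : R) :
    ∃ ξ, P (5 * t + 6) ξ ∧ ξ - y ∈ m := by
  let _ : Field (R ⧸ m) := Ideal.Quotient.field m
  let _ : Fintype (R ⧸ m) := Fintype.ofFinite _
  obtain ⟨π, hπ⟩ : ∃ π : R →+* (R ⧸ m), π = Ideal.Quotient.mk m := ⟨_, rfl⟩
  have hsurj : Function.Surjective π := by rw [hπ]; exact Ideal.Quotient.mk_surjective
  have hmem : ∀ a b : R, π a = π b ↔ a - b ∈ m := by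
    intro a b
    rw [hπ]
    exact Ideal.Quotient.eq
  rw [Nat.card_eq_fintype_card] at hq ht
  have hPF := hP.map π
  obtain ⟨X, hX⟩ : ∃ X : Finset (R ⧸ m), X = D.image π := ⟨_, rfl⟩
  have hXc : x ≤ X.card := by
    have h1 : D.card = ∑ b ∈ X, (D.filter (fun a => π a = b)).card := by
      apply card_eq_sum_card_fiberwise
      intro a ha
      rw [hX]
      exact mem_coe.2 (mem_image_of_mem π (mem_coe.1 ha))
    have h2 : ∀ b ∈ X, ((D.filter (fun a => π a = b)).card : ℝ) * x ≤ D.card := by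
      intro b _
      obtain ⟨c, rfl⟩ := hsurj b
      refine le_trans (le_of_eq ?_) (hfib c)
      congr 3
      ext a
      rw [mem_filter, mem_filter, hmem]
    have h3 : (D.card : ℝ) * x ≤ X.card * D.card := by
      calc (D.card : ℝ) * x = ∑ b ∈ X, ((D.filter (fun a => π a = b)).card : ℝ) * x := by
            rw [← sum_mul]
            congr 1
            exact_mod_cast h1
        _ ≤ ∑ b ∈ X, (D.card : ℝ) := sum_le_sum h2
        _ = _ := by rw [sum_const, nsmul_eq_mul]
    have h4 : (0 : ℝ) < D.card := by exact_mod_cast hDne.card_pos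
    rw [mul_comm] at h3
    exact le_of_mul_le_mul_right h3 h4
  have hmain := fillF hPF (X : Set (R ⧸ m)) (by
      intro d hd
      rw [hX, mem_coe, mem_image] at hd
      obtain ⟨a, ha, rfl⟩ := hd
      exact ⟨a, hD a ha, rfl⟩) (by
      intro K hK
      have h1 : K.comap π = ⊤ := by
        apply gen
        intro a ha
        have h2 : π a ∈ K := by
          apply hK
          rw [hX, mem_coe]
          exact mem_image_of_mem π (mem_coe.1 ha)
        exact h2
      rw [eq_top_iff]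
      intro b _
      obtain ⟨a, rfl⟩ := hsurj b
      have h3 : a ∈ K.comap π := by rw [h1]; exact Subring.mem_top a
      exact h3) hq x hx X hXc (by
      intro z hz
      rw [hX, mem_image] at hz
      obtain ⟨a, ha, rfl⟩ := hz
      exact ⟨a, hD a ha, rfl⟩) t ht (π y)
  obtain ⟨ξ, h1, h2⟩ := hmain
  exact ⟨ξ, h1, (hmem _ _).1 h2⟩

/-- separation of two maximal ideals by an element of bounded level -/
theorem pair {P : ℕ → R → Prop} (hP : Filt P) (D : Set R) (hD : ∀ d ∈ D, P 0 d)
    (gen : ∀ S : Subring R, D ⊆ S → S = ⊤) (m m' : Ideal R) (hmm : ¬ m ≤ m') (n : ℕ) (hn : 1 ≤ n)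
    (hfill : ∀ y : R, ∃ ξ, P n ξ ∧ ξ - y ∈ m) : ∃ z, P (n + 2) z ∧ z ∈ m ∧ z ∉ m' := by
  by_contra hcon
  push Not at hcon
  have hzero : P n 0 := by
    have := hP.sub hP.one hP.one
    rw [sub_self] at this
    exact hP.mono (by omega) this
  obtain ⟨Q, hQ⟩ : ∃ Q : R → Prop, Q = fun x => ∀ ξ, P n ξ → ξ - x ∈ m → ξ - x ∈ m' := ⟨_, rfl⟩
  have hP0 : ∀ x, P 0 x → Q x := by
    intro x hx
    rw [hQ]
    intro ξ hξ h
    exact hcon _ (hP.mono (by omega) (hP.sub hξ (hP.mono (by omega) hx))) h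
  have hadd : ∀ x y, Q x → Q y → Q (x + y) := by
    intro x y hx hy
    rw [hQ] at hx hy ⊢
    intro ξ hξ h
    obtain ⟨a, ha, ha'⟩ := hfill x
    obtain ⟨b, hb, hb'⟩ := hfill y
    have h1 : ξ - (a + b) ∈ m := by
      have : ξ - (a + b) = (ξ - (x + y)) - ((a - x) + (b - y)) := by ring
      rw [this]
      exact m.sub_mem h (m.add_mem ha' hb')
    have h2 := hcon _ (hP.sub (hP.mono (Nat.le_succ n) hξ) (hP.add ha hb)) h1
    have h3 := hx a ha ha'
    have h4 := hy b hb hb'
    have : ξ - (x + y) = (ξ - (a + b)) + ((a - x) + (b - y)) := by ring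
    rw [this]
    exact m'.add_mem h2 (m'.add_mem h3 h4)
  have hmul : ∀ x y, Q x → Q y → Q (x * y) := by
    intro x y hx hy
    rw [hQ] at hx hy ⊢
    intro ξ hξ h
    obtain ⟨a, ha, ha'⟩ := hfill x
    obtain ⟨b, hb, hb'⟩ := hfill y
    have h1 : ξ - (a * b) ∈ m := by
      have : ξ - (a * b) = (ξ - (x * y)) - (a * (b - y) + y * (a - x)) := by ring
      rw [this]
      exact m.sub_mem h (m.add_mem (m.mul_mem_left _ hb') (m.mul_mem_left _ ha'))
    have h2 := hcon _ (hP.sub (hP.mono (Nat.le_succ n) hξ) (hP.mul ha hb)) h1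
    have h3 := hx a ha ha'
    have h4 := hy b hb hb'
    have : ξ - (x * y) = (ξ - (a * b)) + (a * (b - y) + y * (a - x)) := by ring
    rw [this]
    exact m'.add_mem h2 (m'.add_mem (m'.mul_mem_left _ h4) (m'.mul_mem_left _ h3))
  have hneg : ∀ x, Q x → Q (-x) := by
    intro x hx
    rw [hQ] at hx ⊢
    intro ξ hξ h
    obtain ⟨a, ha, ha'⟩ := hfill x
    have h1 : ξ + a ∈ m := by
      have : ξ + a = (ξ - (-x)) + (a - x) := by ring
      rw [this]
      exact m.add_mem h ha'
    have h2 := hcon _ (hP.mono (Nat.le_succ _) (hP.add hξ ha)) h1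
    have h3 := hx a ha ha'
    have : ξ - (-x) = (ξ + a) - (a - x) := by ring
    rw [this]
    exact m'.sub_mem h2 h3
  have hQ0 : Q 0 := by
    have h1 := hP0 1 hP.one
    have := hadd 1 (-1) h1 (hneg 1 h1)
    rwa [add_neg_cancel] at this
  obtain ⟨S, hS⟩ : ∃ S : Subring R, ∀ x, x ∈ S ↔ Q x :=
    ⟨{ carrier := {x | Q x}
       mul_mem' := fun {x y} h h' => hmul x y h h'
       one_mem' := hP0 1 hP.one
       add_mem' := fun {x y} h h' => hadd x y h h'
       zero_mem' := hQ0
       neg_mem' := fun {x} h => hneg x h }, fun x => Iff.rfl⟩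
  have htop := gen S fun d hd => (hS d).2 (hP0 d (hD d hd))
  rw [SetLike.not_le_iff_exists] at hmm
  obtain ⟨x, hx, hx'⟩ := hmm
  have h1 : Q x := (hS x).1 (htop ▸ Subring.mem_top x)
  rw [hQ] at h1
  have h2 := h1 0 hzero (by rw [zero_sub]; exact m.neg_mem hx)
  rw [zero_sub] at h2
  exact hx' (by simpa using m'.neg_mem h2)

/-- bounded generation from the classes modulo the maximal ideals -/
theorem glue {P : ℕ → R → Prop} (hP : Filt P) (D : Set R) (hD : ∀ d ∈ D, P 0 d)
    (gen : ∀ S : Subring R, D ⊆ S → S = ⊤) {ι : Type} [Fintype ι] (m : ι → Ideal R) (hmax : ∀ i, (m i).IsMaximal)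
    (hmm : ∀ i j, i ≠ j → ¬ m i ≤ m j) (hinf : ∀ x, (∀ i, x ∈ m i) → x = 0) (n : ℕ) (hn : 1 ≤ n)
    (hfill : ∀ i, ∀ y : R, ∃ ξ, P n ξ ∧ ξ - y ∈ m i) (x : R) : P (n + 3 + 2 * Fintype.card ι) x := by
  classical
  -- products
  have hprod : ∀ (i : ι) (s : Finset ι), i ∉ s → ∃ w, P (n + 2 + s.card) w ∧ (∀ j ∈ s, w ∈ m j) ∧ w ∉ m i := by
    intro i s
    induction s using Finset.induction_on with
    | empty =>
      intro _
      exact ⟨1, hP.mono (by omega) hP.one, by simp, (Ideal.ne_top_iff_one _).1 (hmax i).ne_top⟩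
    | insert j s hj ih =>
      intro hi
      rw [mem_insert, not_or] at hi
      obtain ⟨w, h1, h2, h3⟩ := ih hi.2
      obtain ⟨z, hz1, hz2, hz3⟩ := pair hP D hD gen (m j) (m i) (hmm j i (Ne.symm hi.1)) n hn (hfill j)
      refine ⟨w * z, ?_, ?_, ?_⟩
      · rw [card_insert_of_notMem hj]
        have h4 : P (n + 2 + s.card) z := hP.mono (by omega) hz1
        exact hP.mul h1 h4
      · intro l hl
        rw [mem_insert] at hl
        rcases hl with rfl | hl
        · exact (m l).mul_mem_left _ hz2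
        · exact (m l).mul_mem_right _ (h2 l hl)
      · intro h
        rcases (hmax i).isPrime.mem_or_mem h with h | h
        · exact h3 h
        · exact hz3 h
  obtain ⟨r, hr⟩ : ∃ r : ℕ, r = Fintype.card ι := ⟨_, rfl⟩
  have hw : ∀ i, ∃ w, P (n + 2 + r) w ∧ (∀ j, j ≠ i → w ∈ m j) ∧ w ∉ m i := by
    intro i
    obtain ⟨w, h1, h2, h3⟩ := hprod i (univ.erase i) (notMem_erase i univ)
    refine ⟨w, hP.mono ?_ h1, fun j hj => h2 j (mem_erase.2 ⟨hj, mem_univ _⟩), h3⟩
    have := card_le_univ (univ.erase i)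
    omega
  have hsum : ∀ s : Finset ι, ∃ y, P (n + 3 + r + s.card) y ∧ (∀ i ∈ s, y - x ∈ m i) ∧ ∀ i, i ∉ s → y ∈ m i := by
    intro s
    induction s using Finset.induction_on with
    | empty =>
      have hzero := hP.sub hP.one hP.one
      rw [sub_self] at hzero
      exact ⟨0, hP.mono (by omega) hzero, by simp, fun i _ => (m i).zero_mem⟩
    | insert i s hi ih =>
      obtain ⟨y, h1, h2, h3⟩ := ih
      obtain ⟨w, hw1, hw2, hw3⟩ := hw i
      obtain ⟨v, c, hc, hvc⟩ := (hmax i).exists_inv hw3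
      have hv : v * w - 1 ∈ m i := by
        have : v * w - 1 = -c := by rw [← hvc]; ring
        rw [this]
        exact (m i).neg_mem hc
      obtain ⟨ξ, hξ1, hξ2⟩ := hfill i (v * x)
      refine ⟨y + w * ξ, ?_, ?_, ?_⟩
      · rw [card_insert_of_notMem hi]
        have h4 : P (n + 2 + r) ξ := hP.mono (by omega) hξ1
        have h5 : P (n + 3 + r + s.card) (w * ξ) := hP.mono (by omega) (hP.mul hw1 h4)
        exact hP.add h1 h5
      · intro j hj
        rw [mem_insert] at hj
        by_cases hji : j = i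
        · subst hji
          have e1 : w * ξ - x ∈ m j := by
            have : w * ξ - x = w * (ξ - v * x) + (v * w - 1) * x := by ring
            rw [this]
            exact (m j).add_mem ((m j).mul_mem_left _ hξ2) ((m j).mul_mem_right _ hv)
          have : y + w * ξ - x = y + (w * ξ - x) := by ring
          rw [this]
          exact (m j).add_mem (h3 j hi) e1
        · have hjs : j ∈ s := hj.resolve_left hji
          have : y + w * ξ - x = (y - x) + w * ξ := by ring
          rw [this]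
          exact (m j).add_mem (h2 j hjs) ((m j).mul_mem_right _ (hw2 j hji))
      · intro j hj
        rw [mem_insert, not_or] at hj
        exact (m j).add_mem (h3 j hj.2) ((m j).mul_mem_right _ (hw2 j hj.1))
  obtain ⟨y, h1, h2, _⟩ := hsum univ
  have h3 := hinf _ fun i => h2 i (mem_univ i)
  rw [sub_eq_zero] at h3
  rw [← h3]
  refine hP.mono ?_ h1
  rw [card_univ]
  omega

open Classical in
/-- **Bounded generation of finite reduced rings.** -/
theorem allR [Fintype R] [IsReduced R] {P : ℕ → R → Prop} (hP : Filt P) (D : Finset R) (hDne : D.Nonempty)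
    (hD : ∀ d ∈ D, P 0 d) (gen : ∀ S : Subring R, (D : Set R) ⊆ S → S = ⊤)
    (k : ℕ) (hk : Nat.card (MaximalSpectrum R) ≤ k)
    (hq : ∀ m : Ideal R, m.IsMaximal → 10 ≤ Nat.card (R ⧸ m)) (x : ℝ) (hx : 4 ≤ x)
    (hfib : ∀ m : Ideal R, m.IsMaximal → ∀ c : R, ((D.filter (fun d => d - c ∈ m)).card : ℝ) * x ≤ D.card)
    (t : ℕ) (ht : (Fintype.card R : ℝ) ≤ x ^ ((3 / 2 : ℝ) ^ t)) (ξ : R) :
    P (5 * t + 9 + 2 * k) ξ := by
  have hart : IsArtinianRing R := inferInstance
  let _ : Fintype (MaximalSpectrum R) := Fintype.ofFinite _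
  have h := glue hP (D : Set R) hD gen (fun m : MaximalSpectrum R => m.asIdeal) (fun m => m.isMaximal) (by
      intro i j hij hle
      apply hij
      exact MaximalSpectrum.ext (i.isMaximal.eq_of_le j.isMaximal.ne_top hle)) (by
      intro x hx
      by_contra hne
      have h1 : x ∉ nilradical R := by
        rw [nilradical_eq_zero]
        exact fun h => hne (by simpa using h)
      rw [nilradical_eq_sInf, Ideal.mem_sInf] at h1
      push Not at h1
      obtain ⟨I, hI, hxI⟩ := h1
      have hI' : I.IsPrime := hI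
      have hmax : I.IsMaximal := IsArtinianRing.isMaximal_of_isPrime I
      exact hxI (hx ⟨I, hmax⟩)) (5 * t + 6) (by omega) (by
      intro m y
      refine fill hP D hDne hD gen m.asIdeal m.isMaximal (hq _ m.isMaximal) x hx (hfib _ m.isMaximal) t ?_ y
      refine le_trans ?_ ht
      have : Nat.card (R ⧸ m.asIdeal) ≤ Nat.card R := Nat.card_le_card_of_surjective _ Ideal.Quotient.mk_surjective
      rw [← Nat.card_eq_fintype_card]
      exact_mod_cast this) ξ
  refine hP.mono ?_ h
  rw [← Nat.card_eq_fintype_card]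
  omega

end Pool.Agent.J4.H80.BGR
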