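import Pool.Agent.J4.H80.BGR.C

set_option autoImplicit false

/-! Convolution of functions on a finite ring, and the middle part of a function whose
convolution square is not much flatter than the function. -/

namespace Pool.Agent.J4.H80.BGR

open Finset
open scoped Pointwise Combinatorics.Additive

variable {R : Type} [CommRing R] [Fintype R] [DecidableEq R]

set_option linter.unusedSectionVars false

/-- convolution -/
noncomputable def cv (f g : R → ℝ) (x : R) : ℝ := ∑ y, f y * g (x - y)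

lemma cv_comm (f g : R → ℝ) : cv f g = cv g f := by
  funext x
  unfold cv
  refine Fintype.sum_equiv (Equiv.subLeft x) _ _ fun y => ?_
  rw [Equiv.subLeft_apply, sub_sub_cancel, mul_comm]

lemma cv_nonneg {f g : R → ℝ} (hf : ∀ x, 0 ≤ f x) (hg : ∀ x, 0 ≤ g x) (x : R) : 0 ≤ cv f g x :=
  sum_nonneg fun y _ => mul_nonneg (hf y) (hg _)

lemma sum_shift (g : R → ℝ) (y : R) : ∑ x, g (x - y) = ∑ x, g x :=
  Fintype.sum_equiv (Equiv.subRight y) _ _ fun _ => rfl

lemma sum_cv (f g : R → ℝ) : ∑ x, cv f g x = (∑ x, f x) * ∑ x, g x := by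
  unfold cv
  rw [sum_comm, sum_mul]
  refine sum_congr rfl fun y _ => ?_
  rw [← mul_sum, sum_shift]

/-- Young's inequality -/
lemma young {f : R → ℝ} (hf : ∀ x, 0 ≤ f x) (g : R → ℝ) :
    ∑ x, cv f g x ^ 2 ≤ (∑ x, f x) ^ 2 * ∑ x, g x ^ 2 := by
  have h1 : ∀ x, cv f g x ^ 2 ≤ (∑ y, f y) * ∑ y, f y * g (x - y) ^ 2 := by
    intro x
    unfold cv
    have h := sum_mul_sq_le_sq_mul_sq univ (fun y => √(f y)) (fun y => √(f y) * g (x - y))
    have e1 : ∀ y, √(f y) * (√(f y) * g (x - y)) = f y * g (x - y) := by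
      intro y
      rw [← mul_assoc, Real.mul_self_sqrt (hf y)]
    have e2 : ∀ y, √(f y) ^ 2 = f y := fun y => Real.sq_sqrt (hf y)
    have e3 : ∀ y, (√(f y) * g (x - y)) ^ 2 = f y * g (x - y) ^ 2 := by
      intro y
      rw [mul_pow, Real.sq_sqrt (hf y)]
    simp only [e1, e2, e3] at h
    exact h
  calc ∑ x, cv f g x ^ 2 ≤ ∑ x, (∑ y, f y) * ∑ y, f y * g (x - y) ^ 2 := sum_le_sum fun x _ => h1 x
    _ = (∑ y, f y) * ∑ y, f y * ∑ x, g (x - y) ^ 2 := by
        rw [← mul_sum, sum_comm]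
        congr 1
        exact sum_congr rfl fun y _ => (mul_sum _ _ _).symm
    _ = _ := by
        have h2 : ∀ y, ∑ x, g (x - y) ^ 2 = ∑ x, g x ^ 2 := fun y => sum_shift (fun x => g x ^ 2) y
        simp only [h2]
        rw [← sum_mul]
        ring

lemma cv_add_left (f f' g : R → ℝ) (x : R) : cv (fun y => f y + f' y) g x = cv f g x + cv f' g x := by
  unfold cv
  rw [← sum_add_distrib]
  exact sum_congr rfl fun y _ => by ring

lemma cv_add_right (f g g' : R → ℝ) (x : R) : cv f (fun y => g y + g' y) x = cv f g x + cv f g' x := by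
  unfold cv
  rw [← sum_add_distrib]
  exact sum_congr rfl fun y _ => by ring

lemma five (a b c d e : ℝ) : (a + b + c + d + e) ^ 2 ≤ 5 * (a ^ 2 + b ^ 2 + c ^ 2 + d ^ 2 + e ^ 2) := by
  nlinarith [sq_nonneg (a - b), sq_nonneg (a - c), sq_nonneg (a - d), sq_nonneg (a - e), sq_nonneg (b - c),
    sq_nonneg (b - d), sq_nonneg (b - e), sq_nonneg (c - d), sq_nonneg (c - e), sq_nonneg (d - e)]

/-- the middle part -/
theorem mid {ν : R → ℝ} (hν : ∀ x, 0 ≤ ν x) (h1 : ∑ x, ν x = 1) {N K : ℝ} (hN : 0 < N)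
    (h2 : ∑ x, ν x ^ 2 = 1 / N) (hK : 1 ≤ K) (hcon : 1 / (K ^ 2 * N) ≤ ∑ x, cv ν ν x ^ 2) :
    ∃ A : Finset R, (∀ x ∈ A, 1 / (40 * K ^ 2 * N) ≤ ν x) ∧ (A.card : ℝ) ≤ 40 * K ^ 2 * N ∧
      N ^ 3 ≤ 24010 * K ^ 6 * (A.addEnergy A : ℕ) := by
  classical
  have hK0 : 0 < K := by linarith
  obtain ⟨lo, hlo⟩ : ∃ lo : ℝ, lo = 1 / (40 * K ^ 2 * N) := ⟨_, rfl⟩
  obtain ⟨hi, hhi⟩ : ∃ hi : ℝ, hi = 7 * K / N := ⟨_, rfl⟩
  have hlo0 : 0 < lo := by rw [hlo]; positivity
  have hhi0 : 0 < hi := by rw [hhi]; positivity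
  obtain ⟨s, hs⟩ : ∃ s : R → ℝ, s = fun x => if ν x < lo then ν x else 0 := ⟨_, rfl⟩
  obtain ⟨m, hm⟩ : ∃ m : R → ℝ, m = fun x => if lo ≤ ν x ∧ ν x ≤ hi then ν x else 0 := ⟨_, rfl⟩
  obtain ⟨b, hb⟩ : ∃ b : R → ℝ, b = fun x => if lo ≤ ν x ∧ hi < ν x then ν x else 0 := ⟨_, rfl⟩
  have hsum : ∀ x, ν x = s x + m x + b x := by
    intro x
    rw [hs, hm, hb]
    dsimp only
    by_cases c1 : ν x < lo
    · rw [if_pos c1, if_neg (fun h => absurd h.1 (not_le.2 c1)), if_neg (fun h => absurd h.1 (not_le.2 c1))]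
      ring
    · rw [if_neg c1]
      by_cases c2 : ν x ≤ hi
      · rw [if_pos ⟨not_lt.1 c1, c2⟩, if_neg (fun h => absurd h.2 (not_lt.2 c2))]
        ring
      · rw [if_neg (fun h => c2 h.2), if_pos ⟨not_lt.1 c1, not_le.1 c2⟩]
        ring
  have hs0 : ∀ x, 0 ≤ s x := by
    intro x
    rw [hs]
    dsimp only
    split_ifs
    · exact hν x
    · exact le_rfl
  have hm0 : ∀ x, 0 ≤ m x := by
    intro x
    rw [hm]
    dsimp only
    split_ifs
    · exact hν x
    · exact le_rfl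
  have hb0 : ∀ x, 0 ≤ b x := by
    intro x
    rw [hb]
    dsimp only
    split_ifs
    · exact hν x
    · exact le_rfl
  have hsν : ∀ x, s x ≤ ν x := fun x => by rw [hsum x]; linarith [hm0 x, hb0 x]
  have hmν : ∀ x, m x ≤ ν x := fun x => by rw [hsum x]; linarith [hs0 x, hb0 x]
  have hbν : ∀ x, b x ≤ ν x := fun x => by rw [hsum x]; linarith [hs0 x, hm0 x]
  -- the small part
  have hs2 : ∑ x, s x ^ 2 ≤ lo := by
    calc ∑ x, s x ^ 2 ≤ ∑ x, lo * ν x := by
          refine sum_le_sum fun x _ => ?_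
          rw [sq]
          apply mul_le_mul _ (hsν x) (hs0 x) hlo0.le
          rw [hs]
          dsimp only
          split_ifs with h
          · exact h.le
          · exact hlo0.le
      _ = lo := by rw [← mul_sum, h1, mul_one]
  -- the large part
  have hb1 : ∑ x, b x ≤ 1 / (7 * K) := by
    calc ∑ x, b x ≤ ∑ x, (1 / hi) * ν x ^ 2 := by
          refine sum_le_sum fun x _ => ?_
          rw [hb]
          dsimp only
          split_ifs with h
          · rw [one_div, inv_mul_eq_div, le_div_iff₀ hhi0, sq]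
            exact mul_le_mul_of_nonneg_left h.2.le (hν x)
          · positivity
      _ = 1 / hi * (1 / N) := by rw [← mul_sum, h2]
      _ = _ := by rw [hhi]; field_simp
  have hb10 : 0 ≤ ∑ x, b x := sum_nonneg fun x _ => hb0 x
  have hm1 : ∑ x, m x ≤ 1 := by rw [← h1]; exact sum_le_sum fun x _ => hmν x
  have hm10 : 0 ≤ ∑ x, m x := sum_nonneg fun x _ => hm0 x
  have hm2 : ∑ x, m x ^ 2 ≤ 1 / N := by
    rw [← h2]; exact sum_le_sum fun x _ => pow_le_pow_left₀ (hm0 x) (hmν x) 2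
  -- the four error terms
  have e1 : ∑ x, cv s ν x ^ 2 ≤ lo := by
    rw [cv_comm]
    refine (young hν s).trans ?_
    rw [h1, one_pow, one_mul]
    exact hs2
  have e2 : ∑ x, cv b ν x ^ 2 ≤ (1 / (7 * K)) ^ 2 * (1 / N) := by
    refine (young hb0 ν).trans ?_
    rw [h2]
    exact mul_le_mul_of_nonneg_right (pow_le_pow_left₀ hb10 hb1 2) (by positivity)
  have e3 : ∑ x, cv m s x ^ 2 ≤ lo := by
    refine (young hm0 s).trans ?_
    calc (∑ x, m x) ^ 2 * ∑ x, s x ^ 2 ≤ 1 ^ 2 * lo := by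
          apply mul_le_mul (pow_le_pow_left₀ hm10 hm1 2) hs2 (sum_nonneg fun x _ => sq_nonneg _) (by norm_num)
      _ = lo := by ring
  have e4 : ∑ x, cv m b x ^ 2 ≤ (1 / (7 * K)) ^ 2 * (1 / N) := by
    rw [cv_comm]
    refine (young hb0 m).trans ?_
    exact mul_le_mul (pow_le_pow_left₀ hb10 hb1 2) hm2 (sum_nonneg fun x _ => sq_nonneg _) (by positivity)
  have hdec : ∀ x, cv ν ν x = cv m m x + cv s ν x + cv b ν x + cv m s x + cv m b x := by
    intro x
    have g1 : ν = fun y => (s y + m y) + b y := funext hsum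
    calc cv ν ν x = cv (fun y => (s y + m y) + b y) ν x := by rw [← g1]
      _ = cv s ν x + cv m ν x + cv b ν x := by rw [cv_add_left, cv_add_left]
      _ = cv s ν x + cv m (fun y => (s y + m y) + b y) x + cv b ν x := by rw [← g1]
      _ = _ := by rw [cv_add_right, cv_add_right]; ring
  have hmm : 1 / (K ^ 2 * N) ≤ 5 * (∑ x, cv m m x ^ 2 + 2 * lo + 2 * ((1 / (7 * K)) ^ 2 * (1 / N))) := by
    refine hcon.trans ?_
    calc ∑ x, cv ν ν x ^ 2 ≤ ∑ x, 5 * (cv m m x ^ 2 + cv s ν x ^ 2 + cv b ν x ^ 2 + cv m s x ^ 2 + cv m b x ^ 2) := by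
          refine sum_le_sum fun x _ => ?_
          rw [hdec x]
          exact five _ _ _ _ _
      _ = 5 * (∑ x, cv m m x ^ 2 + ∑ x, cv s ν x ^ 2 + ∑ x, cv b ν x ^ 2 + ∑ x, cv m s x ^ 2 + ∑ x, cv m b x ^ 2) := by
          rw [← mul_sum]
          simp only [sum_add_distrib]
      _ ≤ _ := by linarith
  obtain ⟨A, hA⟩ : ∃ A : Finset R, A = univ.filter (fun x => lo ≤ ν x ∧ ν x ≤ hi) := ⟨_, rfl⟩
  have hAl : ∀ x ∈ A, lo ≤ ν x := fun x hx => by
    rw [hA, mem_filter] at hx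
    exact hx.2.1
  have hmmA : ∑ x, cv m m x ^ 2 ≤ hi ^ 4 * (A.addEnergy A : ℕ) := by
    rw [Finset.addEnergy_eq_sum_sq]
    push_cast
    rw [mul_sum]
    refine sum_le_sum fun x _ => ?_
    have g1 : cv m m x ≤ hi ^ 2 * (((A ×ˢ A).filter (fun z => z.1 + z.2 = x)).card : ℝ) := by
      have g2 : cv m m x ≤ ∑ y, if (y ∈ A ∧ x - y ∈ A) then hi ^ 2 else 0 := by
        unfold cv
        refine sum_le_sum fun y _ => ?_
        by_cases c1 : y ∈ A ∧ x - y ∈ A
        · rw [if_pos c1, sq]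
          have c2 : ∀ z ∈ A, m z ≤ hi := by
            intro z hz
            rw [hA, mem_filter] at hz
            exact (hmν z).trans hz.2.2
          exact mul_le_mul (c2 y c1.1) (c2 _ c1.2) (hm0 _) hhi0.le
        · rw [if_neg c1]
          have c2 : ∀ z, z ∉ A → m z = 0 := by
            intro z hz
            rw [hA, mem_filter] at hz
            rw [hm]
            dsimp only
            rw [if_neg]
            intro h
            exact hz ⟨mem_univ _, h⟩
          rcases not_and_or.1 c1 with h | h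
          · rw [c2 _ h, zero_mul]
          · rw [c2 _ h, mul_zero]
      refine g2.trans ?_
      rw [← sum_filter, sum_const, nsmul_eq_mul, mul_comm]
      apply mul_le_mul_of_nonneg_left _ (by positivity)
      apply Nat.cast_le.2
      apply card_le_card_of_injOn (fun y => (y, x - y))
      · intro y hy
        rw [mem_coe, mem_filter] at hy
        rw [mem_coe, mem_filter, mem_product]
        exact ⟨hy.2, by ring⟩
      · intro y _ z _ h
        exact (Prod.mk.inj h).1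
    have g3 : 0 ≤ cv m m x := cv_nonneg hm0 hm0 x
    calc cv m m x ^ 2 ≤ (hi ^ 2 * (((A ×ˢ A).filter (fun z => z.1 + z.2 = x)).card : ℝ)) ^ 2 :=
          pow_le_pow_left₀ g3 g1 2
      _ = _ := by ring
  refine ⟨A, fun x hx => by rw [← hlo]; exact hAl x hx, ?_, ?_⟩
  · have g1 : (A.card : ℝ) * lo ≤ 1 := by
      calc (A.card : ℝ) * lo = ∑ x ∈ A, lo := by rw [sum_const, nsmul_eq_mul]
        _ ≤ ∑ x ∈ A, ν x := sum_le_sum hAl
        _ ≤ ∑ x, ν x := sum_le_sum_of_subset_of_nonneg (subset_univ _) fun x _ _ => hν x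
        _ = 1 := h1
    rw [hlo] at g1
    have g2 : 0 < 40 * K ^ 2 * N := by positivity
    rw [mul_one_div, div_le_one g2] at g1
    exact g1
  · obtain ⟨E, hE⟩ : ∃ E : ℝ, E = ((A.addEnergy A : ℕ) : ℝ) := ⟨_, rfl⟩
    rw [← hE] at hmmA ⊢
    have g1 : 1 / (K ^ 2 * N) ≤ 5 * (hi ^ 4 * E + 2 * lo + 2 * ((1 / (7 * K)) ^ 2 * (1 / N))) := by
      linarith
    have g2 : 1 ≤ 5 * (2401 * K ^ 6 * E / N ^ 3) + 1 / 4 + 10 / 49 := by
      have g3 : (K ^ 2 * N) * (1 / (K ^ 2 * N)) ≤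
          (K ^ 2 * N) * (5 * (hi ^ 4 * E + 2 * lo + 2 * ((1 / (7 * K)) ^ 2 * (1 / N)))) :=
        mul_le_mul_of_nonneg_left g1 (by positivity)
      have g4 : (K ^ 2 * N) * (1 / (K ^ 2 * N)) = 1 := by field_simp
      have g5 : (K ^ 2 * N) * (5 * (hi ^ 4 * E + 2 * lo + 2 * ((1 / (7 * K)) ^ 2 * (1 / N)))) =
          5 * (2401 * K ^ 6 * E / N ^ 3) + 1 / 4 + 10 / 49 := by
        rw [hhi, hlo]
        field_simp
        ring
      rw [g4, g5] at g3
      exact g3
    have g6 : 1 / 10 ≤ 2401 * K ^ 6 * E / N ^ 3 := by linarith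
    rw [le_div_iff₀ (by positivity)] at g6
    linarith

end Pool.Agent.J4.H80.BGR
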