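import Pool.Agent.J4.H80.BGR.D
import Pool.Agent.H217R3.AK.Bsg

set_option autoImplicit false

/-! The core of the flattening lemma. -/

namespace Pool.Agent.J4.H80.BGR

open Finset
open scoped Pointwise Combinatorics.Additive

variable {R : Type} [CommRing R] [Fintype R] [DecidableEq R]

set_option linter.unusedSectionVars false

lemma absorb {K : ℝ} (hK : 2 ^ 31 ≤ K) {c : ℝ} (hc : c ≤ 2 ^ 31) (n : ℕ) : c * K ^ n ≤ K ^ (n + 1) := by
  have hK0 : (0 : ℝ) ≤ K := by
    have : (0 : ℝ) < 2 ^ 31 := by norm_num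
    linarith
  rw [pow_succ, mul_comm]
  exact mul_le_mul_of_nonneg_left (hc.trans hK) (pow_nonneg hK0 n)

/-- a set `B` of small doubling which carries a large part of `ν` -/
theorem heavy {ν : R → ℝ} (hν : ∀ x, 0 ≤ ν x) (h1 : ∑ x, ν x = 1) {N K : ℝ} (hN : 0 < N)
    (h2 : ∑ x, ν x ^ 2 = 1 / N) (hK : 2 ^ 31 ≤ K) (hcon : 1 / (K ^ 2 * N) ≤ ∑ x, cv ν ν x ^ 2) :
    ∃ B : Finset R, B.Nonempty ∧ N ≤ K ^ 17 * B.card ∧ (B.card : ℝ) ≤ K ^ 3 * N ∧
      ((B - B).card : ℝ) ≤ K ^ 131 * B.card ∧ 1 ≤ K ^ 20 * ∑ x ∈ B, ν x ∧ ∀ x ∈ B, 1 / (K ^ 3 * N) ≤ ν x := by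
  have hK1 : 1 ≤ K := le_trans (by norm_num) hK
  have hK0 : 0 < K := by linarith
  obtain ⟨A, hA1, hA2, hA3⟩ := mid hν h1 hN h2 hK1 hcon
  obtain ⟨E, hE⟩ : ∃ E : ℝ, E = ((A.addEnergy A : ℕ) : ℝ) := ⟨_, rfl⟩
  rw [← hE] at hA3
  have hE0 : 0 < E := by
    by_contra h
    have h3 : 24010 * K ^ 6 * E ≤ 0 := mul_nonpos_of_nonneg_of_nonpos (by positivity) (not_lt.1 h)
    have h4 : 0 < N ^ 3 := by positivity
    linarith
  have hAne : A.Nonempty := by
    rw [hE] at hE0
    have h3 : 0 < A.addEnergy A := by exact_mod_cast hE0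
    exact (Finset.addEnergy_pos_iff.1 h3).1
  obtain ⟨a, ha⟩ : ∃ a : ℝ, a = A.card := ⟨_, rfl⟩
  rw [← ha] at hA2
  have ha0 : 0 < a := by rw [ha]; exact_mod_cast hAne.card_pos
  have hEa : a ^ 3 ≤ K ^ 13 * E := by
    calc a ^ 3 ≤ (40 * K ^ 2 * N) ^ 3 := pow_le_pow_left₀ ha0.le hA2 3
      _ = 64000 * K ^ 6 * N ^ 3 := by ring
      _ ≤ 64000 * K ^ 6 * (24010 * K ^ 6 * E) := mul_le_mul_of_nonneg_left hA3 (by positivity)
      _ = (64000 * 24010 * K ^ 12) * E := by ring
      _ ≤ K ^ 13 * E := mul_le_mul_of_nonneg_right (absorb hK (by norm_num) 12) hE0.le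
  have hEcard : E ≤ a ^ 3 := by
    have h3 := Finset.addEnergy_eq_card_filter A A
    rw [hE, ha]
    have h4 : A.addEnergy A ≤ A.card ^ 3 := by
      rw [h3]
      have h5 : (((A ×ˢ A) ×ˢ A ×ˢ A).filter (fun x => x.1.1 + x.1.2 = x.2.1 + x.2.2)).card ≤
          ((A ×ˢ A) ×ˢ A).card := by
        apply card_le_card_of_injOn (fun q => (q.1, q.2.1))
        · intro q hq
          rw [mem_coe, mem_filter, mem_product, mem_product, mem_product] at hq
          rw [mem_coe, mem_product, mem_product]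
          exact ⟨hq.1.1, hq.1.2.1⟩
        · intro q hq r hr h
          rw [mem_coe, mem_filter] at hq hr
          have h6 := Prod.mk.inj h
          have e1 := hq.2
          have e2 := hr.2
          refine Prod.ext h6.1 (Prod.ext h6.2 ?_)
          rw [h6.1, h6.2] at e1
          exact add_left_cancel (e1.symm.trans e2)
      refine h5.trans (le_of_eq ?_)
      rw [card_product, card_product]
      ring
    exact_mod_cast h4
  have hNa : N ≤ K ^ 3 * a := by
    have h3 : N ^ 3 ≤ (K ^ 3 * a) ^ 3 := by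
      calc N ^ 3 ≤ 24010 * K ^ 6 * E := hA3
        _ ≤ 24010 * K ^ 6 * a ^ 3 := mul_le_mul_of_nonneg_left hEcard (by positivity)
        _ ≤ K ^ 7 * a ^ 3 := mul_le_mul_of_nonneg_right (absorb hK (by norm_num) 6) (by positivity)
        _ ≤ K ^ 9 * a ^ 3 := mul_le_mul_of_nonneg_right (pow_le_pow_right₀ hK1 (by norm_num)) (by positivity)
        _ = _ := by ring
    exact le_of_pow_le_pow_left₀ (by norm_num) (by positivity) h3
  obtain ⟨B, hBA, hBne, hB1, hB2⟩ := Pool.Agent.H217R3.AK.bsg A hAne (K ^ 13) (by positivity) (by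
    rw [← ha, ← hE]
    exact hEa)
  obtain ⟨b, hb⟩ : ∃ b : ℝ, b = B.card := ⟨_, rfl⟩
  rw [← ha, ← hb] at hB1
  rw [← hb] at hB2
  have hb0 : 0 < b := by rw [hb]; exact_mod_cast hBne.card_pos
  have hab : a ≤ K ^ 14 * b := hB1.trans (mul_le_mul_of_nonneg_right (absorb hK (by norm_num) 13) hb0.le)
  have hNb : N ≤ K ^ 17 * b := by
    calc N ≤ K ^ 3 * a := hNa
      _ ≤ K ^ 3 * (K ^ 14 * b) := mul_le_mul_of_nonneg_left hab (by positivity)
      _ = _ := by ring
  have h40 : 40 * K ^ 2 * N ≤ K ^ 3 * N := mul_le_mul_of_nonneg_right (absorb hK (by norm_num) 2) hN.le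
  have hlow : ∀ x ∈ B, 1 / (K ^ 3 * N) ≤ ν x := fun x hx =>
    (one_div_le_one_div_of_le (by positivity) h40).trans (hA1 x (hBA hx))
  refine ⟨B, hBne, by rw [← hb]; exact hNb, ?_, ?_, ?_, hlow⟩
  · calc (B.card : ℝ) ≤ A.card := by exact_mod_cast card_le_card hBA
      _ = a := ha.symm
      _ ≤ _ := hA2
      _ ≤ _ := h40
  · rw [← hb]
    refine hB2.trans (mul_le_mul_of_nonneg_right ?_ hb0.le)
    rw [← pow_mul]
    exact absorb hK (by norm_num) 130
  · have h3 : b * (1 / (K ^ 3 * N)) ≤ ∑ x ∈ B, ν x := by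
      calc b * (1 / (K ^ 3 * N)) = ∑ x ∈ B, 1 / (K ^ 3 * N) := by rw [sum_const, nsmul_eq_mul, hb]
        _ ≤ ∑ x ∈ B, ν x := sum_le_sum fun x hx => hlow x hx
    have h4 : K ^ 20 * (b * (1 / (K ^ 3 * N))) = K ^ 17 * b / N := by
      field_simp
    calc (1 : ℝ) ≤ K ^ 17 * b / N := by rw [le_div_iff₀ hN, one_mul]; exact hNb
      _ = K ^ 20 * (b * (1 / (K ^ 3 * N))) := h4.symm
      _ ≤ _ := mul_le_mul_of_nonneg_left h3 (by positivity)

lemma sum_dil (ν : R → ℝ) {h : R} (hh : IsUnit h) (B : Finset R) :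
    ∑ x ∈ dil h B, ν x = ∑ x ∈ B, ν (h * x) := by
  unfold dil
  rw [sum_image]
  intro x _ y _ hxy
  exact hh.mul_right_injective hxy

/-- many ratios `d` of elements of `H` have a small set `B - d B` -/
theorem ratios {ν : R → ℝ} (hν : ∀ x, 0 ≤ ν x) (h1 : ∑ x, ν x = 1) {N K : ℝ} (hN : 0 < N)
    (h2 : ∑ x, ν x ^ 2 = 1 / N) (hK : 2 ^ 31 ≤ K) {B : Finset R}
    (hB2 : (B.card : ℝ) ≤ K ^ 3 * N) (hB3 : ((B - B).card : ℝ) ≤ K ^ 131 * B.card)
    (hB4 : 1 ≤ K ^ 20 * ∑ x ∈ B, ν x) (H : Finset R) (hH0 : ∀ h ∈ H, IsUnit h) (hHne : H.Nonempty)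
    (hinv : ∀ h ∈ H, K ^ 21 * ∑ x, |ν (h * x) - ν x| ≤ 1) :
    ∃ D : Finset R, (H.card : ℝ) ≤ K ^ 43 * D.card ∧ (∀ d ∈ D, Sm B (K ^ 350) d) ∧
      ∃ u, IsUnit u ∧ ∀ d ∈ D, u * d ∈ H := by
  classical
  have hK1 : 1 ≤ K := le_trans (by norm_num) hK
  have hK0 : 0 < K := by linarith
  obtain ⟨ρ, hρ⟩ : ∃ ρ : ℝ, ρ = 1 / K ^ 21 := ⟨_, rfl⟩
  have hρ0 : 0 < ρ := by rw [hρ]; positivity
  have hmass : ∀ h ∈ H, ρ ≤ ∑ x ∈ dil h B, ν x := by
    intro h hh
    rw [sum_dil ν (hH0 h hh)]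
    have h3 : ∑ x ∈ B, ν x ≤ ∑ x ∈ B, ν (h * x) + ∑ x, |ν (h * x) - ν x| := by
      calc ∑ x ∈ B, ν x ≤ ∑ x ∈ B, (ν (h * x) + |ν (h * x) - ν x|) := by
            refine sum_le_sum fun x _ => ?_
            have := neg_abs_le (ν (h * x) - ν x)
            linarith
        _ = ∑ x ∈ B, ν (h * x) + ∑ x ∈ B, |ν (h * x) - ν x| := sum_add_distrib
        _ ≤ _ := by
            have h4 : ∑ x ∈ B, |ν (h * x) - ν x| ≤ ∑ x, |ν (h * x) - ν x| :=
              sum_le_sum_of_subset_of_nonneg (subset_univ _) fun x _ _ => abs_nonneg (ν (h * x) - ν x)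
            linarith
    have h4 := hinv h hh
    obtain ⟨y, hy⟩ : ∃ y : ℝ, y = ∑ x, |ν (h * x) - ν x| := ⟨_, rfl⟩
    obtain ⟨z, hz⟩ : ∃ z : ℝ, z = ∑ x ∈ B, ν x := ⟨_, rfl⟩
    rw [← hy] at h3 h4
    rw [← hz] at h3 hB4
    have h5 : 2 * ρ ≤ z := by
      rw [hρ]
      have h6 : 2 * (1 / K ^ 21) ≤ 1 / K ^ 20 := by
        rw [mul_one_div, div_le_div_iff₀ (by positivity) (by positivity), one_mul]
        exact absorb hK (by norm_num) 20
      refine h6.trans ?_
      rw [div_le_iff₀ (by positivity)]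
      linarith
    have h7 : y ≤ ρ := by
      rw [hρ, le_div_iff₀ (by positivity)]
      linarith
    linarith
  obtain ⟨w, hw⟩ : ∃ w : R → R → ℝ, w = fun h h' => ∑ x ∈ dil h B ∩ dil h' B, ν x := ⟨_, rfl⟩
  have hw1 : ∀ h h', w h h' ≤ 1 := by
    intro h h'
    rw [hw, ← h1]
    exact sum_le_sum_of_subset_of_nonneg (subset_univ _) fun x _ _ => hν x
  obtain ⟨n, hn⟩ : ∃ n : ℝ, n = H.card := ⟨_, rfl⟩
  have hn0 : 0 < n := by rw [hn]; exact_mod_cast hHne.card_pos
  have hcs : (n * ρ) ^ 2 ≤ ∑ h' ∈ H, ∑ h ∈ H, w h h' := by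
    obtain ⟨F, hF⟩ : ∃ F : R → ℝ, F = fun x => ∑ h ∈ H, if x ∈ dil h B then (1 : ℝ) else 0 := ⟨_, rfl⟩
    have h3 : ∑ x, ν x * F x = ∑ h ∈ H, ∑ x ∈ dil h B, ν x := by
      rw [hF]
      simp only [mul_sum, mul_ite, mul_one, mul_zero]
      rw [sum_comm]
      refine sum_congr rfl fun h _ => ?_
      rw [← sum_filter]
      refine sum_congr ?_ fun _ _ => rfl
      ext x
      simp
    have h4 : ∑ x, ν x * F x ^ 2 = ∑ h' ∈ H, ∑ h ∈ H, w h h' := by
      rw [hF, hw]
      dsimp only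
      have h5 : ∀ x, ν x * (∑ h ∈ H, if x ∈ dil h B then (1 : ℝ) else 0) ^ 2 =
          ∑ h' ∈ H, ∑ h ∈ H, if x ∈ dil h B ∩ dil h' B then ν x else 0 := by
        intro x
        rw [sq, sum_mul_sum, mul_sum]
        refine sum_congr rfl fun h' _ => ?_
        rw [mul_sum]
        refine sum_congr rfl fun h _ => ?_
        by_cases c1 : x ∈ dil h B
        · by_cases c2 : x ∈ dil h' B
          · rw [if_pos c1, if_pos c2, if_pos (mem_inter.2 ⟨c1, c2⟩)]; ring
          · rw [if_neg c2, if_neg (fun h => c2 (mem_inter.1 h).2)]; ring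
        · rw [if_neg c1, if_neg (fun h => c1 (mem_inter.1 h).1)]; ring
      simp only [h5]
      rw [sum_comm]
      refine sum_congr rfl fun h' _ => ?_
      rw [sum_comm]
      refine sum_congr rfl fun h _ => ?_
      rw [← sum_filter]
      refine sum_congr ?_ fun _ _ => rfl
      ext x
      simp
    rw [← h4]
    have h5 := sum_mul_sq_le_sq_mul_sq univ (fun x => √(ν x)) (fun x => √(ν x) * F x)
    have e1 : ∀ x, √(ν x) * (√(ν x) * F x) = ν x * F x := fun x => by
      rw [← mul_assoc, Real.mul_self_sqrt (hν x)]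
    have e2 : ∀ x, √(ν x) ^ 2 = ν x := fun x => Real.sq_sqrt (hν x)
    have e3 : ∀ x, (√(ν x) * F x) ^ 2 = ν x * F x ^ 2 := fun x => by
      rw [mul_pow, Real.sq_sqrt (hν x)]
    simp only [e1, e2, e3, h1, one_mul] at h5
    refine le_trans ?_ h5
    apply pow_le_pow_left₀ (by positivity)
    rw [h3]
    calc n * ρ = ∑ h ∈ H, ρ := by rw [sum_const, nsmul_eq_mul, hn]
      _ ≤ _ := sum_le_sum hmass
  obtain ⟨h', hh', hbig⟩ : ∃ h' ∈ H, n * ρ ^ 2 ≤ ∑ h ∈ H, w h h' := by
    by_contra hcon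
    push Not at hcon
    have h3 : ∑ h' ∈ H, ∑ h ∈ H, w h h' < ∑ h' ∈ H, n * ρ ^ 2 := sum_lt_sum_of_nonempty hHne hcon
    rw [sum_const, nsmul_eq_mul, ← hn] at h3
    have h4 : (n * ρ) ^ 2 = n * (n * ρ ^ 2) := by ring
    rw [h4] at hcs
    exact absurd hcs (not_le.2 h3)
  have hh'0 := hH0 h' hh'
  obtain ⟨g', hg'⟩ := hh'0.exists_right_inv
  have hg'u : IsUnit g' := IsUnit.of_mul_eq_one h' (by rw [mul_comm]; exact hg')
  obtain ⟨H1, hH1⟩ : ∃ H1 : Finset R, H1 = H.filter (fun h => ρ ^ 2 / 2 ≤ w h h') := ⟨_, rfl⟩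
  have hcard : n * (ρ ^ 2 / 2) ≤ H1.card := by
    have h3 : ∑ h ∈ H, w h h' ≤ H1.card + n * (ρ ^ 2 / 2) := by
      rw [← sum_filter_add_sum_filter_not H (fun h => ρ ^ 2 / 2 ≤ w h h'), ← hH1]
      apply add_le_add
      · calc ∑ h ∈ H1, w h h' ≤ ∑ h ∈ H1, 1 := sum_le_sum fun h _ => hw1 h h'
          _ = _ := by rw [sum_const, nsmul_eq_mul, mul_one]
      · calc ∑ h ∈ H.filter (fun h => ¬ ρ ^ 2 / 2 ≤ w h h'), w h h' ≤
              ∑ h ∈ H.filter (fun h => ¬ ρ ^ 2 / 2 ≤ w h h'), ρ ^ 2 / 2 := by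
              refine sum_le_sum fun h hh => ?_
              rw [mem_filter] at hh
              exact (not_le.1 hh.2).le
          _ = ((H.filter (fun h => ¬ ρ ^ 2 / 2 ≤ w h h')).card : ℝ) * (ρ ^ 2 / 2) := by
              rw [sum_const, nsmul_eq_mul]
          _ ≤ _ := by
              apply mul_le_mul_of_nonneg_right _ (by positivity)
              rw [hn]
              exact_mod_cast card_filter_le _ _
    linarith
  refine ⟨H1.image (fun h => g' * h), ?_, ?_, h', hh'0, ?_⟩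
  · rw [card_image_of_injective _ hg'u.mul_right_injective, ← hn]
    have h3 : n ≤ K ^ 43 * (n * (ρ ^ 2 / 2)) := by
      have h4 : K ^ 43 * (n * (ρ ^ 2 / 2)) = n * (K / 2) := by
        rw [hρ]
        field_simp
      rw [h4]
      have h5 : 1 ≤ K / 2 := by
        have : (2 : ℝ) ≤ 2 ^ 31 := by norm_num
        linarith
      nlinarith
    exact h3.trans (mul_le_mul_of_nonneg_left hcard (by positivity))
  · intro d hd
    rw [mem_image] at hd
    obtain ⟨h, hh, rfl⟩ := hd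
    rw [hH1, mem_filter] at hh
    have hh0 := hH0 h hh.1
    obtain ⟨S, hS⟩ : ∃ S : Finset R, S = dil h B ∩ dil h' B := ⟨_, rfl⟩
    obtain ⟨σ, hσ⟩ : ∃ σ : ℝ, σ = S.card := ⟨_, rfl⟩
    obtain ⟨b, hb⟩ : ∃ b : ℝ, b = B.card := ⟨_, rfl⟩
    have hb00 : 0 ≤ b := by rw [hb]; exact Nat.cast_nonneg _
    -- the intersection is large
    have hS1 : (ρ ^ 2 / 2) ^ 2 ≤ σ * (1 / N) := by
      have h3 : ρ ^ 2 / 2 ≤ ∑ x ∈ S, ν x := by
        rw [hS]
        have := hh.2
        rw [hw] at this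
        exact this
      calc (ρ ^ 2 / 2) ^ 2 ≤ (∑ x ∈ S, ν x) ^ 2 := pow_le_pow_left₀ (by positivity) h3 2
        _ ≤ S.card * ∑ x ∈ S, ν x ^ 2 := sq_sum_le_card_mul_sum_sq
        _ ≤ S.card * ∑ x, ν x ^ 2 := by
            apply mul_le_mul_of_nonneg_left _ (Nat.cast_nonneg _)
            exact sum_le_sum_of_subset_of_nonneg (subset_univ _) fun x _ _ => sq_nonneg _
        _ = _ := by rw [h2, hσ]
    have hS2 : b ≤ K ^ 88 * σ := by
      have h3 : N ≤ K ^ 85 * σ := by
        have h4 : (ρ ^ 2 / 2) ^ 2 * N ≤ σ := by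
          have := mul_le_mul_of_nonneg_right hS1 hN.le
          rw [mul_assoc σ, one_div, inv_mul_cancel₀ hN.ne', mul_one] at this
          exact this
        calc N ≤ K ^ 85 * ((ρ ^ 2 / 2) ^ 2 * N) := by
              have h5 : K ^ 85 * ((ρ ^ 2 / 2) ^ 2 * N) = (K / 4) * N := by
                rw [hρ]
                field_simp
                norm_num
              rw [h5]
              have h6 : 1 ≤ K / 4 := by
                have : (4 : ℝ) ≤ 2 ^ 31 := by norm_num
                linarith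
              nlinarith
          _ ≤ _ := mul_le_mul_of_nonneg_left h4 (by positivity)
      calc b ≤ K ^ 3 * N := by rw [hb]; exact hB2
        _ ≤ K ^ 3 * (K ^ 85 * σ) := mul_le_mul_of_nonneg_left h3 (by positivity)
        _ = _ := by ring
    -- the triangle inequality
    have hT := Finset.ruzsa_triangle_inequality_sub_sub_sub (dil h' B) S (dil h B)
    have hT1 : (dil h' B - dil h B).card = (B - dil (g' * h) B).card := by
      have h3 : dil h B = dil h' (dil (g' * h) B) := by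
        rw [dil_dil, ← mul_assoc, hg', one_mul]
      rw [h3, ← dil_sub, card_dil hh'0]
    have hT2 : (dil h' B - S).card ≤ (B - B).card := by
      calc (dil h' B - S).card ≤ (dil h' B - dil h' B).card := by
            apply card_le_card
            apply sub_subset_sub_left
            rw [hS]
            exact inter_subset_right
        _ = _ := by rw [← dil_sub, card_dil hh'0]
    have hT3 : (dil h B - S).card ≤ (B - B).card := by
      calc (dil h B - S).card ≤ (dil h B - dil h B).card := by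
            apply card_le_card
            apply sub_subset_sub_left
            rw [hS]
            exact inter_subset_left
        _ = _ := by rw [← dil_sub, card_dil hh0]
    rw [hT1] at hT
    have hT4 : ((B - dil (g' * h) B).card : ℝ) * σ ≤ (K ^ 131 * b) ^ 2 := by
      calc ((B - dil (g' * h) B).card : ℝ) * σ ≤ (dil h' B - S).card * (dil h B - S).card := by
            rw [hσ]
            exact_mod_cast hT
        _ ≤ (B - B).card * (B - B).card := by
            apply mul_le_mul _ _ (Nat.cast_nonneg _) (Nat.cast_nonneg _)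
            · exact_mod_cast hT2
            · exact_mod_cast hT3
        _ ≤ (K ^ 131 * b) * (K ^ 131 * b) := by
            rw [← hb] at hB3
            exact mul_le_mul hB3 hB3 (Nat.cast_nonneg _) (mul_nonneg (pow_nonneg hK0.le 131) hb00)
        _ = _ := (sq _).symm
    unfold Sm
    rw [← hb]
    obtain ⟨y, hy⟩ : ∃ y : ℝ, y = ((B - dil (g' * h) B).card : ℝ) := ⟨_, rfl⟩
    rw [← hy] at hT4 ⊢
    have hy0 : 0 ≤ y := by rw [hy]; exact Nat.cast_nonneg _
    rcases hb00.eq_or_lt with hb1 | hb1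
    · -- `B` is empty
      have h3 : B = ∅ := by
        rw [hb] at hb1
        exact card_eq_zero.1 (by exact_mod_cast hb1.symm)
      have h4 : y = 0 := by
        rw [hy, h3]
        simp
      rw [h4, ← hb1, mul_zero]
    · have h350 : K ^ 350 = K ^ 88 * (K ^ 131 * K ^ 131) := by
        rw [← pow_add, ← pow_add]
      obtain ⟨u, hu⟩ : ∃ u : ℝ, u = K ^ 88 := ⟨_, rfl⟩
      obtain ⟨v, hv⟩ : ∃ v : ℝ, v = K ^ 131 := ⟨_, rfl⟩
      have hu0 : 0 ≤ u := by rw [hu]; positivity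
      rw [h350, ← hu, ← hv]
      rw [← hu] at hS2
      rw [← hv] at hT4
      have h3 : y * b ≤ (u * (v * v) * b) * b := by
        calc y * b ≤ y * (u * σ) := mul_le_mul_of_nonneg_left hS2 hy0
          _ = u * (y * σ) := by ring
          _ ≤ u * (v * b) ^ 2 := mul_le_mul_of_nonneg_left hT4 hu0
          _ = _ := by ring
      exact le_of_mul_le_mul_right h3 hb1
  · intro d hd
    rw [mem_image] at hd
    obtain ⟨h, hh, rfl⟩ := hd
    rw [hH1, mem_filter] at hh
    rw [← mul_assoc, hg', one_mul]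
    exact hh.1

open Classical in
/-- if all `ξ` have a small set `B - ξ B` and `B` is not concentrated on a class modulo a maximal ideal then `B` is
almost everything -/
theorem few {B : Finset R} (hBne : B.Nonempty) {C : ℝ} (hC : 1 ≤ C) (k : ℕ) (hk1 : 1 ≤ k)
    (hk : Nat.card (MaximalSpectrum R) ≤ k)
    (hfib : ∀ m : Ideal R, m.IsMaximal → ∀ c : R, ((B.filter (fun b => b - c ∈ m)).card : ℝ) * (2 * k * C) ≤ B.card)
    (h : ∀ ξ : R, Sm B C ξ) : (Fintype.card R : ℝ) ≤ 2 * C * B.card := by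
  let _ : Fintype (MaximalSpectrum R) := Fintype.ofFinite _
  rw [Nat.card_eq_fintype_card] at hk
  obtain ⟨b, hb⟩ : ∃ b : ℝ, b = B.card := ⟨_, rfl⟩
  obtain ⟨n, hn⟩ : ∃ n : ℝ, n = Fintype.card R := ⟨_, rfl⟩
  have hb0 : 0 < b := by rw [hb]; exact_mod_cast hBne.card_pos
  have hkr : (1 : ℝ) ≤ k := by exact_mod_cast hk1
  obtain ⟨c, hc⟩ : ∃ c : R → ℕ, c = fun ξ => (((B ×ˢ B) ×ˢ (B ×ˢ B)).filter
    (fun q => q.1.1 - ξ * q.1.2 = q.2.1 - ξ * q.2.2)).card := ⟨_, rfl⟩
  have h1 : ∀ ξ : R, b ^ 3 ≤ C * c ξ := by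
    intro ξ
    have h2 := coll (B ×ˢ B) (fun z : R × R => z.1 - ξ * z.2)
    have h3 : (B ×ˢ B).image (fun z : R × R => z.1 - ξ * z.2) = B - dil ξ B := by
      ext x
      simp only [mem_image, mem_product, mem_sub, mem_dil]
      constructor
      · rintro ⟨z, hz, rfl⟩
        exact ⟨z.1, hz.1, _, ⟨z.2, hz.2, rfl⟩, rfl⟩
      · rintro ⟨y, hy, _, ⟨w, hw, rfl⟩, rfl⟩
        exact ⟨(y, w), ⟨hy, hw⟩, rfl⟩
    rw [h3, card_product] at h2
    have h4 : b ^ 4 ≤ (B - dil ξ B).card * (c ξ : ℝ) := by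
      rw [hb, hc]
      calc ((B.card : ℕ) : ℝ) ^ 4 = (((B.card * B.card) ^ 2 : ℕ) : ℝ) := by push_cast; ring
        _ ≤ _ := by exact_mod_cast h2
    have h5 : b ^ 3 * b ≤ (C * c ξ) * b := by
      calc b ^ 3 * b = b ^ 4 := by ring
        _ ≤ _ := h4
        _ ≤ (C * b) * c ξ := by
            apply mul_le_mul_of_nonneg_right _ (Nat.cast_nonneg _)
            rw [hb]
            exact h ξ
        _ = _ := by ring
    exact le_of_mul_le_mul_right h5 hb0
  -- the pairs `(x, y)` with a difference which is not a unit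
  obtain ⟨T, hT⟩ : ∃ T : Finset (R × R), T = (B ×ˢ B).filter (fun z => ¬ IsUnit (z.1 - z.2)) := ⟨_, rfl⟩
  have hTcard : (T.card : ℝ) * (2 * C) ≤ b * b := by
    have e1 : T ⊆ (univ : Finset (MaximalSpectrum R)).biUnion
        (fun m => B.biUnion fun y => (B.filter (fun x => x - y ∈ m.asIdeal)).image (fun x => (x, y))) := by
      intro z hz
      rw [hT, mem_filter, mem_product] at hz
      obtain ⟨I, hI, hzI⟩ := exists_max_ideal_of_mem_nonunits hz.2
      rw [mem_biUnion]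
      refine ⟨⟨I, hI⟩, mem_univ _, ?_⟩
      rw [mem_biUnion]
      refine ⟨z.2, hz.1.2, ?_⟩
      rw [mem_image]
      exact ⟨z.1, mem_filter.2 ⟨hz.1.1, hzI⟩, rfl⟩
    have e2 : (T.card : ℝ) ≤ ∑ m : MaximalSpectrum R, ∑ y ∈ B, ((B.filter (fun x => x - y ∈ m.asIdeal)).card : ℝ) := by
      have e3 : T.card ≤ ∑ m : MaximalSpectrum R, ∑ y ∈ B, (B.filter (fun x => x - y ∈ m.asIdeal)).card := by
        refine (card_le_card e1).trans (card_biUnion_le.trans (sum_le_sum fun m _ => ?_))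
        refine card_biUnion_le.trans (sum_le_sum fun y _ => card_image_le)
      exact_mod_cast e3
    have e4 : ∀ m : MaximalSpectrum R, ∑ y ∈ B, ((B.filter (fun x => x - y ∈ m.asIdeal)).card : ℝ) ≤
        b * (b / (2 * k * C)) := by
      intro m
      calc ∑ y ∈ B, ((B.filter (fun x => x - y ∈ m.asIdeal)).card : ℝ) ≤ ∑ y ∈ B, b / (2 * k * C) := by
            refine sum_le_sum fun y _ => ?_
            rw [le_div_iff₀ (by positivity), hb]
            exact hfib _ m.isMaximal y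
        _ = _ := by rw [sum_const, nsmul_eq_mul, hb]
    have e5 : (T.card : ℝ) ≤ k * (b * (b / (2 * k * C))) := by
      refine e2.trans ?_
      calc ∑ m : MaximalSpectrum R, ∑ y ∈ B, ((B.filter (fun x => x - y ∈ m.asIdeal)).card : ℝ)
          ≤ ∑ m : MaximalSpectrum R, b * (b / (2 * k * C)) := sum_le_sum fun m _ => e4 m
        _ = (Fintype.card (MaximalSpectrum R) : ℝ) * (b * (b / (2 * k * C))) := by
            rw [sum_const, card_univ, nsmul_eq_mul]
        _ ≤ _ := by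
            apply mul_le_mul_of_nonneg_right _ (by positivity)
            exact_mod_cast hk
    calc (T.card : ℝ) * (2 * C) ≤ (k * (b * (b / (2 * k * C)))) * (2 * C) :=
          mul_le_mul_of_nonneg_right e5 (by linarith)
      _ = b * b := by field_simp
  have h2 : (∑ ξ : R, (c ξ : ℝ)) ≤ b ^ 4 + T.card * b * n := by
    have h3 : (∑ ξ : R, c ξ) ≤ B.card ^ 4 + T.card * B.card * Fintype.card R := by
      rw [hc]
      simp only [card_filter]
      rw [sum_comm]
      have hcard : ((B ×ˢ B) ×ˢ (B ×ˢ B)).card = B.card ^ 4 := by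
        rw [card_product, card_product]
        ring
      -- the quadruples with a unit as difference
      have h3 : ∀ q ∈ (B ×ˢ B) ×ˢ (B ×ˢ B),
          (∑ ξ : R, if q.1.1 - ξ * q.1.2 = q.2.1 - ξ * q.2.2 then 1 else 0) ≤
          1 + ∑ ξ : R, if (¬ IsUnit (q.1.2 - q.2.2)) ∧ q.1.1 - ξ * q.1.2 = q.2.1 - ξ * q.2.2 then 1 else 0 := by
        intro q _
        by_cases hq : IsUnit (q.1.2 - q.2.2)
        · refine le_trans ?_ (Nat.le_add_right _ _)
          rw [← card_filter, card_le_one]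
          intro ξ hξ η hη
          rw [mem_filter] at hξ hη
          have e1 := hξ.2
          have e2 := hη.2
          have e3 : (q.1.2 - q.2.2) * ξ = (q.1.2 - q.2.2) * η := by linear_combination e2 - e1
          exact hq.mul_right_injective e3
        · refine le_trans (le_of_eq ?_) (Nat.le_add_left _ _)
          refine sum_congr rfl fun ξ _ => ?_
          simp only [hq, not_false_eq_true, true_and]
      refine (sum_le_sum h3).trans ?_
      rw [sum_add_distrib, sum_const, hcard, smul_eq_mul, mul_one]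
      apply Nat.add_le_add_left
      rw [sum_comm]
      have h4 : ∀ ξ ∈ (univ : Finset R), (∑ q ∈ (B ×ˢ B) ×ˢ (B ×ˢ B),
          if (¬ IsUnit (q.1.2 - q.2.2)) ∧ q.1.1 - ξ * q.1.2 = q.2.1 - ξ * q.2.2 then 1 else 0) ≤ T.card * B.card := by
        intro ξ _
        rw [← card_filter, ← card_product]
        apply card_le_card_of_injOn (fun q => ((q.1.2, q.2.2), q.1.1))
        · intro q hq
          rw [mem_coe, mem_filter, mem_product, mem_product, mem_product] at hq
          rw [mem_coe, mem_product, hT, mem_filter, mem_product]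
          exact ⟨⟨⟨hq.1.1.2, hq.1.2.2⟩, hq.2.1⟩, hq.1.1.1⟩
        · intro q hq r hr hqr
          rw [mem_coe, mem_filter] at hq hr
          have e1 := Prod.mk.inj hqr
          have e2 := Prod.mk.inj e1.1
          have e3 := hq.2.2
          have e4 := hr.2.2
          rw [e1.2, e2.1, e2.2] at e3
          refine Prod.ext (Prod.ext e1.2 e2.1) (Prod.ext ?_ e2.2)
          linear_combination e4 - e3
      refine (sum_le_sum h4).trans (le_of_eq ?_)
      rw [sum_const, smul_eq_mul, card_univ]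
      ring
    rw [hb, hn]
    exact_mod_cast h3
  have h3 : n * b ^ 3 ≤ C * (b ^ 4 + T.card * b * n) := by
    calc n * b ^ 3 = ∑ ξ : R, b ^ 3 := by rw [sum_const, nsmul_eq_mul, hn, card_univ]
      _ ≤ ∑ ξ : R, C * (c ξ : ℝ) := sum_le_sum fun ξ _ => h1 ξ
      _ = C * ∑ ξ : R, (c ξ : ℝ) := by rw [← mul_sum]
      _ ≤ _ := mul_le_mul_of_nonneg_left h2 (by linarith)
  have hn0 : 0 ≤ n := by rw [hn]; exact Nat.cast_nonneg _
  rw [← hb, ← hn]
  have h4 : (T.card : ℝ) * (2 * C) * (b * n) ≤ b * b * (b * n) :=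
    mul_le_mul_of_nonneg_right hTcard (by positivity)
  have h5 : n * b ^ 3 ≤ (2 * C * b) * b ^ 3 := by nlinarith
  exact le_of_mul_le_mul_right h5 (by positivity)

/-- the exponents -/
def lev : ℕ → ℕ
  | 0 => 1
  | n + 1 => 3 * lev n + 5

lemma lev_mono {n m : ℕ} (h : n ≤ m) : lev n ≤ lev m := by
  induction h with
  | refl => exact le_rfl
  | step _ ih =>
    refine ih.trans ?_
    show _ ≤ 3 * lev _ + 5
    omega

lemma filt {B : Finset R} (hB : B.Nonempty) {C : ℝ} (hC : 1 ≤ C) (hK : ((B - B).card : ℝ) ≤ C * B.card) :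
    Filt (fun n (ξ : R) => Sm B (C ^ lev n) ξ) where
  one := by
    show Sm B (C ^ 1) 1
    rw [pow_one]
    exact Sm.one hK
  mono := fun {n m x} h hx => cl_mono hC (lev_mono h) hx
  add := fun {n x y} hx hy => cl_mono hC (by show _ ≤ 3 * lev n + 5; omega) (cl_add hB hK hx hy)
  sub := fun {n x y} hx hy => cl_mono hC (by show _ ≤ 3 * lev n + 5; omega) (cl_sub hB hK hx hy)
  mul := fun {n x y} hx hy => cl_mono hC (by show _ ≤ 3 * lev n + 5; omega) (cl_mul hB hK hx hy)

open Classical in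
/-- the core of the flattening lemma -/
theorem flat_core [IsReduced R] (k : ℕ) (hk1 : 1 ≤ k) (hk : Nat.card (MaximalSpectrum R) ≤ k)
    (hq : ∀ m : Ideal R, m.IsMaximal → 10 ≤ Nat.card (R ⧸ m))
    {ν : R → ℝ} (hν : ∀ x, 0 ≤ ν x) (h1 : ∑ x, ν x = 1) {N K : ℝ} (hN : 0 < N)
    (h2 : ∑ x, ν x ^ 2 = 1 / N) (hK : 2 ^ 31 ≤ K) (hcon : 1 / (K ^ 2 * N) ≤ ∑ x, cv ν ν x ^ 2)
    (H : Finset R) (hH0 : ∀ h ∈ H, IsUnit h) (hHne : H.Nonempty)
    (hinv : ∀ h ∈ H, K ^ 21 * ∑ x, |ν (h * x) - ν x| ≤ 1) (t : ℕ) (x : ℝ) (hx : 4 ≤ x)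
    (ht : (Fintype.card R : ℝ) ≤ x ^ ((3 / 2 : ℝ) ^ t))
    (hHgen : ∀ S : Subring R, S ≠ ⊤ → ∀ u : R, IsUnit u →
      K ^ 43 * ((H.filter (fun h => ∃ s ∈ S, u * s = h)).card : ℝ) < H.card)
    (hHfib : ∀ m : Ideal R, m.IsMaximal → ∀ c : R, K ^ 43 * x * ((H.filter (fun h => h - c ∈ m)).card : ℝ) ≤ H.card)
    (hνfib : ∀ m : Ideal R, m.IsMaximal → ∀ c : R,
      (2 * k * (K ^ 350) ^ lev (5 * t + 9 + 2 * k) * K ^ 20) * ∑ y ∈ univ.filter (fun y => y - c ∈ m), ν y ≤ 1) :
    (Fintype.card R : ℝ) ≤ 2 * (K ^ 350) ^ lev (5 * t + 9 + 2 * k) * (K ^ 3 * N) := by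
  have hK1 : 1 ≤ K := le_trans (by norm_num) hK
  have hK0 : 0 < K := by linarith
  have hkr : (1 : ℝ) ≤ k := by exact_mod_cast hk1
  obtain ⟨B, hBne, hB1, hB2, hB3, hB4, hB5⟩ := heavy hν h1 hN h2 hK hcon
  obtain ⟨D, hD1, hD2, u, hu, huD⟩ := ratios hν h1 hN h2 hK hB2 hB3 hB4 H hH0 hHne hinv
  have hH0' : (0 : ℝ) < H.card := by exact_mod_cast hHne.card_pos
  have hDne : D.Nonempty := by
    rw [nonempty_iff_ne_empty]
    rintro rfl
    rw [card_empty, Nat.cast_zero, mul_zero] at hD1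
    linarith
  have hC1 : 1 ≤ K ^ 350 := one_le_pow₀ hK1
  have hBB : ((B - B).card : ℝ) ≤ K ^ 350 * B.card := by
    refine hB3.trans (mul_le_mul_of_nonneg_right ?_ (Nat.cast_nonneg _))
    exact pow_le_pow_right₀ hK1 (by norm_num)
  have hF := filt hBne hC1 hBB
  have hall := allR hF D hDne (by
      intro d hd
      show Sm B ((K ^ 350) ^ 1) d
      rw [pow_one]
      exact hD2 d hd) (by
      intro S hS
      by_contra hne
      have e1 := hHgen S hne u hu
      have e2 : D.card ≤ (H.filter (fun h => ∃ s ∈ S, u * s = h)).card := by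
        rw [← card_image_of_injective D hu.mul_right_injective]
        apply card_le_card
        intro z hz
        rw [mem_image] at hz
        obtain ⟨d, hd, rfl⟩ := hz
        rw [mem_filter]
        exact ⟨huD d hd, d, hS (mem_coe.2 hd), rfl⟩
      have e3 : K ^ 43 * (D.card : ℝ) ≤ K ^ 43 * ((H.filter (fun h => ∃ s ∈ S, u * s = h)).card : ℝ) := by
        apply mul_le_mul_of_nonneg_left _ (by positivity)
        exact_mod_cast e2
      linarith) k hk hq x hx (by
      intro m hm c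
      have e1 := hHfib m hm (u * c)
      have e2 : (D.filter (fun d => d - c ∈ m)).card ≤ (H.filter (fun h => h - u * c ∈ m)).card := by
        rw [← card_image_of_injective (D.filter (fun d => d - c ∈ m)) hu.mul_right_injective]
        apply card_le_card
        intro z hz
        rw [mem_image] at hz
        obtain ⟨d, hd, rfl⟩ := hz
        rw [mem_filter] at hd ⊢
        refine ⟨huD d hd.1, ?_⟩
        rw [← mul_sub]
        exact m.mul_mem_left _ hd.2
      have e3 : ((D.filter (fun d => d - c ∈ m)).card : ℝ) ≤ (H.filter (fun h => h - u * c ∈ m)).card := by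
        exact_mod_cast e2
      have e4 : K ^ 43 * (((D.filter (fun d => d - c ∈ m)).card : ℝ) * x) ≤ K ^ 43 * D.card := by
        calc K ^ 43 * (((D.filter (fun d => d - c ∈ m)).card : ℝ) * x)
            = K ^ 43 * x * ((D.filter (fun d => d - c ∈ m)).card : ℝ) := by ring
          _ ≤ K ^ 43 * x * ((H.filter (fun h => h - u * c ∈ m)).card : ℝ) :=
              mul_le_mul_of_nonneg_left e3 (by positivity)
          _ ≤ H.card := e1
          _ ≤ _ := hD1
      exact le_of_mul_le_mul_left e4 (by positivity)) t ht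
  obtain ⟨C, hC⟩ : ∃ C : ℝ, C = (K ^ 350) ^ lev (5 * t + 9 + 2 * k) := ⟨_, rfl⟩
  have hC1' : 1 ≤ C := by rw [hC]; exact one_le_pow₀ hC1
  have h4 := few hBne hC1' k hk1 hk (by
      intro m hm c
      have e1 := hνfib m hm c
      rw [← hC] at e1
      obtain ⟨f, hf⟩ : ∃ f : ℝ, f = ((B.filter (fun b => b - c ∈ m)).card : ℝ) := ⟨_, rfl⟩
      have e2 : f * (1 / (K ^ 3 * N)) ≤ ∑ y ∈ univ.filter (fun y => y - c ∈ m), ν y := by
        calc f * (1 / (K ^ 3 * N)) = ∑ y ∈ B.filter (fun b => b - c ∈ m), 1 / (K ^ 3 * N) := by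
              rw [sum_const, nsmul_eq_mul, hf]
          _ ≤ ∑ y ∈ B.filter (fun b => b - c ∈ m), ν y :=
              sum_le_sum fun y hy => hB5 y (mem_filter.1 hy).1
          _ ≤ _ := by
              apply sum_le_sum_of_subset_of_nonneg
              · intro y hy
                rw [mem_filter] at hy ⊢
                exact ⟨mem_univ _, hy.2⟩
              · exact fun y _ _ => hν y
      rw [← hf]
      have e3 : (2 * k * C * K ^ 20) * (f * (1 / (K ^ 3 * N))) ≤ 1 :=
        (mul_le_mul_of_nonneg_left e2 (by positivity)).trans e1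
      have e4 : f * (2 * k * C) * K ^ 17 ≤ N := by
        have e5 : (2 * k * C * K ^ 20) * (f * (1 / (K ^ 3 * N))) = f * (2 * k * C) * K ^ 17 / N := by
          field_simp
        rw [e5, div_le_one hN] at e3
        exact e3
      have e6 : K ^ 17 * (f * (2 * k * C)) ≤ K ^ 17 * B.card := by
        calc K ^ 17 * (f * (2 * k * C)) = f * (2 * k * C) * K ^ 17 := by ring
          _ ≤ N := e4
          _ ≤ _ := hB1
      exact le_of_mul_le_mul_left e6 (by positivity)) (fun ξ => by rw [hC]; exact hall ξ)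
  rw [← hC]
  refine h4.trans ?_
  exact mul_le_mul_of_nonneg_left hB2 (by positivity)

end Pool.Agent.J4.H80.BGR
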