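import Pool.Agent.J4.H80.BGR.L

set_option autoImplicit false

/-! # Examples: powers of fixed integers and Fibonacci numbers -/

namespace Pool.Agent.J4.H80.BGR

open Finset Polynomial

section powers

variable {r : ℕ} (a : Fin r → ℤ)

/-- the polynomial with the roots `a i` -/
noncomputable def pol : ℤ[X] := ∏ i, (X - C (a i))

lemma pol_root (z : ℂ) (h : aeval z (pol a) = 0) : ∃ i, z = a i := by
  unfold pol at h
  rw [map_prod, prod_eq_zero_iff] at h
  obtain ⟨i, _, hi⟩ := h
  refine ⟨i, ?_⟩
  rw [map_sub, aeval_X, aeval_C, sub_eq_zero] at hi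
  simpa using hi

lemma pol_nondeg (hr : 1 ≤ r) (ha : ∀ i, 2 ≤ |a i|) (hab : ∀ i j, i ≠ j → |a i| ≠ |a j|) : Nondeg (pol a) := by
  have hn : ∀ i, ‖((a i : ℤ) : ℂ)‖ = ((|a i| : ℤ) : ℝ) := by
    intro i
    rw [Complex.norm_intCast]
    push_cast
    rfl
  refine ⟨?_, ?_, ?_, ?_, ?_, ?_⟩
  · exact monic_prod_X_sub_C _ _
  · unfold pol
    rw [natDegree_prod_of_monic _ _ fun i _ => monic_X_sub_C _]
    simp only [natDegree_X_sub_C, sum_const, card_univ, Fintype.card_fin, smul_eq_mul, mul_one]
    exact hr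
  · unfold pol
    rw [Polynomial.map_prod]
    have h1 : ∀ i ∈ (univ : Finset (Fin r)), map (Int.castRingHom ℂ) (X - C (a i)) = X - C ((a i : ℤ) : ℂ) := by
      intro i _
      rw [Polynomial.map_sub, map_X, map_C]
      rfl
    rw [prod_congr rfl h1, separable_prod_X_sub_C_iff]
    intro i j hij
    by_contra hne
    apply hab i j hne
    have h2 : a i = a j := by
      have hij' : ((a i : ℤ) : ℂ) = ((a j : ℤ) : ℂ) := hij
      exact_mod_cast hij'
    rw [h2]
  · intro z hz
    obtain ⟨i, rfl⟩ := pol_root a z hz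
    intro h0
    have h1 := hn i
    rw [h0, norm_zero] at h1
    have h2 := ha i
    have h3 : |a i| = 0 := by exact_mod_cast h1.symm
    omega
  · intro z hz t ht h0
    obtain ⟨i, rfl⟩ := pol_root a z hz
    have h1 := congrArg norm h0
    rw [norm_pow, norm_one, hn] at h1
    have h2 : (1 : ℝ) < ((|a i| : ℤ) : ℝ) := by
      have := ha i
      have h3 : (2 : ℝ) ≤ ((|a i| : ℤ) : ℝ) := by exact_mod_cast this
      linarith
    have h3 := one_lt_pow₀ h2 (by omega : t ≠ 0)
    linarith
  · intro z w hz hw hzw t ht h0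
    obtain ⟨i, rfl⟩ := pol_root a z hz
    obtain ⟨j, rfl⟩ := pol_root a w hw
    have hij : i ≠ j := by
      rintro rfl
      exact hzw rfl
    have h1 := congrArg norm h0
    rw [norm_pow, norm_pow, hn, hn] at h1
    have h2 : ((|a i| : ℤ) : ℝ) = ((|a j| : ℤ) : ℝ) := by
      refine (pow_left_inj₀ ?_ ?_ (by omega : t ≠ 0)).1 h1
      · exact_mod_cast abs_nonneg (a i)
      · exact_mod_cast abs_nonneg (a j)
    exact hab i j hij (by exact_mod_cast h2)

lemma pol_rec (i : Fin r) : Rec (pol a) (fun n => a i ^ n) := by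
  intro n
  have h1 : (pol a).eval (a i) = 0 := by
    unfold pol
    rw [eval_prod, prod_eq_zero_iff]
    exact ⟨i, mem_univ _, by rw [eval_sub, eval_X, eval_C, sub_self]⟩
  rw [eval_eq_sum_range] at h1
  have h2 : ∑ m ∈ range ((pol a).natDegree + 1), (pol a).coeff m * a i ^ (n + m) =
      a i ^ n * ∑ m ∈ range ((pol a).natDegree + 1), (pol a).coeff m * a i ^ m := by
    rw [mul_sum]
    refine sum_congr rfl fun m _ => ?_
    rw [pow_add]
    ring
  rw [h2, h1, mul_zero]

lemma pol_indep (hab : ∀ i j, i ≠ j → |a i| ≠ |a j|) : LinearIndependent ℤ (fun (i : Fin r) (n : ℕ) => a i ^ n) := by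
  rw [Fintype.linearIndependent_iff]
  intro g hg
  have hinj : Function.Injective a := by
    intro i j hij
    by_contra hne
    exact hab i j hne (by rw [hij])
  have h1 := Matrix.eq_zero_of_forall_pow_sum_mul_pow_eq_zero hinj (v := g) (by
    intro n
    have h2 := congrFun hg n
    rw [Finset.sum_apply] at h2
    simpa [smul_eq_mul] using h2)
  intro i
  rw [h1]
  rfl

end powers

section fib

/-- the characteristic polynomial of the Fibonacci numbers -/
noncomputable def fibPol : ℤ[X] := X ^ 2 - X - 1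

lemma fibPol_eq : fibPol = C 1 * X ^ 2 + C (-1) * X + C (-1) := by
  unfold fibPol
  simp
  ring

lemma fibPol_deg : fibPol.natDegree = 2 := by
  rw [fibPol_eq]
  exact natDegree_quadratic one_ne_zero

lemma fibPol_monic : fibPol.Monic := by
  rw [Monic, leadingCoeff, fibPol_deg, fibPol_eq]
  simp [coeff_X, coeff_one]

lemma fib_norm (z : ℂ) (hz : z ^ 2 - z - 1 = 0) : ‖z‖ ≠ 1 := by
  intro h
  have h1 : z * (starRingEnd ℂ) z = 1 := by
    rw [Complex.mul_conj']
    rw [h]
    simp
  have h2 : z - (starRingEnd ℂ) z = 1 := by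
    linear_combination (starRingEnd ℂ) z * hz - (z - 1) * h1
  have h3 := congrArg Complex.re h2
  simp at h3

lemma fibPol_nondeg : Nondeg fibPol := by
  have hroot : ∀ z : ℂ, aeval z fibPol = 0 → z ^ 2 - z - 1 = 0 := by
    intro z hz
    unfold fibPol at hz
    simpa using hz
  refine ⟨fibPol_monic, by rw [fibPol_deg]; norm_num, ?_, ?_, ?_, ?_⟩
  · have h1 : fibPol.map (Int.castRingHom ℂ) = X ^ 2 - X - 1 := by
      unfold fibPol
      simp
    rw [h1]
    refine ⟨-4 * C (1 / 5), (2 * X - 1) * C (1 / 5), ?_⟩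
    have h2 : derivative (X ^ 2 - X - 1 : ℂ[X]) = 2 * X - 1 := by
      rw [derivative_sub, derivative_sub, derivative_X_pow, derivative_X, derivative_one]
      simp
      exact map_ofNat C 2
    have e3 : (5 : ℂ[X]) * C (1 / 5) = 1 := by
      rw [← map_ofNat C 5, ← C_mul, ← C_1]
      congr 1
      norm_num
    rw [h2]
    linear_combination e3
  · intro z hz h0
    have := hroot z hz
    rw [h0] at this
    norm_num at this
  · intro z hz t ht h0
    apply fib_norm z (hroot z hz)
    have h1 := congrArg norm h0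
    rw [norm_pow, norm_one] at h1
    exact (pow_eq_one_iff_of_nonneg (norm_nonneg z) (by omega : t ≠ 0)).1 h1
  · intro z w hz hw hzw t ht h0
    have h1 := hroot z hz
    have h2 := hroot w hw
    have h3 : z + w = 1 := by
      have h4 : (z - w) * (z + w - 1) = 0 := by linear_combination h1 - h2
      have h5 := (mul_eq_zero.1 h4).resolve_left (sub_ne_zero.2 hzw)
      linear_combination h5
    have h4 : z * w = -1 := by
      have : w = 1 - z := by linear_combination h3
      rw [this]
      linear_combination -h1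
    have h5 : ‖z‖ = ‖w‖ := by
      have := congrArg norm h0
      rw [norm_pow, norm_pow] at this
      exact (pow_left_inj₀ (norm_nonneg _) (norm_nonneg _) (by omega : t ≠ 0)).1 this
    have h6 := congrArg norm h4
    rw [norm_mul, ← h5, norm_neg, norm_one] at h6
    apply fib_norm z h1
    have h7 : ‖z‖ ^ 2 = 1 := by rw [sq]; exact h6
    exact (pow_eq_one_iff_of_nonneg (norm_nonneg z) (by norm_num : 2 ≠ 0)).1 h7

/-- consecutive Fibonacci numbers -/
def fibs (j : Fin 2) (n : ℕ) : ℤ := (Nat.fib (n + j) : ℤ)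

lemma fibs_rec (j : Fin 2) : Rec fibPol (fibs j) := by
  intro n
  rw [fibPol_deg, sum_range_succ, sum_range_succ, sum_range_succ, sum_range_zero, fibPol_eq]
  unfold fibs
  have h1 : Nat.fib (n + j + 2) = Nat.fib (n + j) + Nat.fib (n + j + 1) := Nat.fib_add_two
  have h2 : n + 2 + (j : ℕ) = n + j + 2 := by ring
  have h3 : n + 1 + (j : ℕ) = n + j + 1 := by ring
  have h4 : n + 0 + (j : ℕ) = n + j := by ring
  rw [h2, h3, h4, h1]
  simp [coeff_X, coeff_one]
  ring

lemma fibs_indep : LinearIndependent ℤ fibs := by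
  rw [Fintype.linearIndependent_iff]
  intro g hg
  have h1 : ∀ n : ℕ, g 0 * (Nat.fib n : ℤ) + g 1 * (Nat.fib (n + 1) : ℤ) = 0 := by
    intro n
    have h2 := congrFun hg n
    rw [Finset.sum_apply, Fin.sum_univ_two] at h2
    simpa [smul_eq_mul, fibs] using h2
  have h2 := h1 0
  have h3 := h1 1
  simp at h2 h3
  have h4 : g 0 = 0 := by
    rw [h2] at h3
    simpa using h3
  intro i
  fin_cases i
  · exact h4
  · exact h2

end fib

end Pool.Agent.J4.H80.BGR
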