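import Pool.Agent.J4.H80.BGR.E

set_option autoImplicit false

/-! The flattening lemma with powers of `p`. -/

namespace Pool.Agent.J4.H80.BGR

open Finset Filter

/-- powers of `p` with a positive exponent are large -/
lemma ev_pow (c A : ℝ) (hc : 0 < c) : ∃ P : ℕ, ∀ p : ℕ, P ≤ p → A ≤ (p : ℝ) ^ c := by
  have h1 : Tendsto (fun p : ℕ => (p : ℝ) ^ c) atTop atTop :=
    (tendsto_rpow_atTop hc).comp tendsto_natCast_atTop_atTop
  exact eventually_atTop.1 (h1.eventually_ge_atTop A)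

/-- finite reduced rings with at most `p ^ k` elements, at most `k` maximal ideals and no small quotients -/
structure Sized (k p : ℕ) (R : Type) [CommRing R] [Fintype R] : Prop where
  red : IsReduced R
  card_le : (Fintype.card R : ℝ) ≤ (p : ℝ) ^ (k : ℝ)
  max_le : Nat.card (MaximalSpectrum R) ≤ k
  quo : ∀ m : Ideal R, m.IsMaximal → 10 ≤ Nat.card (R ⧸ m)

open Classical in
/-- `H` consists of units, has at most `p ^ (-ε) |H|` elements in every class modulo a maximal ideal and in every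
dilate of a proper subring -/
structure Spread (ε : ℝ) (p : ℕ) {R : Type} [CommRing R] [Fintype R] (H : Finset R) : Prop where
  unit : ∀ h ∈ H, IsUnit h
  ne : H.Nonempty
  fib : ∀ m : Ideal R, m.IsMaximal → ∀ c : R, (p : ℝ) ^ ε * ((H.filter (fun h => h - c ∈ m)).card : ℝ) ≤ H.card
  gen : ∀ S : Subring R, S ≠ ⊤ → ∀ u : R, IsUnit u →
      (p : ℝ) ^ ε * ((H.filter (fun h => ∃ s ∈ S, u * s = h)).card : ℝ) ≤ H.card

open Classical in
theorem flatten (ε η : ℝ) (hε : 0 < ε) (hη : 0 < η) (k : ℕ) (hk1 : 1 ≤ k) : ∃ κ : ℝ, 0 < κ ∧ ∃ P₀ : ℕ, ∀ p : ℕ,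
    P₀ ≤ p → ∀ (R : Type) [CommRing R] [Fintype R] [DecidableEq R], Sized k p R →
    ∀ (ν : R → ℝ), (∀ x, 0 ≤ ν x) → ∑ x, ν x = 1 → (p : ℝ) ^ η / Fintype.card R ≤ ∑ x, ν x ^ 2 →
    (∀ m : Ideal R, m.IsMaximal → ∀ c : R, ∑ y ∈ univ.filter (fun y => y - c ∈ m), ν y ≤ (p : ℝ) ^ (-ε)) →
    ∀ H : Finset R, Spread ε p H →
    (∀ h ∈ H, ∑ x, |ν (h * x) - ν x| ≤ (p : ℝ) ^ (-(ε / 2))) →
    ∑ x, cv ν ν x ^ 2 ≤ (p : ℝ) ^ (-κ) * ∑ x, ν x ^ 2 := by
  obtain ⟨t, ht⟩ : ∃ t : ℕ, (k : ℝ) ≤ ε / 2 * (3 / 2 : ℝ) ^ t := by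
    obtain ⟨t, ht⟩ := pow_unbounded_of_one_lt (2 * k / ε) (show (1 : ℝ) < 3 / 2 by norm_num)
    refine ⟨t, ?_⟩
    have h1 : ε / 2 * (2 * k / ε) ≤ ε / 2 * (3 / 2 : ℝ) ^ t := mul_le_mul_of_nonneg_left ht.le (by positivity)
    have h2 : ε / 2 * (2 * k / ε) = k := by field_simp
    linarith
  obtain ⟨l, hl⟩ : ∃ l : ℕ, l = lev (5 * t + 9 + 2 * k) := ⟨_, rfl⟩
  obtain ⟨a, ha⟩ : ∃ a : ℝ, a = 350 * l + 60 := ⟨_, rfl⟩
  have ha60 : 60 ≤ a := by
    rw [ha]
    have : (0 : ℝ) ≤ 350 * l := by positivity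
    linarith
  obtain ⟨z, hz⟩ : ∃ z : ℝ, z = min ε η / (4 * a) := ⟨_, rfl⟩
  have hm : 0 < min ε η := lt_min hε hη
  have hz0 : 0 < z := by rw [hz]; positivity
  have haz : a * z = min ε η / 4 := by
    rw [hz]
    field_simp
  have hazε : a * z ≤ ε / 4 := by rw [haz]; linarith [min_le_left ε η]
  have hazη : a * z ≤ η / 4 := by rw [haz]; linarith [min_le_right ε η]
  obtain ⟨P1, h1⟩ := ev_pow z (2 ^ 31) hz0
  obtain ⟨P2, h2⟩ := ev_pow (ε / 2) (4 + 2 * k) (by positivity)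
  obtain ⟨P3, h3⟩ := ev_pow (3 * η / 4) 9 (by positivity)
  refine ⟨2 * z, by positivity, P1 + P2 + P3 + 10, ?_⟩
  intro p hp R _ _ _ hR ν hν hν1 hlow hνfib H hH hinv
  have hred := hR.red
  by_contra hcon
  push Not at hcon
  have hp0 : (0 : ℝ) < p := by exact_mod_cast (by omega : 0 < p)
  have hp1 : (1 : ℝ) ≤ p := by exact_mod_cast (by omega : 1 ≤ p)
  have hp1' : (1 : ℝ) < p := by exact_mod_cast (by omega : 1 < p)
  have g1 := h1 p (by omega)
  have g2 := h2 p (by omega)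
  have g3 := h3 p (by omega)
  have hk0 : (0 : ℝ) ≤ k := Nat.cast_nonneg _
  obtain ⟨K, hK⟩ : ∃ K : ℝ, K = (p : ℝ) ^ z := ⟨_, rfl⟩
  rw [← hK] at g1
  have hK1 : 1 ≤ K := le_trans (by norm_num) g1
  have hK0 : 0 < K := by linarith
  have hKpow : ∀ n : ℕ, K ^ n = (p : ℝ) ^ (z * n) := by
    intro n
    rw [hK, ← Real.rpow_natCast, ← Real.rpow_mul hp0.le]
  obtain ⟨r, hr⟩ : ∃ r : ℝ, r = Fintype.card R := ⟨_, rfl⟩
  have hr0 : 0 < r := by
    rw [hr]
    have : 0 < Fintype.card R := Fintype.card_pos_iff.2 ⟨0⟩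
    exact_mod_cast this
  rw [← hr] at hlow
  obtain ⟨N, hN⟩ : ∃ N : ℝ, N = 1 / ∑ x, ν x ^ 2 := ⟨_, rfl⟩
  have hs0 : 0 < ∑ x, ν x ^ 2 := lt_of_lt_of_le (by positivity) hlow
  have hN0 : 0 < N := by rw [hN]; positivity
  have hsN : ∑ x, ν x ^ 2 = 1 / N := by rw [hN, one_div_one_div]
  have hNup : N ≤ r * (p : ℝ) ^ (-η) := by
    rw [hN]
    have e1 : r * (p : ℝ) ^ (-η) = 1 / ((p : ℝ) ^ η / r) := by
      rw [Real.rpow_neg hp0.le]
      field_simp
    rw [e1]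
    exact one_div_le_one_div_of_le (by positivity) hlow
  have h21 : z * 21 ≤ ε / 2 := by nlinarith
  have h43 : z * 43 ≤ ε / 2 := by nlinarith
  have hK43 : K ^ 43 ≤ (p : ℝ) ^ (ε / 2) := by
    rw [hKpow 43]
    apply Real.rpow_le_rpow_of_exponent_le hp1
    push_cast
    exact h43
  have hHc : (0 : ℝ) < H.card := by exact_mod_cast hH.ne.card_pos
  have hsplit : (p : ℝ) ^ (ε / 2) * (p : ℝ) ^ (ε / 2) = (p : ℝ) ^ ε := by
    rw [← Real.rpow_add hp0]
    congr 1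
    ring
  have hbig : ∀ n : ℕ, n ≤ 350 * l + 20 → K ^ n ≤ (p : ℝ) ^ (a * z) := by
    intro n hn
    rw [hKpow]
    apply Real.rpow_le_rpow_of_exponent_le hp1
    have h4 : (n : ℝ) ≤ 350 * l + 20 := by exact_mod_cast hn
    rw [mul_comm a z]
    apply mul_le_mul_of_nonneg_left _ hz0.le
    rw [ha]
    linarith
  have key := flat_core k hk1 hR.max_le hR.quo hν hν1 hN0 hsN g1 (by
      rw [hsN] at hcon
      refine le_trans (le_of_eq ?_) hcon.le
      rw [hKpow 2, show -(2 * z) = -(z * (2 : ℕ)) by push_cast; ring, Real.rpow_neg hp0.le]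
      field_simp) H hH.unit hH.ne (by
      intro h hh
      calc K ^ 21 * ∑ x, |ν (h * x) - ν x| ≤ K ^ 21 * (p : ℝ) ^ (-(ε / 2)) :=
            mul_le_mul_of_nonneg_left (hinv h hh) (by positivity)
        _ = (p : ℝ) ^ (z * (21 : ℕ) + -(ε / 2)) := by rw [hKpow 21, ← Real.rpow_add hp0]
        _ ≤ (p : ℝ) ^ (0 : ℝ) := by
            apply Real.rpow_le_rpow_of_exponent_le hp1
            push_cast
            linarith
        _ = 1 := Real.rpow_zero _) t ((p : ℝ) ^ (ε / 2)) (by linarith) (by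
      refine hR.card_le.trans ?_
      rw [← Real.rpow_mul hp0.le]
      exact Real.rpow_le_rpow_of_exponent_le hp1 ht) (by
      intro S hS u hu
      have e1 := hH.gen S hS u hu
      obtain ⟨f, hf⟩ : ∃ f : ℝ, f = ((H.filter (fun h => ∃ s ∈ S, u * s = h)).card : ℝ) := ⟨_, rfl⟩
      have e1' : (p : ℝ) ^ ε * f ≤ H.card := by
        rw [hf]
        convert e1
      have hf0 : 0 ≤ f := by rw [hf]; exact Nat.cast_nonneg _
      suffices hgoal : K ^ 43 * f < H.card by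
        rw [hf] at hgoal
        convert hgoal
      rcases hf0.eq_or_lt with h0 | h0
      · rw [← h0, mul_zero]
        exact hHc
      · calc K ^ 43 * f ≤ (p : ℝ) ^ (ε / 2) * f := mul_le_mul_of_nonneg_right hK43 hf0
          _ < (p : ℝ) ^ ε * f := by
              apply mul_lt_mul_of_pos_right _ h0
              exact Real.rpow_lt_rpow_of_exponent_lt hp1' (by linarith)
          _ ≤ _ := e1') (by
      intro m hm c
      refine le_trans ?_ (hH.fib m hm c)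
      apply mul_le_mul_of_nonneg_right _ (Nat.cast_nonneg _)
      rw [← hsplit]
      exact mul_le_mul_of_nonneg_right hK43 (by positivity)) (by
      intro m hm c
      rw [← hl]
      have e1 := hνfib m hm c
      have e2 : 2 * k * (K ^ 350) ^ l * K ^ 20 ≤ (p : ℝ) ^ (ε / 2) * (p : ℝ) ^ (ε / 4) := by
        rw [← pow_mul, mul_assoc, ← pow_add]
        apply mul_le_mul (by linarith) _ (by positivity) (by positivity)
        refine (hbig _ le_rfl).trans ?_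
        exact Real.rpow_le_rpow_of_exponent_le hp1 hazε
      calc 2 * k * (K ^ 350) ^ l * K ^ 20 * ∑ y ∈ univ.filter (fun y => y - c ∈ m), ν y
          ≤ ((p : ℝ) ^ (ε / 2) * (p : ℝ) ^ (ε / 4)) * (p : ℝ) ^ (-ε) :=
            mul_le_mul e2 e1 (sum_nonneg fun y _ => hν y) (by positivity)
        _ = (p : ℝ) ^ (-(ε / 4)) := by
            rw [← Real.rpow_add hp0, ← Real.rpow_add hp0]
            congr 1
            ring
        _ ≤ (p : ℝ) ^ (0 : ℝ) := Real.rpow_le_rpow_of_exponent_le hp1 (by linarith)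
        _ = 1 := Real.rpow_zero _)
  rw [← hl, ← hr] at key
  have e2 : 2 * (K ^ 350) ^ l * (K ^ 3 * N) ≤ 2 * (p : ℝ) ^ (η / 4) * (r * (p : ℝ) ^ (-η)) := by
    have e3 : 2 * (K ^ 350) ^ l * (K ^ 3 * N) = 2 * K ^ (350 * l + 3) * N := by
      rw [← pow_mul, pow_add]
      ring
    rw [e3]
    apply mul_le_mul _ hNup hN0.le (by positivity)
    apply mul_le_mul_of_nonneg_left _ (by norm_num)
    refine (hbig _ (by omega)).trans ?_
    exact Real.rpow_le_rpow_of_exponent_le hp1 hazη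
  have e3 : 2 * (p : ℝ) ^ (η / 4) * (r * (p : ℝ) ^ (-η)) = r * (2 * (p : ℝ) ^ (-(3 * η / 4))) := by
    have : (p : ℝ) ^ (-(3 * η / 4)) = (p : ℝ) ^ (η / 4) * (p : ℝ) ^ (-η) := by
      rw [← Real.rpow_add hp0]
      congr 1
      ring
    rw [this]
    ring
  have e4 : (p : ℝ) ^ (-(3 * η / 4)) ≤ 1 / 9 := by
    rw [Real.rpow_neg hp0.le, ← one_div]
    exact one_div_le_one_div_of_le (by norm_num) g3
  nlinarith

end Pool.Agent.J4.H80.BGR
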