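import Pool.Agent.J4.H80.BGR.F

set_option autoImplicit false

/-! # Character sums over measures on finite rings which are almost invariant under many multiplications

Bourgain's theorem, in a general form. -/

namespace Pool.Agent.J4.H80.BGR

open Finset Filter

section four

variable {R : Type} [CommRing R] [Fintype R] [DecidableEq R]

set_option linter.unusedSectionVars false

/-- the Fourier coefficient -/
noncomputable def ft (f : R → ℝ) (ψ : AddChar R ℂ) : ℂ := ∑ x, (f x : ℂ) * ψ x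

lemma ft_cv (f g : R → ℝ) (ψ : AddChar R ℂ) : ft (cv f g) ψ = ft f ψ * ft g ψ := by
  unfold ft cv
  rw [sum_mul_sum]
  have h1 : ∀ x : R, ((∑ y, f y * g (x - y) : ℝ) : ℂ) * ψ x =
      ∑ y, ((f y : ℂ) * ψ y) * ((g (x - y) : ℂ) * ψ (x - y)) := by
    intro x
    push_cast
    rw [sum_mul]
    refine sum_congr rfl fun y _ => ?_
    have h2 : ψ x = ψ y * ψ (x - y) := by
      rw [← AddChar.map_add_eq_mul]
      congr 1
      ring
    rw [h2]
    ring
  simp only [h1]
  rw [sum_comm]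
  refine sum_congr rfl fun y _ => ?_
  rw [← mul_sum, ← mul_sum]
  congr 1
  exact Fintype.sum_equiv (Equiv.subRight y) _ _ fun _ => rfl

/-- Parseval's identity -/
lemma parseval (r : R → ℝ) : ∑ ψ : AddChar R ℂ, ‖ft r ψ‖ ^ 2 = Fintype.card R * ∑ u, r u ^ 2 := by
  unfold ft
  have h1 : ∀ ψ ∈ (univ : Finset (AddChar R ℂ)),
      ((‖∑ u : R, (r u : ℂ) * ψ u‖ ^ 2 : ℝ) : ℂ) =
      ∑ u : R, ∑ u' : R, ((r u : ℂ) * r u') * ψ (u - u') := by
    intro ψ _
    push_cast
    rw [← Complex.mul_conj', map_sum, sum_mul_sum]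
    refine sum_congr rfl fun u _ => sum_congr rfl fun u' _ => ?_
    rw [map_mul (starRingEnd ℂ), Complex.conj_ofReal, ← AddChar.map_neg_eq_conj, sub_eq_add_neg,
      AddChar.map_add_eq_mul]
    ring
  have h2 : ((∑ ψ : AddChar R ℂ, ‖∑ u : R, (r u : ℂ) * ψ u‖ ^ 2 : ℝ) : ℂ) =
      ((Fintype.card R * ∑ u, r u ^ 2 : ℝ) : ℂ) := by
    rw [Complex.ofReal_sum, sum_congr rfl h1, sum_comm]
    have h3 : ∀ u ∈ (univ : Finset R), ∑ ψ : AddChar R ℂ, ∑ u' : R,
        ((r u : ℂ) * r u') * ψ (u - u') = Fintype.card R * (r u : ℂ) ^ 2 := by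
      intro u _
      rw [sum_comm]
      have h4 : ∀ u' ∈ (univ : Finset R), ∑ ψ : AddChar R ℂ,
          ((r u : ℂ) * r u') * ψ (u - u') = if u = u' then Fintype.card R * (r u : ℂ) ^ 2 else 0 := by
        intro u' _
        rw [← mul_sum, AddChar.sum_apply_eq_ite]
        by_cases h : u = u'
        · subst h
          rw [sub_self, if_pos rfl, if_pos rfl]
          ring
        · rw [if_neg h, if_neg (sub_ne_zero.2 h)]
          simp
      rw [sum_congr rfl h4, sum_ite_eq, if_pos (mem_univ _)]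
    rw [sum_congr rfl h3, ← mul_sum]
    push_cast
    rfl
  exact_mod_cast h2

lemma norm_ch (ψ : AddChar R ℂ) (x : R) : ‖ψ x‖ = 1 := AddChar.norm_apply _ _

/-- dilation changes the Fourier coefficient little -/
lemma ft_dil (f : R → ℝ) {h : R} (hh : IsUnit h) (ψ : AddChar R ℂ) :
    ‖ft f (AddChar.mulShift ψ h) - ft f ψ‖ ≤ ∑ x, |f (h * x) - f x| := by
  have e1 : ft f ψ = ∑ x, (f (h * x) : ℂ) * ψ (h * x) := by
    unfold ft
    exact (Fintype.sum_bijective (fun x => h * x)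
      ((Finite.injective_iff_bijective).1 hh.mul_right_injective) _ _ fun x => rfl).symm
  rw [e1]
  unfold ft
  simp only [AddChar.mulShift_apply]
  rw [← sum_sub_distrib]
  refine (norm_sum_le _ _).trans (sum_le_sum fun x _ => ?_)
  rw [← sub_mul, norm_mul, norm_ch, mul_one, ← Complex.ofReal_sub, Complex.norm_real, Real.norm_eq_abs, abs_sub_comm]

/-- the iterated convolution squares -/
noncomputable def it (μ : R → ℝ) : ℕ → R → ℝ
  | 0 => μ
  | m + 1 => cv (it μ m) (it μ m)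

lemma it_nonneg {μ : R → ℝ} (h : ∀ x, 0 ≤ μ x) (m : ℕ) : ∀ x, 0 ≤ it μ m x := by
  induction m with
  | zero => exact h
  | succ m ih => exact fun x => cv_nonneg ih ih x

lemma it_sum {μ : R → ℝ} (h : ∑ x, μ x = 1) (m : ℕ) : ∑ x, it μ m x = 1 := by
  induction m with
  | zero => exact h
  | succ m ih =>
    show ∑ x, cv (it μ m) (it μ m) x = 1
    rw [sum_cv, ih, mul_one]

lemma it_ft (μ : R → ℝ) (m : ℕ) (ψ : AddChar R ℂ) : ft (it μ m) ψ = ft μ ψ ^ (2 ^ m) := by
  induction m with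
  | zero => rw [pow_zero, pow_one]; rfl
  | succ m ih =>
    show ft (cv (it μ m) (it μ m)) ψ = _
    rw [ft_cv, ih, ← pow_add]
    congr 1
    ring

lemma sum_mul_unit {h : R} (hh : IsUnit h) (f : R → ℝ) : ∑ x, f (h * x) = ∑ x, f x :=
  Fintype.sum_bijective (fun x => h * x) ((Finite.injective_iff_bijective).1 hh.mul_right_injective) _ _ fun _ => rfl

lemma cv_inv {f : R → ℝ} (hf : ∀ x, 0 ≤ f x) (h1 : ∑ x, f x = 1) {h : R} (hh : IsUnit h) :
    ∑ x, |cv f f (h * x) - cv f f x| ≤ 2 * ∑ x, |f (h * x) - f x| := by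
  obtain ⟨g, hg⟩ : ∃ g : R → ℝ, g = fun x => f (h * x) := ⟨_, rfl⟩
  have hg1 : ∑ x, g x = 1 := by
    rw [← h1, hg]
    exact sum_mul_unit hh f
  have hg0 : ∀ x, 0 ≤ g x := fun x => by rw [hg]; exact hf _
  have e1 : ∀ x, cv f f (h * x) = cv g g x := by
    intro x
    unfold cv
    rw [← sum_mul_unit hh]
    refine sum_congr rfl fun y _ => ?_
    rw [hg]
    dsimp only
    rw [mul_sub]
  obtain ⟨d, hd⟩ : ∃ d : R → ℝ, d = fun x => |g x - f x| := ⟨_, rfl⟩
  have e2 : ∀ x, |cv f f (h * x) - cv f f x| ≤ cv d g x + cv f d x := by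
    intro x
    rw [e1 x]
    unfold cv
    rw [← sum_sub_distrib, ← sum_add_distrib]
    refine (abs_sum_le_sum_abs _ _).trans (sum_le_sum fun y _ => ?_)
    rw [hd]
    dsimp only
    have e3 : g y * g (x - y) - f y * f (x - y) = (g y - f y) * g (x - y) + f y * (g (x - y) - f (x - y)) := by ring
    rw [e3]
    refine (abs_add_le _ _).trans ?_
    rw [abs_mul, abs_mul, abs_of_nonneg (hg0 (x - y)), abs_of_nonneg (hf y)]
  calc ∑ x, |cv f f (h * x) - cv f f x| ≤ ∑ x, (cv d g x + cv f d x) := sum_le_sum fun x _ => e2 x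
    _ = (∑ x, d x) * 1 + 1 * ∑ x, d x := by
        rw [sum_add_distrib, sum_cv, sum_cv, hg1, h1]
    _ = 2 * ∑ x, |f (h * x) - f x| := by
        rw [hd, hg]
        ring

lemma it_inv {μ : R → ℝ} (hμ : ∀ x, 0 ≤ μ x) (h1 : ∑ x, μ x = 1) {h : R} (hh : IsUnit h) (m : ℕ) :
    ∑ x, |it μ m (h * x) - it μ m x| ≤ 2 ^ m * ∑ x, |μ (h * x) - μ x| := by
  induction m with
  | zero => rw [pow_zero, one_mul]; rfl
  | succ m ih =>
    refine (cv_inv (it_nonneg hμ m) (it_sum h1 m) hh).trans ?_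
    calc 2 * ∑ x, |it μ m (h * x) - it μ m x| ≤ 2 * (2 ^ m * ∑ x, |μ (h * x) - μ x|) :=
          mul_le_mul_of_nonneg_left ih (by norm_num)
      _ = _ := by rw [pow_succ]; ring

open Classical in
lemma cv_fib {f : R → ℝ} (hf : ∀ x, 0 ≤ f x) (h1 : ∑ x, f x = 1) (I : Ideal R) (φ : ℝ)
    (h : ∀ c, ∑ y ∈ univ.filter (fun y => y - c ∈ I), f y ≤ φ) (c : R) :
    ∑ y ∈ univ.filter (fun y => y - c ∈ I), cv f f y ≤ φ := by
  unfold cv
  rw [sum_comm]
  calc ∑ z, ∑ y ∈ univ.filter (fun y => y - c ∈ I), f z * f (y - z)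
      ≤ ∑ z, f z * φ := by
        refine sum_le_sum fun z _ => ?_
        rw [← mul_sum]
        apply mul_le_mul_of_nonneg_left _ (hf z)
        refine le_trans (le_of_eq ?_) (h (c - z))
        refine sum_bij (fun y _ => y - z) ?_ ?_ ?_ ?_
        · intro y hy
          rw [mem_filter] at hy ⊢
          refine ⟨mem_univ _, ?_⟩
          have : y - z - (c - z) = y - c := by ring
          rw [this]
          exact hy.2
        · intro y _ y' _ hyy
          exact sub_left_injective hyy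
        · intro w hw
          rw [mem_filter] at hw
          refine ⟨w + z, ?_, by ring⟩
          rw [mem_filter]
          refine ⟨mem_univ _, ?_⟩
          have : w + z - c = w - (c - z) := by ring
          rw [this]
          exact hw.2
        · intro y _
          rfl
    _ = φ := by rw [← sum_mul, h1, one_mul]

open Classical in
lemma it_fib {μ : R → ℝ} (hμ : ∀ x, 0 ≤ μ x) (h1 : ∑ x, μ x = 1) (I : Ideal R) (φ : ℝ)
    (h : ∀ c, ∑ y ∈ univ.filter (fun y => y - c ∈ I), μ y ≤ φ) (m : ℕ) (c : R) :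
    ∑ y ∈ univ.filter (fun y => y - c ∈ I), it μ m y ≤ φ := by
  induction m generalizing c with
  | zero => exact h c
  | succ m ih => exact cv_fib (it_nonneg hμ m) (it_sum h1 m) I φ ih c

end four

open Classical in
/-- **Bourgain's theorem**, for probability measures on finite reduced rings which are almost
invariant under the multiplications by the elements of a spread set. -/
theorem bgr (ε : ℝ) (hε : 0 < ε) (k : ℕ) (hk1 : 1 ≤ k) : ∃ δ : ℝ, 0 < δ ∧ ∃ P₀ : ℕ, ∀ p : ℕ, P₀ ≤ p →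
    ∀ (R : Type) [CommRing R] [Fintype R], Sized k p R →
    ∀ (μ : R → ℝ), (∀ x, 0 ≤ μ x) → ∑ x, μ x = 1 →
    (∀ m : Ideal R, m.IsMaximal → ∀ c : R, ∑ y ∈ univ.filter (fun y => y - c ∈ m), μ y ≤ (p : ℝ) ^ (-ε)) →
    ∀ H : Finset R, Spread ε p H →
    (∀ h ∈ H, ∑ x, |μ (h * x) - μ x| ≤ (p : ℝ) ^ (-ε)) →
    ∀ ψ : AddChar R ℂ, ψ ≠ 1 → ‖∑ x, (μ x : ℂ) * ψ x‖ ≤ (p : ℝ) ^ (-δ) := by
  obtain ⟨κ, hκ, P1, hflat⟩ := flatten ε (ε / 2) hε (by positivity) k hk1
  obtain ⟨M, hM⟩ := exists_nat_gt (k / κ)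
  have hMκ : k < κ * M := by
    rw [div_lt_iff₀ hκ] at hM
    linarith
  obtain ⟨Q, hQ⟩ : ∃ Q : ℕ, Q = 2 ^ (M + 1) := ⟨_, rfl⟩
  have hQ0 : 0 < Q := by rw [hQ]; positivity
  have hQr : (0 : ℝ) < Q := by exact_mod_cast hQ0
  obtain ⟨δ, hδ⟩ : ∃ δ : ℝ, δ = ε / (8 * Q) := ⟨_, rfl⟩
  have hδ0 : 0 < δ := by rw [hδ]; positivity
  have hδQ : δ * Q = ε / 8 := by
    rw [hδ]
    field_simp
  have hδε : δ ≤ ε / 8 := by
    have h1 : (1 : ℝ) ≤ Q := by exact_mod_cast hQ0
    nlinarith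
  obtain ⟨P2, h2⟩ := ev_pow (ε / 2) (2 ^ M) (by positivity)
  obtain ⟨P3, h3⟩ := ev_pow (ε / 8) (2 ^ Q) (by positivity)
  obtain ⟨P4, h4⟩ := ev_pow (ε / 8) 2 (by positivity)
  refine ⟨δ, hδ0, P1 + P2 + P3 + P4 + 2, ?_⟩
  intro p hp R _ _ hR μ hμ hμ1 hμfib H hH hinv ψ hψ
  have hp1' : 1 < p := by omega
  have hp1 : (1 : ℝ) < p := by exact_mod_cast hp1'
  have hp0 : (0 : ℝ) < p := by linarith
  have g2 := h2 p (by omega)
  have g3 := h3 p (by omega)
  have g4 := h4 p (by omega)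
  change ‖ft μ ψ‖ ≤ _
  by_contra hcon
  push Not at hcon
  obtain ⟨r, hr⟩ : ∃ r : ℝ, r = Fintype.card R := ⟨_, rfl⟩
  have hr0 : 0 < r := by
    rw [hr]
    have : 0 < Fintype.card R := Fintype.card_pos_iff.2 ⟨0⟩
    exact_mod_cast this
  -- some iterated convolution is flat
  have hex : ∃ m, m ≤ M ∧ ∑ x, it μ m x ^ 2 < (p : ℝ) ^ (ε / 2) / r := by
    by_contra hno
    push Not at hno
    have hind : ∀ m, m ≤ M → ∑ x, it μ m x ^ 2 ≤ (p : ℝ) ^ (-(κ * m)) := by
      intro m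
      induction m with
      | zero =>
        intro _
        rw [Nat.cast_zero, mul_zero, neg_zero, Real.rpow_zero]
        calc ∑ x, it μ 0 x ^ 2 ≤ ∑ x, μ x := by
              refine sum_le_sum fun x _ => ?_
              have e1 : μ x ≤ 1 := by
                rw [← hμ1]
                exact single_le_sum (fun y _ => hμ y) (mem_univ x)
              show μ x ^ 2 ≤ μ x
              nlinarith [hμ x]
          _ = 1 := hμ1
      | succ m ih =>
        intro hm
        have h5 := hflat p (by omega) R hR (it μ m) (it_nonneg hμ m) (it_sum hμ1 m)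
          (by rw [← hr]; exact hno m (by omega)) (fun I hI c => it_fib hμ hμ1 I _ (hμfib I hI) m c) H hH (by
          intro h hh
          refine (it_inv hμ hμ1 (hH.unit h hh) m).trans ?_
          calc (2 : ℝ) ^ m * ∑ x, |μ (h * x) - μ x| ≤ 2 ^ M * (p : ℝ) ^ (-ε) := by
                apply mul_le_mul (pow_le_pow_right₀ (by norm_num) (by omega)) (hinv h hh)
                  (sum_nonneg fun x _ => abs_nonneg _) (by positivity)
            _ ≤ (p : ℝ) ^ (ε / 2) * (p : ℝ) ^ (-ε) := mul_le_mul_of_nonneg_right g2 (by positivity)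
            _ = (p : ℝ) ^ (-(ε / 2)) := by
                rw [← Real.rpow_add hp0]
                congr 1
                ring)
        calc ∑ x, it μ (m + 1) x ^ 2 ≤ (p : ℝ) ^ (-κ) * ∑ x, it μ m x ^ 2 := h5
          _ ≤ (p : ℝ) ^ (-κ) * (p : ℝ) ^ (-(κ * m)) :=
              mul_le_mul_of_nonneg_left (ih (by omega)) (by positivity)
          _ = _ := by
              rw [← Real.rpow_add hp0]
              congr 1
              push_cast
              ring
    have h6 := hind M le_rfl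
    have h7 := hno M le_rfl
    have h8 : (p : ℝ) ^ (-(κ * M)) < (p : ℝ) ^ (-(k : ℝ)) := by
      apply Real.rpow_lt_rpow_of_exponent_lt hp1
      linarith
    have h9 : (p : ℝ) ^ (-(k : ℝ)) ≤ (p : ℝ) ^ (ε / 2) / r := by
      rw [le_div_iff₀ hr0]
      calc (p : ℝ) ^ (-(k : ℝ)) * r ≤ (p : ℝ) ^ (-(k : ℝ)) * (p : ℝ) ^ (k : ℝ) := by
            apply mul_le_mul_of_nonneg_left _ (by positivity)
            rw [hr]
            exact hR.card_le
        _ = (p : ℝ) ^ (0 : ℝ) := by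
            rw [← Real.rpow_add hp0]
            congr 1
            ring
        _ ≤ _ := Real.rpow_le_rpow_of_exponent_le hp1.le (by positivity)
    linarith
  obtain ⟨m, hmM, hm⟩ := hex
  -- the large coefficients
  have hbig : ∀ h ∈ H, (p : ℝ) ^ (-δ) / 2 ≤ ‖ft μ (AddChar.mulShift ψ h)‖ := by
    intro h hh
    have h5 := (ft_dil μ (hH.unit h hh) ψ).trans (hinv h hh)
    have h6 : ‖ft μ ψ‖ ≤ ‖ft μ (AddChar.mulShift ψ h)‖ + ‖ft μ (AddChar.mulShift ψ h) - ft μ ψ‖ := by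
      have := norm_sub_le (ft μ (AddChar.mulShift ψ h)) (ft μ (AddChar.mulShift ψ h) - ft μ ψ)
      rwa [sub_sub_cancel] at this
    have h7 : (p : ℝ) ^ (-ε) ≤ (p : ℝ) ^ (-δ) / 2 := by
      rw [le_div_iff₀ (by norm_num : (0 : ℝ) < 2)]
      calc (p : ℝ) ^ (-ε) * 2 ≤ (p : ℝ) ^ (-ε) * (p : ℝ) ^ (ε / 8) :=
            mul_le_mul_of_nonneg_left g4 (by positivity)
        _ = (p : ℝ) ^ (-ε + ε / 8) := by rw [← Real.rpow_add hp0]
        _ ≤ _ := Real.rpow_le_rpow_of_exponent_le hp1.le (by linarith)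
    linarith
  obtain ⟨c, hc⟩ : ∃ c : ℝ, c = (p : ℝ) ^ (-δ) / 2 := ⟨_, rfl⟩
  have hc0 : 0 < c := by rw [hc]; positivity
  have hc1 : c ≤ 1 := by
    rw [hc]
    have : (p : ℝ) ^ (-δ) ≤ 1 := by
      calc (p : ℝ) ^ (-δ) ≤ (p : ℝ) ^ (0 : ℝ) := Real.rpow_le_rpow_of_exponent_le hp1.le (by linarith)
        _ = 1 := Real.rpow_zero _
    linarith
  obtain ⟨X, hX⟩ : ∃ X : Finset (AddChar R ℂ), X = H.image (fun h => AddChar.mulShift ψ h) := ⟨_, rfl⟩
  -- the characters are mostly distinct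
  have hXc : (p : ℝ) ^ ε ≤ X.card := by
    obtain ⟨I, hI⟩ : ∃ I : Ideal R, ∀ a, a ∈ I ↔ ∀ x, ψ (a * x) = 1 :=
      ⟨{ carrier := {a | ∀ x, ψ (a * x) = 1}
         add_mem' := fun {a b} ha hb x => by
           rw [add_mul, AddChar.map_add_eq_mul, ha x, hb x, one_mul]
         zero_mem' := fun x => by rw [zero_mul, AddChar.map_zero_eq_one]
         smul_mem' := fun b a ha x => by
           rw [smul_eq_mul, mul_comm b a, mul_assoc]
           exact ha (b * x) }, fun a => Iff.rfl⟩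
    have hItop : I ≠ ⊤ := by
      rw [Ideal.ne_top_iff_one, hI]
      intro h
      apply hψ
      ext x
      have := h x
      rw [one_mul] at this
      rw [this, AddChar.one_apply]
    obtain ⟨J, hJ, hIJ⟩ := Ideal.exists_le_maximal I hItop
    have h5 : H.card = ∑ χ ∈ X, (H.filter (fun h => AddChar.mulShift ψ h = χ)).card := by
      apply card_eq_sum_card_fiberwise
      intro a ha
      rw [hX]
      exact mem_coe.2 (mem_image_of_mem (fun h => AddChar.mulShift ψ h) (mem_coe.1 ha))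
    have h6 : ∀ χ ∈ X, (p : ℝ) ^ ε * ((H.filter (fun h => AddChar.mulShift ψ h = χ)).card : ℝ) ≤ H.card := by
      intro χ hχ
      rw [hX, mem_image] at hχ
      obtain ⟨h₀, hh₀, rfl⟩ := hχ
      refine le_trans ?_ (hH.fib J hJ h₀)
      apply mul_le_mul_of_nonneg_left _ (by positivity)
      apply Nat.cast_le.2
      apply card_le_card
      intro h hh
      rw [mem_filter] at hh ⊢
      refine ⟨hh.1, hIJ ?_⟩
      rw [hI]
      intro x
      have e1 := DFunLike.congr_fun hh.2 x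
      rw [AddChar.mulShift_apply, AddChar.mulShift_apply] at e1
      rw [sub_mul, sub_eq_add_neg, AddChar.map_add_eq_mul, e1, ← AddChar.map_add_eq_mul, add_neg_cancel,
        AddChar.map_zero_eq_one]
    have hHc : (0 : ℝ) < H.card := by exact_mod_cast hH.ne.card_pos
    have h7 : (p : ℝ) ^ ε * H.card ≤ X.card * H.card := by
      calc (p : ℝ) ^ ε * H.card = ∑ χ ∈ X, (p : ℝ) ^ ε * ((H.filter (fun h => AddChar.mulShift ψ h = χ)).card : ℝ) := by
            rw [← mul_sum]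
            congr 1
            exact_mod_cast h5
        _ ≤ ∑ χ ∈ X, (H.card : ℝ) := sum_le_sum h6
        _ = _ := by rw [sum_const, nsmul_eq_mul]
    exact le_of_mul_le_mul_right h7 hHc
  have hsum : (X.card : ℝ) * c ^ Q ≤ r * ∑ x, it μ m x ^ 2 := by
    rw [hr, ← parseval]
    have h5 : ∀ χ ∈ X, c ^ Q ≤ ‖ft (it μ m) χ‖ ^ 2 := by
      intro χ hχ
      rw [hX, mem_image] at hχ
      obtain ⟨h, hh, rfl⟩ := hχ
      rw [it_ft, norm_pow, ← pow_mul]
      have h6 := hbig h hh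
      rw [← hc] at h6
      calc c ^ Q ≤ c ^ (2 ^ m * 2) := by
            apply pow_le_pow_of_le_one hc0.le hc1
            rw [hQ, ← pow_succ]
            exact Nat.pow_le_pow_right (by norm_num) (by omega)
        _ ≤ _ := pow_le_pow_left₀ hc0.le h6 _
    calc (X.card : ℝ) * c ^ Q = ∑ χ ∈ X, c ^ Q := by rw [sum_const, nsmul_eq_mul]
      _ ≤ ∑ χ ∈ X, ‖ft (it μ m) χ‖ ^ 2 := sum_le_sum h5
      _ ≤ _ := sum_le_sum_of_subset_of_nonneg (subset_univ _) fun x _ _ => sq_nonneg _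
  have hcQ : (p : ℝ) ^ (-(ε / 4)) ≤ c ^ Q := by
    rw [hc, div_pow, ← Real.rpow_natCast, ← Real.rpow_mul hp0.le, le_div_iff₀ (by positivity)]
    calc (p : ℝ) ^ (-(ε / 4)) * 2 ^ Q ≤ (p : ℝ) ^ (-(ε / 4)) * (p : ℝ) ^ (ε / 8) :=
          mul_le_mul_of_nonneg_left g3 (by positivity)
      _ = (p : ℝ) ^ (-δ * Q) := by
          rw [← Real.rpow_add hp0]
          congr 1
          linarith
  have hfin : (p : ℝ) ^ ε * (p : ℝ) ^ (-(ε / 4)) < (p : ℝ) ^ (ε / 2) := by
    calc (p : ℝ) ^ ε * (p : ℝ) ^ (-(ε / 4)) ≤ X.card * c ^ Q :=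
          mul_le_mul hXc hcQ (by positivity) (Nat.cast_nonneg _)
      _ ≤ _ := hsum
      _ < r * ((p : ℝ) ^ (ε / 2) / r) := mul_lt_mul_of_pos_left hm hr0
      _ = (p : ℝ) ^ (ε / 2) := by field_simp
  rw [← Real.rpow_add hp0] at hfin
  have h9 : (p : ℝ) ^ (ε / 2) ≤ (p : ℝ) ^ (ε + -(ε / 4)) :=
    Real.rpow_le_rpow_of_exponent_le hp1.le (by linarith)
  linarith

end Pool.Agent.J4.H80.BGR
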