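import Pool.Agent.J4.H80.BGR.G
import Pool.Agent.J4.H80.BGK.Geo

set_option autoImplicit false

/-! # Character sums over short sequences of powers in finite reduced rings -/

namespace Pool.Agent.J4.H80.BGR

open Finset Filter
open Pool.Agent.J4.H80.BGK (cnt cnt_nonneg cnt_eq cnt_sum cnt_sum_mul cnt_shift)

/-- for `1 ≤ t < p ^ ε` the element `α ^ t - 1` is a unit and `α ^ t` is in no proper subring -/
structure Generic (ε : ℝ) (p : ℕ) {R : Type} [CommRing R] (α : R) : Prop where
  unit : IsUnit α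
  sub_one : ∀ t : ℕ, 1 ≤ t → (t : ℝ) < (p : ℝ) ^ ε → IsUnit (α ^ t - 1)
  gen : ∀ t : ℕ, 1 ≤ t → (t : ℝ) < (p : ℝ) ^ ε → ∀ S : Subring R, α ^ t ∈ S → S = ⊤

lemma spaced (A : Finset ℕ) (T g : ℕ) (hg : 0 < g) (hA : ∀ a ∈ A, a < T)
    (h : ∀ a ∈ A, ∀ b ∈ A, a < b → g ≤ b - a) : A.card ≤ T / g + 1 := by
  calc A.card = (A.image fun a => a / g).card := by
        rw [card_image_of_injOn]
        intro a ha b hb hab
        have hab' : a / g = b / g := hab
        rcases lt_trichotomy a b with h1 | h1 | h1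
        · have h2 := h a ha b hb h1
          have h3 : a / g + 1 ≤ b / g := by
            rw [← Nat.add_div_right a hg]
            exact Nat.div_le_div_right (by omega)
          omega
        · exact h1
        · have h2 := h b hb a ha h1
          have h3 : b / g + 1 ≤ a / g := by
            rw [← Nat.add_div_right b hg]
            exact Nat.div_le_div_right (by omega)
          omega
    _ ≤ (range (T / g + 1)).card := card_le_card fun k hk => by
        rw [mem_image] at hk
        obtain ⟨a, ha, rfl⟩ := hk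
        rw [mem_range]
        exact Nat.lt_succ_of_le (Nat.div_le_div_right (hA a ha).le)
    _ = _ := card_range _

/-- **Character sums over short sequences of powers.** -/
theorem geoR (ε : ℝ) (hε : 0 < ε) (k : ℕ) (hk1 : 1 ≤ k) : ∃ δ : ℝ, 0 < δ ∧ ∃ P₀ : ℕ, ∀ p : ℕ, P₀ ≤ p →
    ∀ (R : Type) [CommRing R] [Fintype R], Sized k p R → ∀ α : R, Generic ε p α →
    ∀ T : ℕ, (p : ℝ) ^ ε ≤ T → ∀ ψ : AddChar R ℂ, ψ ≠ 1 →
      ‖∑ j ∈ range T, ψ (α ^ j)‖ ≤ T * (p : ℝ) ^ (-δ) := by
  classical
  obtain ⟨δ, hδ, P₀, hP⟩ := bgr (ε / 3) (by positivity) k hk1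
  obtain ⟨P1, h1⟩ := ev_pow (ε / 3) 2 (by positivity)
  refine ⟨δ, hδ, P₀ + P1 + 2, ?_⟩
  intro p hp R _ _ hR α hα T hT ψ hψ
  have hp1 : (1 : ℝ) ≤ p := by exact_mod_cast (by omega : 1 ≤ p)
  have hp0 : (0 : ℝ) < p := by linarith
  set u : ℝ := (p : ℝ) ^ (ε / 3) with hu
  have hu2 : 2 ≤ u := h1 p (by omega)
  have hu0 : 0 < u := by linarith
  have hu3 : (p : ℝ) ^ ε = u ^ 3 := by
    rw [hu, ← Real.rpow_natCast, ← Real.rpow_mul hp0.le]
    congr 1
    push_cast
    ring
  have hui : (p : ℝ) ^ (-(ε / 3)) = u⁻¹ := by rw [hu, Real.rpow_neg hp0.le]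
  have hsub := hα.sub_one
  have hgen := hα.gen
  rw [hu3] at hT
  simp only [hu3] at hsub hgen
  have hT0 : (0 : ℝ) < T := lt_of_lt_of_le (by positivity) hT
  -- differences of powers
  have hdiff : ∀ a b : ℕ, a < b → ((b - a : ℕ) : ℝ) < u ^ 3 → IsUnit (α ^ b - α ^ a) := by
    intro a b hab hlt
    have e1 : α ^ b - α ^ a = α ^ a * (α ^ (b - a) - 1) := by
      rw [mul_sub, mul_one, ← pow_add]
      congr 2
      omega
    rw [e1]
    exact (hα.unit.pow a).mul (hsub (b - a) (by omega) hlt)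
  obtain ⟨g, hg⟩ : ∃ g : ℕ, g = ⌈u ^ 3⌉₊ := ⟨_, rfl⟩
  have hg1 : u ^ 3 ≤ g := by rw [hg]; exact Nat.le_ceil _
  have hg0 : 0 < g := by
    have : (0 : ℝ) < g := lt_of_lt_of_le (by positivity) hg1
    exact_mod_cast this
  have hglt : ∀ n : ℕ, n < g → (n : ℝ) < u ^ 3 := by
    intro n hn
    rw [hg] at hn
    exact Nat.lt_ceil.1 hn
  have hclass : ∀ m : Ideal R, m.IsMaximal → ∀ c : R, ∀ a b : ℕ, a < b → α ^ a - c ∈ m → α ^ b - c ∈ m →
      g ≤ b - a := by
    intro m hm c a b hab ha hb
    by_contra hcon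
    rw [not_le] at hcon
    have e1 := hdiff a b hab (hglt _ hcon)
    have e2 : α ^ b - α ^ a ∈ m := by
      have : α ^ b - α ^ a = (α ^ b - c) - (α ^ a - c) := by ring
      rw [this]
      exact m.sub_mem hb ha
    exact hm.ne_top (Ideal.eq_top_of_isUnit_mem m e2 e1)
  set y : ℕ → R := fun j => α ^ j with hy
  set μ : R → ℝ := fun x => cnt y T x / T with hμ
  have m0 : ∀ x, 0 ≤ μ x := fun x => div_nonneg (cnt_nonneg _ _ _) hT0.le
  have m1 : ∑ x, μ x = 1 := by
    rw [hμ, ← sum_div, cnt_sum, div_self hT0.ne']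
  have m2 : ∀ m : Ideal R, m.IsMaximal → ∀ c : R, ∑ z ∈ univ.filter (fun z => z - c ∈ m), μ z ≤ u⁻¹ := by
    intro m hm c
    have e1 : ∑ z ∈ univ.filter (fun z => z - c ∈ m), μ z =
        (((range T).filter fun j => y j - c ∈ m).card : ℝ) / T := by
      rw [hμ, ← sum_div]
      congr 1
      rw [card_filter]
      push_cast
      simp only [cnt_eq]
      rw [sum_comm]
      refine sum_congr rfl fun j _ => ?_
      rw [sum_ite_eq]
      simp
    rw [e1, div_le_iff₀ hT0]
    have e2 := spaced ((range T).filter fun j => y j - c ∈ m) T g hg0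
      (fun a ha => mem_range.1 (mem_filter.1 ha).1) (fun a ha b hb hab =>
        hclass m hm c a b hab (mem_filter.1 ha).2 (mem_filter.1 hb).2)
    have e3 : (((range T).filter fun j => y j - c ∈ m).card : ℝ) ≤ (T : ℝ) / g + 1 := by
      have e4 : ((T / g : ℕ) : ℝ) ≤ (T : ℝ) / g := Nat.cast_div_le
      have e5 : (((range T).filter fun j => y j - c ∈ m).card : ℝ) ≤ ((T / g + 1 : ℕ) : ℝ) := by
        exact_mod_cast e2
      push_cast at e5
      linarith
    have e4 : (T : ℝ) / g ≤ T / u ^ 3 := div_le_div_of_nonneg_left hT0.le (by positivity) hg1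
    have e5 : (1 : ℝ) ≤ T / u ^ 3 := by
      rw [le_div_iff₀ (by positivity), one_mul]
      exact hT
    have e6 : (T : ℝ) / u ^ 3 + T / u ^ 3 ≤ u⁻¹ * T := by
      rw [← add_div, div_le_iff₀ (by positivity)]
      have : u⁻¹ * T * u ^ 3 = T * u ^ 2 := by field_simp
      rw [this]
      nlinarith [mul_pos hT0 hu0]
    linarith
  obtain ⟨I, hI⟩ : ∃ I : ℕ, I = ⌈u⌉₊ := ⟨_, rfl⟩
  have hI1 : u ≤ I := by rw [hI]; exact Nat.le_ceil _
  have hI2 : (I : ℝ) < u + 1 := by rw [hI]; exact Nat.ceil_lt_add_one hu0.le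
  have hIr0 : (0 : ℝ) < I := lt_of_lt_of_le hu0 hI1
  have hI0 : 0 < I := by exact_mod_cast hIr0
  have hu1 : u + 1 ≤ u ^ 3 := by nlinarith [mul_pos hu0 hu0]
  have hIlt : ∀ n : ℕ, n ≤ I → (n : ℝ) < u ^ 3 := by
    intro n hn
    have : (n : ℝ) ≤ I := by exact_mod_cast hn
    linarith
  have hIg : I ≤ g := by
    have : (I : ℝ) ≤ g := by linarith
    exact_mod_cast this
  obtain ⟨H, hH⟩ : ∃ H : Finset R, H = (range I).image y := ⟨_, rfl⟩
  have hnontriv : Nontrivial R := by
    by_contra hcon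
    rw [not_nontrivial_iff_subsingleton] at hcon
    apply hψ
    ext x
    rw [Subsingleton.elim x 0, AddChar.map_zero_eq_one, AddChar.one_apply]
  have hHcard : H.card = I := by
    rw [hH, card_image_of_injOn, card_range]
    intro i hi j hj hij
    rw [coe_range, Set.mem_Iio] at hi hj
    have hij' : α ^ i = α ^ j := hij
    rcases lt_trichotomy i j with h2 | h2 | h2
    · exfalso
      have e1 := hdiff i j h2 (hIlt _ (by omega))
      rw [hij', sub_self] at e1
      exact not_isUnit_zero e1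
    · exact h2
    · exfalso
      have e1 := hdiff j i h2 (hIlt _ (by omega))
      rw [hij', sub_self] at e1
      exact not_isUnit_zero e1
  have hspread : Spread (ε / 3) p H := by
    refine ⟨?_, ?_, ?_, ?_⟩
    · intro h hh
      rw [hH, mem_image] at hh
      obtain ⟨i, _, rfl⟩ := hh
      exact hα.unit.pow i
    · rw [← card_pos, hHcard]
      exact hI0
    · intro m hm c
      rw [hHcard, ← hu]
      have e1 : (H.filter fun h => h - c ∈ m).card ≤ 1 := by
        rw [card_le_one]
        intro a ha b hb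
        rw [mem_filter, hH, mem_image] at ha hb
        obtain ⟨⟨i, hi, rfl⟩, hi2⟩ := ha
        obtain ⟨⟨j, hj, rfl⟩, hj2⟩ := hb
        rw [mem_range] at hi hj
        rcases lt_trichotomy i j with h2 | h2 | h2
        · have := hclass m hm c i j h2 hi2 hj2
          omega
        · rw [h2]
        · have := hclass m hm c j i h2 hj2 hi2
          omega
      have e2 : ((H.filter fun h => h - c ∈ m).card : ℝ) ≤ 1 := by exact_mod_cast e1
      calc u * ((H.filter fun h => h - c ∈ m).card : ℝ) ≤ u * 1 := mul_le_mul_of_nonneg_left e2 hu0.le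
        _ ≤ I := by linarith
    · intro S hS v hv
      rw [hHcard, ← hu]
      have key : ∀ i j : ℕ, i < j → j < I → (∃ s ∈ S, v * s = y i) → (∃ s ∈ S, v * s = y j) → False := by
        rintro i j hij hj ⟨s, hs, hvs⟩ ⟨s', hs', hvs'⟩
        have hsu : IsUnit s := by
          have : IsUnit (v * s) := by rw [hvs]; exact hα.unit.pow i
          exact isUnit_of_mul_isUnit_right this
        obtain ⟨n, hn0, hn⟩ : ∃ n : ℕ, 0 < n ∧ s ^ n = 1 := by
          obtain ⟨w, hw⟩ := hsu
          refine ⟨orderOf w, orderOf_pos w, ?_⟩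
          rw [← hw, ← Units.val_pow_eq_pow_val, pow_orderOf_eq_one, Units.val_one]
        have e1 : α ^ (j - i) = s' * s ^ (n - 1) := by
          have e2 : α ^ i * α ^ (j - i) = α ^ i * (s' * s ^ (n - 1)) := by
            rw [← pow_add, show i + (j - i) = j by omega]
            have e3 : α ^ i = v * s := hvs.symm
            have e4 : α ^ j = v * s' := hvs'.symm
            rw [e3, e4]
            have e5 : s * s ^ (n - 1) = 1 := by
              rw [← pow_succ', show n - 1 + 1 = n by omega, hn]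
            calc v * s' = v * s' * (s * s ^ (n - 1)) := by rw [e5, mul_one]
              _ = _ := by ring
          exact (hα.unit.pow i).mul_right_injective e2
        have e2 : α ^ (j - i) ∈ S := by
          rw [e1]
          exact S.mul_mem hs' (S.pow_mem hs _)
        exact hS (hgen (j - i) (by omega) (hIlt _ (by omega)) S e2)
      have e1 : (H.filter fun h => ∃ s ∈ S, v * s = h).card ≤ 1 := by
        rw [card_le_one]
        intro a ha b hb
        rw [mem_filter, hH, mem_image] at ha hb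
        obtain ⟨⟨i, hi, rfl⟩, hi2⟩ := ha
        obtain ⟨⟨j, hj, rfl⟩, hj2⟩ := hb
        rw [mem_range] at hi hj
        rcases lt_trichotomy i j with h2 | h2 | h2
        · exact (key i j h2 hj hi2 hj2).elim
        · rw [h2]
        · exact (key j i h2 hi hj2 hi2).elim
      have e2 : ((H.filter fun h => ∃ s ∈ S, v * s = h).card : ℝ) ≤ 1 := by exact_mod_cast e1
      calc u * ((H.filter fun h => ∃ s ∈ S, v * s = h).card : ℝ) ≤ u * 1 := mul_le_mul_of_nonneg_left e2 hu0.le
        _ ≤ I := by linarith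
  have hft := hP p (by omega) R hR μ m0 m1 (by rw [hui]; exact m2) H hspread (by
      intro h hh
      rw [hH, mem_image] at hh
      obtain ⟨i, hi, rfl⟩ := hh
      rw [mem_range] at hi
      have h1 := cnt_shift y T (y i) i (fun j => by rw [hy]; ring) (fun b c hbc =>
        (hα.unit.pow i).mul_right_injective hbc)
      have h2 : ∑ x, |μ (y i * x) - μ x| = (∑ x, |cnt y T (y i * x) - cnt y T x|) / T := by
        rw [sum_div]
        refine sum_congr rfl fun x _ => ?_
        rw [hμ]
        show |cnt y T (y i * x) / T - cnt y T x / T| = _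
        rw [← sub_div, abs_div, abs_of_pos hT0]
      rw [h2, hui, div_le_iff₀ hT0]
      have h3 : (i : ℝ) + 1 ≤ I := by exact_mod_cast hi
      have h4 : (i : ℝ) ≤ u := by linarith
      calc (∑ x, |cnt y T (y i * x) - cnt y T x|) ≤ 2 * i := h1
        _ ≤ 2 * u := by linarith
        _ ≤ u * u := by nlinarith
        _ = u⁻¹ * u ^ 3 := by field_simp
        _ ≤ u⁻¹ * T := mul_le_mul_of_nonneg_left hT (by positivity)) ψ hψ
  have hsum : ∑ x, (μ x : ℂ) * ψ x = (∑ j ∈ range T, ψ (α ^ j)) / T := by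
    have h1 := cnt_sum_mul y T (fun x => ψ x)
    rw [← h1, sum_div]
    refine sum_congr rfl fun x _ => ?_
    rw [hμ]
    push_cast
    show (cnt y T x : ℂ) / T * ψ x = _
    ring
  rw [hsum, norm_div, Complex.norm_natCast, div_le_iff₀ hT0] at hft
  linarith

end Pool.Agent.J4.H80.BGR
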