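import Pool.Agent.J4.H80.BGR.H

set_option autoImplicit false

/-! # Exponential sums over short pieces of linear recurring sequences modulo primes -/

namespace Pool.Agent.J4.H80.BGR

open Finset Polynomial

variable {p : ℕ} [Fact p.Prime]

/-- `f` is monic and squarefree with `f(0) ≠ 0`, and for `1 ≤ t < p ^ ε` it is coprime to `X ^ t - 1` and does not divide
`g(X ^ t)` for any nonzero `g` of smaller degree -/
structure Good (ε : ℝ) (p : ℕ) [Fact p.Prime] (f : (ZMod p)[X]) : Prop where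
  monic : f.Monic
  sqf : Squarefree f
  coeff_ne : f.coeff 0 ≠ 0
  coprime : ∀ t : ℕ, 1 ≤ t → (t : ℝ) < (p : ℝ) ^ ε → IsCoprime f (X ^ t - 1)
  gen : ∀ t : ℕ, 1 ≤ t → (t : ℝ) < (p : ℝ) ^ ε → ∀ g : (ZMod p)[X], g ≠ 0 → g.natDegree < f.natDegree →
    ¬ f ∣ g.comp (X ^ t)

lemma natCard_adj {f : (ZMod p)[X]} (hf : f.Monic) : Nat.card (AdjoinRoot f) = p ^ f.natDegree := by
  have := hf.finite_adjoinRoot
  rw [Module.natCard_eq_pow_finrank (K := ZMod p), Nat.card_zmod]
  congr 1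
  rw [(AdjoinRoot.powerBasis' hf).finrank, AdjoinRoot.powerBasis'_dim hf]

lemma quo_card {R : Type} [CommRing R] [Finite R] [Algebra (ZMod p) R] (m : Ideal R) (hm : m.IsMaximal) :
    p ≤ Nat.card (R ⧸ m) := by
  have : Nontrivial (R ⧸ m) := Ideal.Quotient.nontrivial_iff.2 hm.ne_top
  have : Finite (R ⧸ m) := Finite.of_surjective _ Ideal.Quotient.mk_surjective
  have h1 : Function.Injective ((Ideal.Quotient.mk m).comp (algebraMap (ZMod p) R)) := RingHom.injective _
  have h2 := Nat.card_le_card_of_injective _ h1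
  rwa [Nat.card_zmod] at h2

lemma sized {f : (ZMod p)[X]} (hf : f.Monic) (hsq : Squarefree f) (hp : 10 ≤ p) (k : ℕ) (hk : f.natDegree ≤ k)
    [Fintype (AdjoinRoot f)] : Sized k p (AdjoinRoot f) := by
  have hred : IsReduced (AdjoinRoot f) :=
    (Ideal.isRadical_iff_quotient_reduced _).1 (isRadical_iff_span_singleton.1 hsq.isRadical)
  have hp1 : (1 : ℝ) ≤ p := by exact_mod_cast (by omega : 1 ≤ p)
  refine ⟨hred, ?_, ?_, ?_⟩
  · rw [← Nat.card_eq_fintype_card, natCard_adj hf, Real.rpow_natCast]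
    push_cast
    exact pow_le_pow_right₀ hp1 hk
  · have hart : IsArtinianRing (AdjoinRoot f) := inferInstance
    have h1 : Nat.card (AdjoinRoot f) =
        Nat.card (∀ I : MaximalSpectrum (AdjoinRoot f), (AdjoinRoot f) ⧸ I.asIdeal) :=
      Nat.card_congr (IsArtinianRing.equivPi (AdjoinRoot f)).toEquiv
    let _ : Fintype (MaximalSpectrum (AdjoinRoot f)) := Fintype.ofFinite _
    rw [Nat.card_pi, natCard_adj hf] at h1
    have h2 : p ^ Nat.card (MaximalSpectrum (AdjoinRoot f)) ≤ p ^ f.natDegree := by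
      rw [h1, Nat.card_eq_fintype_card, ← card_univ, ← prod_const]
      exact prod_le_prod' fun m _ => quo_card m.asIdeal m.isMaximal
    exact ((Nat.pow_le_pow_iff_right (by omega : 1 < p)).1 h2).trans hk
  · intro m hm
    exact hp.trans (quo_card m hm)

lemma generic {ε : ℝ} {f : (ZMod p)[X]} (hf : Good ε p f) : Generic ε p (AdjoinRoot.root f) := by
  refine ⟨?_, ?_, ?_⟩
  · have h1 := congrArg (AdjoinRoot.mk f) (divX_mul_X_add f)
    rw [AdjoinRoot.mk_self, map_add, map_mul, AdjoinRoot.mk_X, AdjoinRoot.mk_C] at h1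
    obtain ⟨c, hc⟩ : ∃ c, c = f.coeff 0 := ⟨_, rfl⟩
    rw [← hc] at h1
    have hc0 : c ≠ 0 := by rw [hc]; exact hf.coeff_ne
    refine IsUnit.of_mul_eq_one (AdjoinRoot.mk f f.divX * (- AdjoinRoot.of f c⁻¹)) ?_
    have h2 : AdjoinRoot.of f c * AdjoinRoot.of f c⁻¹ = 1 := by
      rw [← map_mul, mul_inv_cancel₀ hc0, map_one]
    linear_combination (- AdjoinRoot.of f c⁻¹) * h1 + h2
  · intro t ht1 ht2
    obtain ⟨a, b, hab⟩ := hf.coprime t ht1 ht2
    have h1 := congrArg (AdjoinRoot.mk f) hab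
    rw [map_add, map_mul, map_mul, AdjoinRoot.mk_self, mul_zero, zero_add, map_sub, map_pow, AdjoinRoot.mk_X,
      map_one] at h1
    refine IsUnit.of_mul_eq_one (AdjoinRoot.mk f b) ?_
    rw [mul_comm]
    exact h1
  · intro t ht1 ht2 S hS
    obtain ⟨d, hd⟩ : ∃ d, d = f.natDegree := ⟨_, rfl⟩
    obtain ⟨β, hβ⟩ : ∃ β, β = (AdjoinRoot.root f) ^ t := ⟨_, rfl⟩
    rw [← hβ] at hS
    have hfin := hf.monic.finite_adjoinRoot
    obtain ⟨φ, hφ⟩ : ∃ φ : (Fin d → ZMod p) →ₗ[ZMod p] AdjoinRoot f, ∀ c, φ c = ∑ i, c i • β ^ (i : ℕ) :=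
      ⟨Fintype.linearCombination (ZMod p) (fun i : Fin d => β ^ (i : ℕ)), fun c => rfl⟩
    have hinj : Function.Injective φ := by
      rw [injective_iff_map_eq_zero]
      intro c hc
      rw [hφ] at hc
      obtain ⟨g, hg⟩ : ∃ g : (ZMod p)[X], g = ∑ i : Fin d, C (c i) * X ^ (i : ℕ) := ⟨_, rfl⟩
      have h1 : AdjoinRoot.mk f (g.comp (X ^ t)) = 0 := by
        rw [← hc, hg, Polynomial.sum_comp, map_sum]
        refine sum_congr rfl fun i _ => ?_
        rw [mul_comp, C_comp, X_pow_comp, map_mul, map_pow, map_pow, AdjoinRoot.mk_C, AdjoinRoot.mk_X, ← hβ,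
          Algebra.smul_def]
        rfl
      rw [AdjoinRoot.mk_eq_zero] at h1
      by_cases hg0 : g = 0
      · funext i
        have h2 : g.coeff i = c i := by
          rw [hg, finsetSum_coeff]
          simp only [coeff_C_mul_X_pow]
          rw [sum_eq_single i]
          · rw [if_pos rfl]
          · intro j _ hj
            rw [if_neg]
            intro h
            exact hj (Fin.ext h.symm)
          · intro h
            exact absurd (mem_univ i) h
        rw [← h2, hg0, coeff_zero, Pi.zero_apply]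
      · exfalso
        refine hf.gen t ht1 ht2 g hg0 ?_ h1
        rw [← hd]
        have h3 : g.degree < d := by rw [hg]; exact degree_sum_fin_lt c
        exact (natDegree_lt_iff_degree_lt hg0).2 h3
    have hsurj : Function.Surjective φ := by
      refine (LinearMap.injective_iff_surjective_of_finrank_eq_finrank ?_).1 hinj
      rw [Module.finrank_fin_fun, (AdjoinRoot.powerBasis' hf.monic).finrank, AdjoinRoot.powerBasis'_dim hf.monic, hd]
    rw [eq_top_iff]
    intro x _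
    obtain ⟨c, rfl⟩ := hsurj x
    rw [hφ]
    refine S.sum_mem fun i _ => ?_
    rw [Algebra.smul_def]
    refine S.mul_mem ?_ (S.pow_mem hS _)
    have h1 : algebraMap (ZMod p) (AdjoinRoot f) (c i) = ((c i).val : AdjoinRoot f) := by
      conv_lhs => rw [← ZMod.natCast_zmod_val (c i)]
      rw [map_natCast]
    rw [h1]
    exact natCast_mem S _

/-- the linear functional with given values at the powers -/
lemma functional {f : (ZMod p)[X]} (hf : f.Monic) (u : ℕ → ZMod p)
    (hu : ∀ n, ∑ i ∈ range (f.natDegree + 1), f.coeff i * u (n + i) = 0) :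
    ∃ l : AdjoinRoot f →ₗ[ZMod p] ZMod p, ∀ n, l (AdjoinRoot.root f ^ n) = u n := by
  obtain ⟨d, hd⟩ : ∃ d, d = f.natDegree := ⟨_, rfl⟩
  obtain ⟨pb, hpb⟩ : ∃ pb, pb = AdjoinRoot.powerBasis' hf := ⟨_, rfl⟩
  have hdim : pb.dim = f.natDegree := by rw [hpb]; exact AdjoinRoot.powerBasis'_dim hf
  have hgen : pb.gen = AdjoinRoot.root f := by rw [hpb]; exact AdjoinRoot.powerBasis'_gen hf
  obtain ⟨l, hl⟩ : ∃ l : AdjoinRoot f →ₗ[ZMod p] ZMod p, l = pb.basis.constr (ZMod p) (fun i => u i) := ⟨_, rfl⟩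
  have h1 : ∀ n, n < f.natDegree → l (AdjoinRoot.root f ^ n) = u n := by
    intro n hn
    have h2 := pb.basis.constr_basis (ZMod p) (fun i : Fin pb.dim => u i) ⟨n, by rw [hdim]; exact hn⟩
    rw [pb.basis_eq_pow, hgen, ← hl] at h2
    exact h2
  refine ⟨l, ?_⟩
  have hroot : ∀ n, ∑ i ∈ range (f.natDegree + 1), f.coeff i • AdjoinRoot.root f ^ (n + i) = 0 := by
    intro n
    have h3 : aeval (AdjoinRoot.root f) f = 0 := by
      rw [AdjoinRoot.aeval_eq, AdjoinRoot.mk_self]
    rw [aeval_eq_sum_range] at h3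
    have h4 : ∑ i ∈ range (f.natDegree + 1), f.coeff i • AdjoinRoot.root f ^ (n + i) =
        AdjoinRoot.root f ^ n * ∑ i ∈ range (f.natDegree + 1), f.coeff i • AdjoinRoot.root f ^ i := by
      rw [mul_sum]
      refine sum_congr rfl fun i _ => ?_
      rw [mul_smul_comm, pow_add]
    rw [h4, h3, mul_zero]
  have hrec : ∀ n, ∑ i ∈ range (f.natDegree + 1), f.coeff i * l (AdjoinRoot.root f ^ (n + i)) = 0 := by
    intro n
    have h3 := congrArg l (hroot n)
    rw [map_sum, map_zero] at h3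
    rw [← h3]
    refine sum_congr rfl fun i _ => ?_
    rw [map_smul, smul_eq_mul]
  intro n
  induction n using Nat.strong_induction_on with
  | _ n ih =>
    rcases lt_or_ge n f.natDegree with hn | hn
    · exact h1 n hn
    · obtain ⟨m, rfl⟩ : ∃ m, n = m + f.natDegree := ⟨n - f.natDegree, by omega⟩
      have e1 := hrec m
      have e2 := hu m
      rw [sum_range_succ, hf.coeff_natDegree, one_mul] at e1 e2
      have e3 : ∑ i ∈ range f.natDegree, f.coeff i * l (AdjoinRoot.root f ^ (m + i)) =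
          ∑ i ∈ range f.natDegree, f.coeff i * u (m + i) := by
        refine sum_congr rfl fun i hi => ?_
        rw [ih (m + i) (by rw [mem_range] at hi; omega)]
      rw [e3] at e1
      exact add_left_cancel (e1.trans e2.symm)

/-- **Exponential sums over short pieces of linear recurring sequences.** -/
theorem recSum (ε : ℝ) (hε : 0 < ε) (k : ℕ) : ∃ δ : ℝ, 0 < δ ∧ ∃ P₀ : ℕ, ∀ p : ℕ, P₀ ≤ p → ∀ [Fact p.Prime]
    (f : (ZMod p)[X]), Good ε p f → f.natDegree ≤ k → ∀ u : ℕ → ZMod p,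
    (∀ n, ∑ i ∈ range (f.natDegree + 1), f.coeff i * u (n + i) = 0) → (∃ n, u n ≠ 0) →
    ∀ T : ℕ, (p : ℝ) ^ ε ≤ T → ‖∑ n ∈ range T, (ZMod.stdAddChar (u n) : ℂ)‖ ≤ T * (p : ℝ) ^ (-δ) := by
  obtain ⟨δ, hδ, P₀, hP⟩ := geoR ε hε (k + 1) (by omega)
  refine ⟨δ, hδ, P₀ + 10, ?_⟩
  intro p hp _ f hf hk u hu hne T hT
  have hfin := hf.monic.finite_adjoinRoot
  have : Finite (AdjoinRoot f) := Module.finite_of_finite (ZMod p)
  let _ : Fintype (AdjoinRoot f) := Fintype.ofFinite _
  obtain ⟨l, hl⟩ := functional hf.monic u hu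
  obtain ⟨ψ, hψ⟩ : ∃ ψ : AddChar (AdjoinRoot f) ℂ, ∀ x, ψ x = (ZMod.stdAddChar (l x) : ℂ) :=
    ⟨(ZMod.stdAddChar (N := p)).compAddMonoidHom l.toAddMonoidHom, fun x => rfl⟩
  have h1 := hP p (by omega) (AdjoinRoot f) (sized hf.monic hf.sqf (by omega) (k + 1) (by omega))
    (AdjoinRoot.root f) (generic hf) T hT ψ (by
      rintro rfl
      obtain ⟨n, hn⟩ := hne
      apply hn
      have h2 := hψ (AdjoinRoot.root f ^ n)
      rw [hl, AddChar.one_apply] at h2
      have h3 : (ZMod.stdAddChar (u n) : ℂ) = ZMod.stdAddChar (0 : ZMod p) := by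
        rw [← h2, AddChar.map_zero_eq_one]
      exact ZMod.injective_stdAddChar h3)
  refine le_trans (le_of_eq ?_) h1
  congr 1
  refine sum_congr rfl fun n _ => ?_
  rw [hψ, hl]

end Pool.Agent.J4.H80.BGR
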