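import Pool.Agent.J4.H80.BGR.I

set_option autoImplicit false

/-! # Integral linear recurrences modulo almost all primes: determinants -/

namespace Pool.Agent.J4.H80.BGR

open Finset Polynomial

/-- the matrix of the coefficients of the remainders of `q j` modulo `f` -/
noncomputable def mat (f : ℤ[X]) (q : ℕ → ℤ[X]) : Matrix (Fin f.natDegree) (Fin f.natDegree) ℤ :=
  Matrix.of fun i j => (q j %ₘ f).coeff i

lemma rem_eq {f : ℤ[X]} (hf : f.Monic) (hd : 1 ≤ f.natDegree) (g : ℤ[X]) :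
    g %ₘ f = ∑ i : Fin f.natDegree, C ((g %ₘ f).coeff i) * X ^ (i : ℕ) := by
  have h1 : (g %ₘ f).natDegree < f.natDegree := natDegree_modByMonic_lt g hf (by
    rintro rfl
    simp at hd)
  conv_lhs => rw [as_sum_range_C_mul_X_pow' (g %ₘ f) h1]
  rw [← Fin.sum_univ_eq_sum_range (fun i => C ((g %ₘ f).coeff i) * X ^ i) f.natDegree]

lemma rem_sum {f : ℤ[X]} {d : ℕ} (c : Fin d → ℤ) (q : ℕ → ℤ[X]) :
    (∑ j : Fin d, C (c j) * q j) %ₘ f = ∑ j : Fin d, C (c j) * (q j %ₘ f) := by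
  have h1 := map_sum (modByMonicHom f) (fun j : Fin d => C (c j) * q j) univ
  rw [modByMonicHom_apply] at h1
  rw [h1]
  refine sum_congr rfl fun j _ => ?_
  rw [modByMonicHom_apply, ← smul_eq_C_mul, ← smul_eq_C_mul, smul_modByMonic]

/-- a vanishing determinant gives a divisibility -/
lemma det_zero {f : ℤ[X]} (hf : f.Monic) (hd : 1 ≤ f.natDegree) (q : ℕ → ℤ[X]) (h : (mat f q).det = 0) :
    ∃ c : Fin f.natDegree → ℤ, c ≠ 0 ∧ f ∣ ∑ j : Fin f.natDegree, C (c j) * q j := by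
  obtain ⟨c, hc0, hc⟩ := Matrix.exists_mulVec_eq_zero_iff.2 h
  refine ⟨c, hc0, ?_⟩
  rw [← modByMonic_eq_zero_iff_dvd hf, rem_eq hf hd]
  refine sum_eq_zero fun i _ => ?_
  have h1 : ((∑ j : Fin f.natDegree, C (c j) * q j) %ₘ f).coeff i = 0 := by
    rw [rem_sum, finsetSum_coeff]
    have h2 := congrFun hc i
    rw [Matrix.mulVec, dotProduct, Pi.zero_apply] at h2
    rw [← h2]
    refine sum_congr rfl fun j _ => ?_
    rw [coeff_C_mul, mul_comm]
    rfl
  rw [h1, C_0, zero_mul]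

section prime

variable {p : ℕ} [Fact p.Prime]

/-- the reduction modulo `p` -/
noncomputable abbrev red (p : ℕ) (f : ℤ[X]) : (ZMod p)[X] := f.map (Int.castRingHom (ZMod p))

/-- if `p` does not divide the determinant then the classes of the `q j` span -/
lemma span_of_det {f : ℤ[X]} (hf : f.Monic) (hd : 1 ≤ f.natDegree) (q : ℕ → ℤ[X])
    (h : ((mat f q).det : ZMod p) ≠ 0) (x : AdjoinRoot (red p f)) :
    ∃ c : Fin f.natDegree → ZMod p, x = ∑ j, c j • AdjoinRoot.mk (red p f) (red p (q j)) := by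
  have hfm : (red p f).Monic := hf.map _
  have hdeg : (red p f).natDegree = f.natDegree := hf.natDegree_map _
  obtain ⟨M, hM⟩ : ∃ M : Matrix (Fin f.natDegree) (Fin f.natDegree) (ZMod p),
      M = (mat f q).map (Int.castRingHom (ZMod p)) := ⟨_, rfl⟩
  have hMdet : IsUnit M.det := by
    rw [hM, ← RingHom.mapMatrix_apply, ← RingHom.map_det, isUnit_iff_ne_zero]
    exact h
  -- the classes of the `q j`
  have hq : ∀ j : Fin f.natDegree, AdjoinRoot.mk (red p f) (red p (q j)) =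
      ∑ i, M i j • AdjoinRoot.root (red p f) ^ (i : ℕ) := by
    intro j
    have h1 := modByMonic_add_div (q j) f
    have h2 : AdjoinRoot.mk (red p f) (red p (q j)) = AdjoinRoot.mk (red p f) (red p (q j %ₘ f)) := by
      conv_lhs => rw [← h1]
      unfold red
      rw [Polynomial.map_add, Polynomial.map_mul, map_add, map_mul, AdjoinRoot.mk_self, zero_mul, add_zero]
    rw [h2, rem_eq hf hd (q j)]
    unfold red
    rw [Polynomial.map_sum, map_sum]
    refine sum_congr rfl fun i _ => ?_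
    rw [Polynomial.map_mul, Polynomial.map_pow, map_X, map_C, map_mul, map_pow, AdjoinRoot.mk_C, AdjoinRoot.mk_X,
      Algebra.smul_def, hM]
    rfl
  -- `x` in terms of the powers of the root
  obtain ⟨b, hb⟩ : ∃ b : Fin f.natDegree → ZMod p, x = ∑ i, b i • AdjoinRoot.root (red p f) ^ (i : ℕ) := by
    obtain ⟨pb, hpb⟩ : ∃ pb, pb = AdjoinRoot.powerBasis' hfm := ⟨_, rfl⟩
    have hdim : pb.dim = f.natDegree := by rw [hpb, AdjoinRoot.powerBasis'_dim hfm, hdeg]
    have hgen : pb.gen = AdjoinRoot.root (red p f) := by rw [hpb]; exact AdjoinRoot.powerBasis'_gen hfm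
    refine ⟨fun i => pb.basis.repr x (finCongr hdim.symm i), ?_⟩
    have h1 := pb.basis.sum_repr x
    conv_lhs => rw [← h1]
    rw [← (finCongr hdim.symm).sum_comp]
    refine sum_congr rfl fun i _ => ?_
    rw [pb.basis_eq_pow, hgen]
    rfl
  refine ⟨M⁻¹.mulVec b, ?_⟩
  have h1 : M.mulVec (M⁻¹.mulVec b) = b := by
    rw [Matrix.mulVec_mulVec, Matrix.mul_nonsing_inv M hMdet, Matrix.one_mulVec]
  calc x = ∑ i, (M.mulVec (M⁻¹.mulVec b)) i • AdjoinRoot.root (red p f) ^ (i : ℕ) := by rw [h1]; exact hb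
    _ = ∑ i, ∑ j, (M i j * (M⁻¹.mulVec b) j) • AdjoinRoot.root (red p f) ^ (i : ℕ) := by
        refine sum_congr rfl fun i _ => ?_
        rw [Matrix.mulVec, dotProduct, sum_smul]
    _ = ∑ j, ∑ i, (M i j * (M⁻¹.mulVec b) j) • AdjoinRoot.root (red p f) ^ (i : ℕ) := sum_comm
    _ = _ := by
        refine sum_congr rfl fun j _ => ?_
        rw [hq j, smul_sum]
        refine sum_congr rfl fun i _ => ?_
        rw [smul_smul, mul_comm]

/-- if `p` does not divide the determinant of the multiplication by `h` then `h` is a unit -/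
lemma unit_of_det {f : ℤ[X]} (hf : f.Monic) (hd : 1 ≤ f.natDegree) (h : ℤ[X])
    (hdet : ((mat f (fun j => h * X ^ j)).det : ZMod p) ≠ 0) :
    IsUnit (AdjoinRoot.mk (red p f) (red p h)) := by
  obtain ⟨c, hc⟩ := span_of_det hf hd _ hdet 1
  refine IsUnit.of_mul_eq_one (∑ j, c j • AdjoinRoot.mk (red p f) (red p (X ^ (j : ℕ)))) ?_
  rw [hc, mul_sum]
  refine sum_congr rfl fun j _ => ?_
  rw [mul_smul_comm, ← map_mul]
  unfold red
  rw [← Polynomial.map_mul]

lemma sqf_of_det {f : ℤ[X]} (hf : f.Monic) (hd : 1 ≤ f.natDegree)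
    (hdet : ((mat f (fun j => derivative f * X ^ j)).det : ZMod p) ≠ 0) : Squarefree (red p f) := by
  have h1 := unit_of_det hf hd _ hdet
  rw [isUnit_iff_exists_inv] at h1
  obtain ⟨b, hb⟩ := h1
  obtain ⟨g, rfl⟩ := AdjoinRoot.mk_surjective b
  rw [← map_mul, ← map_one (AdjoinRoot.mk (red p f)), AdjoinRoot.mk_eq_mk] at hb
  obtain ⟨e, he⟩ := hb
  apply Separable.squarefree
  refine ⟨-e, g, ?_⟩
  unfold red at he ⊢
  rw [derivative_map]
  linear_combination he

lemma generic_of_det {ε : ℝ} {f : ℤ[X]} (hf : f.Monic) (hd : 1 ≤ f.natDegree)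
    (h0 : ((mat f (fun j => X * X ^ j)).det : ZMod p) ≠ 0)
    (h1 : ∀ t : ℕ, 1 ≤ t → (t : ℝ) < (p : ℝ) ^ ε → ((mat f (fun j => (X ^ t - 1) * X ^ j)).det : ZMod p) ≠ 0)
    (h2 : ∀ t : ℕ, 1 ≤ t → (t : ℝ) < (p : ℝ) ^ ε → ((mat f (fun j => (X ^ t) ^ j)).det : ZMod p) ≠ 0) :
    Generic ε p (AdjoinRoot.root (red p f)) := by
  refine ⟨?_, ?_, ?_⟩
  · have := unit_of_det hf hd X h0
    unfold red at this ⊢
    rwa [map_X, AdjoinRoot.mk_X] at this
  · intro t ht1 ht2
    have := unit_of_det hf hd _ (h1 t ht1 ht2)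
    unfold red at this ⊢
    rwa [Polynomial.map_sub, Polynomial.map_pow, map_X, Polynomial.map_one, map_sub, map_pow, AdjoinRoot.mk_X,
      map_one] at this
  · intro t ht1 ht2 S hS
    rw [eq_top_iff]
    intro x _
    obtain ⟨c, hc⟩ := span_of_det hf hd _ (h2 t ht1 ht2) x
    rw [hc]
    refine S.sum_mem fun i _ => ?_
    rw [Algebra.smul_def]
    refine S.mul_mem ?_ ?_
    · have h3 : algebraMap (ZMod p) (AdjoinRoot (red p f)) (c i) = ((c i).val : AdjoinRoot (red p f)) := by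
        conv_lhs => rw [← ZMod.natCast_zmod_val (c i)]
        rw [map_natCast]
      rw [h3]
      exact natCast_mem S _
    · have h3 : AdjoinRoot.mk (red p f) (red p ((X ^ t) ^ (i : ℕ))) = (AdjoinRoot.root (red p f) ^ t) ^ (i : ℕ) := by
        unfold red
        rw [Polynomial.map_pow, Polynomial.map_pow, map_X, map_pow, map_pow, AdjoinRoot.mk_X]
      rw [h3]
      exact S.pow_mem hS _

end prime

end Pool.Agent.J4.H80.BGR
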