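import Pool.Agent.J4.H80.BGR.J

set_option autoImplicit false

/-! # Integral linear recurrences modulo almost all primes -/

namespace Pool.Agent.J4.H80.BGR

open Finset Polynomial

/-- `f` is monic of positive degree, its complex roots are simple, different from zero and not roots of unity, and the
quotients of different roots are not roots of unity -/
structure Nondeg (f : ℤ[X]) : Prop where
  monic : f.Monic
  pos : 1 ≤ f.natDegree
  sep : (f.map (Int.castRingHom ℂ)).Separable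
  ne_zero : ∀ z : ℂ, aeval z f = 0 → z ≠ 0
  pow_ne_one : ∀ z : ℂ, aeval z f = 0 → ∀ t : ℕ, 1 ≤ t → z ^ t ≠ 1
  pow_ne : ∀ z w : ℂ, aeval z f = 0 → aeval w f = 0 → z ≠ w → ∀ t : ℕ, 1 ≤ t → z ^ t ≠ w ^ t

lemma many_roots {f : ℤ[X]} (hf : Nondeg f) (φ : ℂ → ℂ)
    (hφ : ∀ z w : ℂ, aeval z f = 0 → aeval w f = 0 → z ≠ w → φ z ≠ φ w) (c : Fin f.natDegree → ℤ)
    (h : ∀ z : ℂ, aeval z f = 0 → ∑ j : Fin f.natDegree, (c j : ℂ) * φ z ^ (j : ℕ) = 0) : c = 0 := by
  classical
  obtain ⟨F, hF⟩ : ∃ F : ℂ[X], F = f.map (Int.castRingHom ℂ) := ⟨_, rfl⟩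
  have hFsep : F.Separable := by rw [hF]; exact hf.sep
  have hFd : F.natDegree = f.natDegree := by rw [hF]; exact hf.monic.natDegree_map _
  have hF0 : F ≠ 0 := by rw [hF]; exact (hf.monic.map _).ne_zero
  obtain ⟨Z, hZ⟩ : ∃ Z : Finset ℂ, Z = F.roots.toFinset := ⟨_, rfl⟩
  have hZm : ∀ z ∈ Z, aeval z f = 0 := by
    intro z hz
    rw [hZ, Multiset.mem_toFinset, mem_roots hF0, hF, IsRoot.def, eval_map] at hz
    exact hz
  have hZc : Z.card = f.natDegree := by
    rw [hZ, Multiset.toFinset_card_of_nodup (nodup_roots hFsep), ← hFd]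
    exact (IsAlgClosed.splits F).natDegree_eq_card_roots.symm
  obtain ⟨y, hy⟩ : ∃ y : ℂ[X], y = ∑ j : Fin f.natDegree, C (c j : ℂ) * X ^ (j : ℕ) := ⟨_, rfl⟩
  have hy0 : y = 0 := by
    by_contra hne
    have h1 : Z.image φ ⊆ y.roots.toFinset := by
      intro w hw
      rw [mem_image] at hw
      obtain ⟨z, hz, rfl⟩ := hw
      rw [Multiset.mem_toFinset, mem_roots hne, IsRoot.def, hy, eval_finsetSum]
      rw [← h z (hZm z hz)]
      refine sum_congr rfl fun j _ => ?_
      rw [eval_mul, eval_C, eval_pow, eval_X]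
    have h2 : (Z.image φ).card = f.natDegree := by
      rw [card_image_of_injOn, hZc]
      intro z hz w hw hzw
      by_contra hne'
      exact hφ z w (hZm z hz) (hZm w hw) hne' hzw
    have h3 := card_le_card h1
    have h4 : y.roots.toFinset.card ≤ y.natDegree := (Multiset.toFinset_card_le _).trans (card_roots' y)
    have h5 : y.natDegree < f.natDegree := by
      rw [natDegree_lt_iff_degree_lt hne, hy]
      exact degree_sum_fin_lt _
    omega
  funext i
  have h2 : y.coeff i = (c i : ℂ) := by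
    rw [hy, finsetSum_coeff]
    simp only [coeff_C_mul_X_pow]
    rw [sum_eq_single i]
    · rw [if_pos rfl]
    · intro j _ hj
      rw [if_neg]
      intro h
      exact hj (Fin.ext h.symm)
    · intro h
      exact absurd (mem_univ i) h
  rw [hy0, coeff_zero] at h2
  rw [Pi.zero_apply]
  exact_mod_cast h2.symm

lemma det_ne_of_mul {f : ℤ[X]} (hf : Nondeg f) (h : ℤ[X]) (hh : ∀ z : ℂ, aeval z f = 0 → aeval z h ≠ 0) :
    (mat f (fun j => h * X ^ j)).det ≠ 0 := by
  intro hdet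
  obtain ⟨c, hc0, hc⟩ := det_zero hf.monic hf.pos _ hdet
  apply hc0
  refine many_roots hf id (fun z w _ _ hzw => hzw) c fun z hz => ?_
  obtain ⟨g, hg⟩ := hc
  have h1 := congrArg (aeval z) hg
  rw [map_mul, hz, zero_mul, map_sum] at h1
  have h2 : ∑ j : Fin f.natDegree, aeval z (C (c j) * (h * X ^ (j : ℕ))) =
      aeval z h * ∑ j : Fin f.natDegree, (c j : ℂ) * id z ^ (j : ℕ) := by
    rw [mul_sum]
    refine sum_congr rfl fun j _ => ?_
    rw [map_mul, map_mul, map_pow, aeval_X, aeval_C, id]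
    simp only [algebraMap_int_eq, eq_intCast]
    ring
  rw [h2] at h1
  exact (mul_eq_zero.1 h1).resolve_left (hh z hz)

lemma det_ne_of_pow {f : ℤ[X]} (hf : Nondeg f) (t : ℕ) (ht : 1 ≤ t) :
    (mat f (fun j => (X ^ t) ^ j)).det ≠ 0 := by
  intro hdet
  obtain ⟨c, hc0, hc⟩ := det_zero hf.monic hf.pos _ hdet
  apply hc0
  refine many_roots hf (fun z => z ^ t) (fun z w hz hw hzw => hf.pow_ne z w hz hw hzw t ht) c fun z hz => ?_
  obtain ⟨g, hg⟩ := hc
  have h1 := congrArg (aeval z) hg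
  rw [map_mul, hz, zero_mul, map_sum] at h1
  rw [← h1]
  refine sum_congr rfl fun j _ => ?_
  rw [map_mul, map_pow, map_pow, aeval_X, aeval_C]
  simp only [algebraMap_int_eq, eq_intCast]

/-- the remainders of the powers of `X` -/
lemma rem_succ {f : ℤ[X]} (hf : f.Monic) (hd : 1 ≤ f.natDegree) (n : ℕ) :
    X ^ (n + 1) %ₘ f = X * (X ^ n %ₘ f) - C ((X ^ n %ₘ f).coeff (f.natDegree - 1)) * f := by
  obtain ⟨r, hr⟩ : ∃ r, r = X ^ n %ₘ f := ⟨_, rfl⟩
  obtain ⟨l, hl⟩ : ∃ l, l = r.coeff (f.natDegree - 1) := ⟨_, rfl⟩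
  rw [← hr, ← hl]
  have hrd : r.natDegree < f.natDegree := by
    rw [hr]
    exact natDegree_modByMonic_lt _ hf (by
      rintro rfl
      simp at hd)
  have h1 : r + f * (X ^ n /ₘ f) = X ^ n := by rw [hr]; exact modByMonic_add_div _ _
  refine (div_modByMonic_unique (X * (X ^ n /ₘ f) + C l) (X * r - C l * f) hf ⟨?_, ?_⟩).2
  · linear_combination X * h1
  · rw [degree_eq_natDegree hf.ne_zero, degree_lt_iff_coeff_zero]
    intro m hm
    obtain ⟨m', rfl⟩ : ∃ m', m = m' + 1 := ⟨m - 1, by omega⟩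
    rw [coeff_sub, coeff_X_mul, coeff_C_mul]
    rcases Nat.lt_or_ge f.natDegree (m' + 1) with h2 | h2
    · rw [coeff_eq_zero_of_natDegree_lt h2, coeff_eq_zero_of_natDegree_lt (by omega : r.natDegree < m')]
      ring
    · have h3 : m' + 1 = f.natDegree := le_antisymm h2 hm
      rw [h3, hf.coeff_natDegree, hl]
      have h4 : f.natDegree - 1 = m' := by omega
      rw [h4]
      ring

lemma rem_bound {f : ℤ[X]} (hf : f.Monic) (hd : 1 ≤ f.natDegree) {B : ℤ} (hB : ∀ i, 1 + |f.coeff i| ≤ B) (n i : ℕ) :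
    |(X ^ n %ₘ f).coeff i| ≤ B ^ n := by
  have hB1 : 1 ≤ B := by
    have := hB 0
    have := abs_nonneg (f.coeff 0)
    linarith
  induction n generalizing i with
  | zero =>
    have h1 : (X ^ 0 : ℤ[X]) %ₘ f = 1 := by
      rw [pow_zero]
      rw [modByMonic_eq_self_iff hf, degree_one, degree_eq_natDegree hf.ne_zero]
      exact_mod_cast hd
    rw [h1, pow_zero, coeff_one]
    split_ifs <;> simp
  | succ n ih =>
    rw [rem_succ hf hd, coeff_sub, coeff_C_mul]
    have h1 : |(X * (X ^ n %ₘ f)).coeff i| ≤ B ^ n := by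
      rcases i with _ | i
      · rw [coeff_X_mul_zero, abs_zero]
        positivity
      · rw [coeff_X_mul]
        exact ih i
    calc |(X * (X ^ n %ₘ f)).coeff i - (X ^ n %ₘ f).coeff (f.natDegree - 1) * f.coeff i|
        ≤ |(X * (X ^ n %ₘ f)).coeff i| + |(X ^ n %ₘ f).coeff (f.natDegree - 1) * f.coeff i| := abs_sub _ _
      _ ≤ B ^ n + B ^ n * |f.coeff i| := by
          rw [abs_mul]
          exact add_le_add h1 (mul_le_mul_of_nonneg_right (ih _) (abs_nonneg _))
      _ = B ^ n * (1 + |f.coeff i|) := by ring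
      _ ≤ B ^ n * B := mul_le_mul_of_nonneg_left (hB i) (by positivity)
      _ = _ := by rw [pow_succ]

lemma num1 (k b F t : ℕ) (hF : k.factorial ≤ 2 ^ F) (ht : 1 ≤ t) :
    k.factorial * 2 ^ ((1 + b * (t + k)) * k) ≤
      2 ^ ((F + (1 + 2 * b * (k + 1)) * (k + 1) + b * (k + 1) * (k + 1)) * t) := by
  calc k.factorial * 2 ^ ((1 + b * (t + k)) * k) ≤ 2 ^ F * 2 ^ ((1 + b * (t + k)) * k) :=
        Nat.mul_le_mul_right _ hF
    _ = 2 ^ (F + (1 + b * (t + k)) * k) := by rw [pow_add]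
    _ ≤ _ := by
        apply Nat.pow_le_pow_right (by norm_num)
        have e1 : (1 + b * (t + k)) * k ≤ ((1 + 2 * b * (k + 1)) * (k + 1)) * t := by
          have e2 : 1 + b * (t + k) ≤ (1 + 2 * b * (k + 1)) * t := by
            nlinarith [Nat.zero_le b, Nat.zero_le k, Nat.zero_le (b * k), Nat.zero_le (b * k * (t - 1)), ht,
              Nat.mul_le_mul_left (b * k) ht]
          calc (1 + b * (t + k)) * k ≤ ((1 + 2 * b * (k + 1)) * t) * (k + 1) := Nat.mul_le_mul e2 (by omega)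
            _ = _ := by ring
        have e3 : F ≤ F * t := Nat.le_mul_of_pos_right F ht
        calc F + (1 + b * (t + k)) * k ≤ F * t + ((1 + 2 * b * (k + 1)) * (k + 1)) * t := add_le_add e3 e1
          _ ≤ _ := by
              rw [← add_mul]
              exact Nat.mul_le_mul_right _ (by omega)

lemma num2 (k b F t : ℕ) (hF : k.factorial ≤ 2 ^ F) (ht : 1 ≤ t) :
    k.factorial * 2 ^ ((b * (t * k)) * k) ≤
      2 ^ ((F + (1 + 2 * b * (k + 1)) * (k + 1) + b * (k + 1) * (k + 1)) * t) := by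
  calc k.factorial * 2 ^ ((b * (t * k)) * k) ≤ 2 ^ F * 2 ^ ((b * (t * k)) * k) :=
        Nat.mul_le_mul_right _ hF
    _ = 2 ^ (F + (b * (t * k)) * k) := by rw [pow_add]
    _ ≤ _ := by
        apply Nat.pow_le_pow_right (by norm_num)
        have e1 : (b * (t * k)) * k ≤ (b * (k + 1) * (k + 1)) * t := by
          calc (b * (t * k)) * k = (b * k * k) * t := by ring
            _ ≤ _ := by
                apply Nat.mul_le_mul_right
                exact Nat.mul_le_mul (Nat.mul_le_mul_left _ (by omega)) (by omega)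
        have e3 : F ≤ F * t := Nat.le_mul_of_pos_right F ht
        calc F + (b * (t * k)) * k ≤ F * t + (b * (k + 1) * (k + 1)) * t := add_le_add e3 e1
          _ ≤ _ := by
              rw [← add_mul]
              exact Nat.mul_le_mul_right _ (by omega)

lemma det_bound {f : ℤ[X]} (hf : f.Monic) (hd : 1 ≤ f.natDegree) :
    ∃ E : ℕ, ∀ t : ℕ, 1 ≤ t → (mat f (fun j => (X ^ t - 1) * X ^ j)).det.natAbs ≤ 2 ^ (E * t) ∧
      (mat f (fun j => (X ^ t) ^ j)).det.natAbs ≤ 2 ^ (E * t) := by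
  obtain ⟨b, hb⟩ : ∃ b : ℕ, ∀ i, 1 + |f.coeff i| ≤ (2 : ℤ) ^ b := by
    obtain ⟨s, hs⟩ : ∃ s : ℕ, s = ∑ i ∈ range (f.natDegree + 1), (f.coeff i).natAbs := ⟨_, rfl⟩
    refine ⟨s + 1, fun i => ?_⟩
    have h1 : (f.coeff i).natAbs ≤ s := by
      rcases Nat.lt_or_ge i (f.natDegree + 1) with h | h
      · rw [hs]
        exact single_le_sum (f := fun i => (f.coeff i).natAbs) (fun _ _ => Nat.zero_le _) (mem_range.2 h)
      · rw [coeff_eq_zero_of_natDegree_lt (by omega), Int.natAbs_zero]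
        exact Nat.zero_le _
    have h2 : s + 1 ≤ 2 ^ (s + 1) := (Nat.lt_two_pow_self).le
    have h3 : 1 + (f.coeff i).natAbs ≤ 2 ^ (s + 1) := by omega
    rw [Int.abs_eq_natAbs]
    exact_mod_cast h3
  obtain ⟨F, hF⟩ : ∃ F : ℕ, f.natDegree.factorial ≤ 2 ^ F := ⟨f.natDegree.factorial, (Nat.lt_two_pow_self).le⟩
  refine ⟨F + (1 + 2 * b * (f.natDegree + 1)) * (f.natDegree + 1) + b * (f.natDegree + 1) * (f.natDegree + 1),
    fun t ht => ⟨?_, ?_⟩⟩
  · have h1 : ∀ i j : Fin f.natDegree, AbsoluteValue.abs ((mat f (fun j => (X ^ t - 1) * X ^ j)) i j) ≤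
        (2 : ℤ) ^ (1 + b * (t + f.natDegree)) := by
      intro i j
      have h2 : (mat f (fun j => (X ^ t - 1) * X ^ j)) i j = (X ^ (t + (j : ℕ)) %ₘ f).coeff i - (X ^ (j : ℕ) %ₘ f).coeff i := by
        show (((X ^ t - 1) * X ^ (j : ℕ)) %ₘ f).coeff i = _
        rw [sub_mul, ← pow_add, one_mul, sub_modByMonic, coeff_sub]
      rw [h2]
      have h3 := rem_bound hf hd hb (t + j) i
      have h4 := rem_bound hf hd hb j i
      have hj : (j : ℕ) < f.natDegree := j.2
      have h5 : ((2 : ℤ) ^ b) ^ (t + (j : ℕ)) ≤ 2 ^ (b * (t + f.natDegree)) := by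
        rw [← pow_mul]
        exact pow_le_pow_right₀ (by norm_num) (Nat.mul_le_mul_left _ (by omega))
      have h6 : ((2 : ℤ) ^ b) ^ (j : ℕ) ≤ 2 ^ (b * (t + f.natDegree)) := by
        rw [← pow_mul]
        exact pow_le_pow_right₀ (by norm_num) (Nat.mul_le_mul_left _ (by omega))
      calc AbsoluteValue.abs ((X ^ (t + (j : ℕ)) %ₘ f).coeff i - (X ^ (j : ℕ) %ₘ f).coeff i)
          ≤ |(X ^ (t + (j : ℕ)) %ₘ f).coeff i| + |(X ^ (j : ℕ) %ₘ f).coeff i| := abs_sub _ _
        _ ≤ 2 ^ (b * (t + f.natDegree)) + 2 ^ (b * (t + f.natDegree)) := add_le_add (h3.trans h5) (h4.trans h6)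
        _ = _ := by rw [pow_add]; ring
    have h2 := Matrix.det_le h1
    rw [Fintype.card_fin, nsmul_eq_mul, ← pow_mul] at h2
    have h3 : (((mat f (fun j => (X ^ t - 1) * X ^ j)).det.natAbs : ℕ) : ℤ) ≤
        ((f.natDegree.factorial * 2 ^ ((1 + b * (t + f.natDegree)) * f.natDegree) : ℕ) : ℤ) := by
      rw [Int.natCast_natAbs]
      push_cast
      exact h2
    have h4 : (mat f (fun j => (X ^ t - 1) * X ^ j)).det.natAbs ≤
        f.natDegree.factorial * 2 ^ ((1 + b * (t + f.natDegree)) * f.natDegree) := by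
      exact_mod_cast h3
    exact h4.trans (num1 _ b F t hF ht)
  · have h1 : ∀ i j : Fin f.natDegree, AbsoluteValue.abs ((mat f (fun j => (X ^ t) ^ j)) i j) ≤
        (2 : ℤ) ^ (b * (t * f.natDegree)) := by
      intro i j
      have h2 : (mat f (fun j => (X ^ t) ^ j)) i j = (X ^ (t * (j : ℕ)) %ₘ f).coeff i := by
        show (((X ^ t) ^ (j : ℕ)) %ₘ f).coeff i = _
        rw [← pow_mul]
      rw [h2]
      have h3 := rem_bound hf hd hb (t * j) i
      have hj : (j : ℕ) < f.natDegree := j.2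
      refine h3.trans ?_
      rw [← pow_mul]
      exact pow_le_pow_right₀ (by norm_num) (Nat.mul_le_mul_left _ (Nat.mul_le_mul_left _ hj.le))
    have h2 := Matrix.det_le h1
    rw [Fintype.card_fin, nsmul_eq_mul, ← pow_mul] at h2
    have h3 : (((mat f (fun j => (X ^ t) ^ j)).det.natAbs : ℕ) : ℤ) ≤
        ((f.natDegree.factorial * 2 ^ ((b * (t * f.natDegree)) * f.natDegree) : ℕ) : ℤ) := by
      rw [Int.natCast_natAbs]
      push_cast
      exact h2
    have h4 : (mat f (fun j => (X ^ t) ^ j)).det.natAbs ≤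
        f.natDegree.factorial * 2 ^ ((b * (t * f.natDegree)) * f.natDegree) := by
      exact_mod_cast h3
    exact h4.trans (num2 _ b F t hF ht)

lemma card_pf_le {m : ℤ} (hm : m ≠ 0) {e : ℕ} (h : m.natAbs ≤ 2 ^ e) : m.natAbs.primeFactors.card ≤ e := by
  have h1 : 2 ^ m.natAbs.primeFactors.card ≤ m.natAbs := by
    calc 2 ^ m.natAbs.primeFactors.card = ∏ _p ∈ m.natAbs.primeFactors, 2 := by rw [prod_const]
      _ ≤ ∏ p ∈ m.natAbs.primeFactors, p := prod_le_prod' fun p hp => (Nat.prime_of_mem_primeFactors hp).two_le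
      _ ≤ m.natAbs := Nat.le_of_dvd (Int.natAbs_pos.2 hm) (Nat.prod_primeFactors_dvd _)
  exact (Nat.pow_le_pow_iff_right (by norm_num)).1 (h1.trans h)

lemma mem_pf {p : ℕ} [Fact p.Prime] {m : ℤ} (hm : m ≠ 0) (h : (m : ZMod p) = 0) : p ∈ m.natAbs.primeFactors := by
  rw [Nat.mem_primeFactors]
  refine ⟨Fact.out, ?_, Int.natAbs_ne_zero.2 hm⟩
  rw [ZMod.intCast_zmod_eq_zero_iff_dvd] at h
  exact Int.natCast_dvd.1 h

/-- **The condition holds modulo almost all primes.** -/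
theorem almost (f : ℤ[X]) (hf : Nondeg f) (ε : ℝ) (hε : 0 < ε) : ∃ c : ℝ, ∀ Y : ℕ, 1 ≤ Y → ∀ Q : Finset ℕ,
    (∀ p ∈ Q, p.Prime ∧ p ≤ Y ∧ ∀ _ : Fact p.Prime,
      ¬ (Squarefree (red p f) ∧ Generic ε p (AdjoinRoot.root (red p f)))) →
    (Q.card : ℝ) ≤ c * (Y : ℝ) ^ (2 * ε) := by
  classical
  obtain ⟨E, hE⟩ := det_bound hf.monic hf.pos
  obtain ⟨m1, hm1⟩ : ∃ m1 : ℤ, m1 = (mat f (fun j => derivative f * X ^ j)).det := ⟨_, rfl⟩
  obtain ⟨m2, hm2⟩ : ∃ m2 : ℤ, m2 = (mat f (fun j => X * X ^ j)).det := ⟨_, rfl⟩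
  have h1 : m1 ≠ 0 := by
    rw [hm1]
    refine det_ne_of_mul hf _ fun z hz => ?_
    have h2 : eval z (f.map (Int.castRingHom ℂ)) = 0 := by
      rw [eval_map]
      exact hz
    have h3 := hf.sep.eval₂_derivative_ne_zero (RingHom.id ℂ) (x := z) (by
      rw [← eval_map, Polynomial.map_id]
      exact h2)
    rw [← eval_map, Polynomial.map_id, derivative_map, eval_map] at h3
    exact h3
  have h2 : m2 ≠ 0 := by
    rw [hm2]
    refine det_ne_of_mul hf _ fun z hz => ?_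
    rw [aeval_X]
    exact hf.ne_zero z hz
  obtain ⟨N, hN⟩ : ∃ N : ℕ → ℤ, N = fun t => (mat f (fun j => (X ^ t - 1) * X ^ j)).det := ⟨_, rfl⟩
  obtain ⟨D, hD⟩ : ∃ D : ℕ → ℤ, D = fun t => (mat f (fun j => (X ^ t) ^ j)).det := ⟨_, rfl⟩
  have hN0 : ∀ t, 1 ≤ t → N t ≠ 0 := by
    intro t ht
    rw [hN]
    refine det_ne_of_mul hf _ fun z hz => ?_
    rw [map_sub, map_pow, aeval_X, map_one]
    exact sub_ne_zero.2 (hf.pow_ne_one z hz t ht)
  have hD0 : ∀ t, 1 ≤ t → D t ≠ 0 := by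
    intro t ht
    rw [hD]
    exact det_ne_of_pow hf t ht
  refine ⟨m1.natAbs.primeFactors.card + m2.natAbs.primeFactors.card + 2 * E, ?_⟩
  intro Y hY Q hQ
  have hY1 : (1 : ℝ) ≤ Y := by exact_mod_cast hY
  obtain ⟨T, hT⟩ : ∃ T : ℕ, T = ⌊(Y : ℝ) ^ ε⌋₊ := ⟨_, rfl⟩
  have hTle : (T : ℝ) ≤ (Y : ℝ) ^ ε := by rw [hT]; exact Nat.floor_le (by positivity)
  have hsub : Q ⊆ m1.natAbs.primeFactors ∪ m2.natAbs.primeFactors ∪
      ((Icc 1 T).biUnion fun t => (N t).natAbs.primeFactors ∪ (D t).natAbs.primeFactors) := by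
    intro p hp
    obtain ⟨hpp, hpY, hbad⟩ := hQ p hp
    have hF : Fact p.Prime := ⟨hpp⟩
    have hbad' := hbad hF
    by_contra hcon
    rw [mem_union, mem_union, not_or, not_or, mem_biUnion] at hcon
    push Not at hcon
    obtain ⟨⟨c1, c2⟩, c3⟩ := hcon
    have hpε : ∀ t : ℕ, (t : ℝ) < (p : ℝ) ^ ε → t ≤ T := by
      intro t ht
      rw [hT]
      apply Nat.le_floor
      refine ht.le.trans ?_
      exact Real.rpow_le_rpow (by positivity) (by exact_mod_cast hpY) hε.le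
    apply hbad'
    refine ⟨sqf_of_det hf.monic hf.pos ?_, generic_of_det hf.monic hf.pos ?_ ?_ ?_⟩
    · intro h
      rw [← hm1] at h
      exact c1 (mem_pf h1 h)
    · intro h
      rw [← hm2] at h
      exact c2 (mem_pf h2 h)
    · intro t ht1 ht2 h
      have h3 := c3 t (mem_Icc.2 ⟨ht1, hpε t ht2⟩)
      rw [mem_union, not_or] at h3
      apply h3.1
      apply mem_pf (hN0 t ht1)
      rw [hN]
      exact h
    · intro t ht1 ht2 h
      have h3 := c3 t (mem_Icc.2 ⟨ht1, hpε t ht2⟩)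
      rw [mem_union, not_or] at h3
      apply h3.2
      apply mem_pf (hD0 t ht1)
      rw [hD]
      exact h
  have hcard : Q.card ≤ m1.natAbs.primeFactors.card + m2.natAbs.primeFactors.card + 2 * E * T * T := by
    refine (card_le_card hsub).trans ((card_union_le _ _).trans (add_le_add (card_union_le _ _) ?_))
    refine card_biUnion_le.trans ?_
    calc ∑ t ∈ Icc 1 T, ((N t).natAbs.primeFactors ∪ (D t).natAbs.primeFactors).card
        ≤ ∑ t ∈ Icc 1 T, 2 * E * T := by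
          refine sum_le_sum fun t ht => ?_
          rw [mem_Icc] at ht
          refine (card_union_le _ _).trans ?_
          have e1 := card_pf_le (hN0 t ht.1) (e := E * t) (by rw [hN]; exact (hE t ht.1).1)
          have e2 := card_pf_le (hD0 t ht.1) (e := E * t) (by rw [hD]; exact (hE t ht.1).2)
          have e3 : E * t ≤ E * T := Nat.mul_le_mul_left _ ht.2
          have e4 : 2 * E * T = E * T + E * T := by ring
          omega
      _ = 2 * E * T * T := by
          rw [sum_const, Nat.card_Icc, smul_eq_mul]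
          simp only [add_tsub_cancel_right]
          ring
  have h3 : (1 : ℝ) ≤ (Y : ℝ) ^ (2 * ε) := Real.one_le_rpow hY1 (by positivity)
  have h4 : (T : ℝ) * T ≤ (Y : ℝ) ^ (2 * ε) := by
    calc (T : ℝ) * T ≤ (Y : ℝ) ^ ε * (Y : ℝ) ^ ε := mul_le_mul hTle hTle (Nat.cast_nonneg _) (by positivity)
      _ = (Y : ℝ) ^ (2 * ε) := by
          rw [← Real.rpow_add (by linarith)]
          congr 1
          ring
  have h5 : (Q.card : ℝ) ≤ m1.natAbs.primeFactors.card + m2.natAbs.primeFactors.card + 2 * E * (T * T) := by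
    have : (Q.card : ℝ) ≤ ((m1.natAbs.primeFactors.card + m2.natAbs.primeFactors.card + 2 * E * T * T : ℕ) : ℝ) := by
      exact_mod_cast hcard
    push_cast at this
    linarith
  calc (Q.card : ℝ) ≤ m1.natAbs.primeFactors.card + m2.natAbs.primeFactors.card + 2 * E * (T * T) := h5
    _ ≤ m1.natAbs.primeFactors.card * (Y : ℝ) ^ (2 * ε) + m2.natAbs.primeFactors.card * (Y : ℝ) ^ (2 * ε) +
        2 * E * (Y : ℝ) ^ (2 * ε) := by
        apply add_le_add (add_le_add _ _) _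
        · exact le_mul_of_one_le_right (Nat.cast_nonneg _) h3
        · exact le_mul_of_one_le_right (Nat.cast_nonneg _) h3
        · exact mul_le_mul_of_nonneg_left h4 (by positivity)
    _ = _ := by ring

end Pool.Agent.J4.H80.BGR
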