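import Pool.Agent.J4.H80.BGR.K

set_option autoImplicit false

/-! # Exponential sums over short pieces of integral linear recurring sequences, modulo almost all primes -/

namespace Pool.Agent.J4.H80.BGR

open Finset Polynomial

/-- the sequence `u` satisfies the linear recurrence with the characteristic polynomial `f` -/
def Rec {R : Type} [CommRing R] (f : R[X]) (u : ℕ → R) : Prop :=
  ∀ n, ∑ i ∈ range (f.natDegree + 1), f.coeff i * u (n + i) = 0

lemma Rec.sum {R : Type} [CommRing R] {f : R[X]} {r : ℕ} {u : Fin r → ℕ → R} (hu : ∀ j, Rec f (u j)) (h : Fin r → R) :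
    Rec f (fun n => ∑ j, h j * u j n) := by
  intro n
  have h1 : ∀ i ∈ range (f.natDegree + 1), f.coeff i * ∑ j, h j * u j (n + i) =
      ∑ j, h j * (f.coeff i * u j (n + i)) := by
    intro i _
    rw [mul_sum]
    exact sum_congr rfl fun j _ => by ring
  rw [sum_congr rfl h1, sum_comm]
  refine sum_eq_zero fun j _ => ?_
  rw [← mul_sum, hu j n, mul_zero]

lemma Rec.zero {R : Type} [CommRing R] {f : R[X]} (hf : f.Monic) {u : ℕ → R} (hu : Rec f u)
    (h : ∀ n, n < f.natDegree → u n = 0) (n : ℕ) : u n = 0 := by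
  induction n using Nat.strong_induction_on with
  | _ n ih =>
    rcases lt_or_ge n f.natDegree with hn | hn
    · exact h n hn
    · obtain ⟨m, rfl⟩ : ∃ m, n = m + f.natDegree := ⟨n - f.natDegree, by omega⟩
      have e1 := hu m
      rw [sum_range_succ, hf.coeff_natDegree, one_mul, sum_eq_zero, zero_add] at e1
      · exact e1
      · intro i hi
        rw [mem_range] at hi
        rw [ih (m + i) (by omega), mul_zero]

theorem recSumG (ε : ℝ) (hε : 0 < ε) (k : ℕ) : ∃ δ : ℝ, 0 < δ ∧ ∃ P₀ : ℕ, ∀ p : ℕ, P₀ ≤ p → ∀ [Fact p.Prime]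
    (f : (ZMod p)[X]), f.Monic → Squarefree f → Generic ε p (AdjoinRoot.root f) → f.natDegree ≤ k →
    ∀ u : ℕ → ZMod p, Rec f u → (∃ n, u n ≠ 0) →
    ∀ T : ℕ, (p : ℝ) ^ ε ≤ T → ‖∑ n ∈ range T, (ZMod.stdAddChar (u n) : ℂ)‖ ≤ T * (p : ℝ) ^ (-δ) := by
  obtain ⟨δ, hδ, P₀, hP⟩ := geoR ε hε (k + 1) (by omega)
  refine ⟨δ, hδ, P₀ + 10, ?_⟩
  intro p hp _ f hf hsq hgen hk u hu hne T hT
  have hfin := hf.finite_adjoinRoot
  have : Finite (AdjoinRoot f) := Module.finite_of_finite (ZMod p)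
  let _ : Fintype (AdjoinRoot f) := Fintype.ofFinite _
  obtain ⟨l, hl⟩ := functional hf u hu
  obtain ⟨ψ, hψ⟩ : ∃ ψ : AddChar (AdjoinRoot f) ℂ, ∀ x, ψ x = (ZMod.stdAddChar (l x) : ℂ) :=
    ⟨(ZMod.stdAddChar (N := p)).compAddMonoidHom l.toAddMonoidHom, fun x => rfl⟩
  have h1 := hP p (by omega) (AdjoinRoot f) (sized hf hsq (by omega) (k + 1) (by omega))
    (AdjoinRoot.root f) hgen T hT ψ (by
      rintro rfl
      obtain ⟨n, hn⟩ := hne
      apply hn
      have h2 := hψ (AdjoinRoot.root f ^ n)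
      rw [hl, AddChar.one_apply] at h2
      have h3 : (ZMod.stdAddChar (u n) : ℂ) = ZMod.stdAddChar (0 : ZMod p) := by
        rw [← h2, AddChar.map_zero_eq_one]
      exact ZMod.injective_stdAddChar h3)
  refine le_trans (le_of_eq ?_) h1
  congr 1
  refine sum_congr rfl fun n _ => ?_
  rw [hψ, hl]

/-- linear combinations of independent sequences -/
lemma exists_ne {R : Type} [CommRing R] {r : ℕ} {u : Fin r → ℕ → R} (hu : LinearIndependent R u)
    {h : Fin r → R} (hh : h ≠ 0) : ∃ n, ∑ j, h j * u j n ≠ 0 := by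
  by_contra hcon
  push Not at hcon
  apply hh
  rw [Fintype.linearIndependent_iff] at hu
  funext j
  refine hu h ?_ j
  funext n
  rw [Finset.sum_apply]
  simp only [Pi.smul_apply, smul_eq_mul]
  exact hcon n

/-- independence modulo almost all primes -/
lemma indep {f : ℤ[X]} (hf : f.Monic) {r : ℕ} {u : Fin r → ℕ → ℤ} (hu : ∀ j, Rec f (u j))
    (hi : LinearIndependent ℤ u) : ∃ m : ℤ, m ≠ 0 ∧ ∀ p : ℕ, ∀ _ : Fact p.Prime, (m : ZMod p) ≠ 0 →
      LinearIndependent (ZMod p) (fun j n => ((u j n : ℤ) : ZMod p)) := by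
  obtain ⟨G, hG⟩ : ∃ G : Matrix (Fin r) (Fin r) ℤ, G = Matrix.of fun i j => ∑ n ∈ range f.natDegree, u i n * u j n :=
    ⟨_, rfl⟩
  refine ⟨G.det, ?_, ?_⟩
  · intro h0
    obtain ⟨v, hv0, hv⟩ := Matrix.exists_mulVec_eq_zero_iff.2 h0
    obtain ⟨n, hn⟩ := exists_ne hi hv0
    apply hn
    refine Rec.zero hf (Rec.sum hu v) ?_ n
    have h1 : ∑ n ∈ range f.natDegree, (∑ j, v j * u j n) ^ 2 = 0 := by
      have h2 : ∑ i, v i * (G.mulVec v) i = ∑ n ∈ range f.natDegree, (∑ j, v j * u j n) ^ 2 := by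
        have h3 : ∀ i, v i * (G.mulVec v) i = ∑ n ∈ range f.natDegree, (v i * u i n) * ∑ j, v j * u j n := by
          intro i
          rw [Matrix.mulVec, dotProduct, hG, mul_sum]
          simp only [Matrix.of_apply, sum_mul, mul_sum]
          rw [sum_comm]
          refine sum_congr rfl fun n _ => sum_congr rfl fun j _ => ?_
          ring
        rw [sum_congr rfl fun i _ => h3 i, sum_comm]
        refine sum_congr rfl fun n _ => ?_
        rw [← sum_mul, sq]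
      rw [← h2, hv]
      simp
    intro n hn
    have h2 := (sum_eq_zero_iff_of_nonneg (fun n _ => sq_nonneg _)).1 h1 n (mem_range.2 hn)
    exact pow_eq_zero_iff (two_ne_zero) |>.1 h2
  · intro p _ hp
    rw [Fintype.linearIndependent_iff]
    intro h hh
    obtain ⟨M, hM⟩ : ∃ M : Matrix (Fin r) (Fin r) (ZMod p), M = G.map (Int.castRingHom (ZMod p)) := ⟨_, rfl⟩
    have hMdet : M.det ≠ 0 := by
      rw [hM, ← RingHom.mapMatrix_apply, ← RingHom.map_det]
      exact hp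
    have h1 : ∀ n, ∑ j, h j * ((u j n : ℤ) : ZMod p) = 0 := by
      intro n
      have h2 := congrFun hh n
      rw [Finset.sum_apply] at h2
      simpa [smul_eq_mul] using h2
    have h2 : M.mulVec h = 0 := by
      funext i
      rw [Matrix.mulVec, dotProduct, hM, hG, Pi.zero_apply]
      simp only [Matrix.map_apply, Matrix.of_apply, eq_intCast, Int.cast_sum, Int.cast_mul, sum_mul]
      rw [sum_comm]
      refine sum_eq_zero fun n _ => ?_
      have h3 : ∑ j, ((u i n : ℤ) : ZMod p) * ((u j n : ℤ) : ZMod p) * h j =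
          ((u i n : ℤ) : ZMod p) * ∑ j, h j * ((u j n : ℤ) : ZMod p) := by
        rw [mul_sum]
        exact sum_congr rfl fun j _ => by ring
      rw [h3, h1 n, mul_zero]
    have h3 := Matrix.eq_zero_of_mulVec_eq_zero hMdet h2
    intro i
    rw [h3]
    rfl

lemma Rec.cast {f : ℤ[X]} (hf : f.Monic) {u : ℕ → ℤ} (hu : Rec f u) (p : ℕ) [Fact p.Prime] :
    Rec (red p f) (fun n => ((u n : ℤ) : ZMod p)) := by
  intro n
  have h1 := congrArg (Int.cast : ℤ → ZMod p) (hu n)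
  rw [Int.cast_zero, Int.cast_sum] at h1
  rw [← h1]
  unfold red
  rw [hf.natDegree_map]
  refine sum_congr rfl fun i _ => ?_
  rw [coeff_map, Int.cast_mul]
  rfl

/-- vectors of integral linear recurring sequences: all Fourier coefficients are small for almost all primes -/
theorem intSum (f : ℤ[X]) (hf : Nondeg f) {r : ℕ} (u : Fin r → ℕ → ℤ) (hu : ∀ j, Rec f (u j))
    (hi : LinearIndependent ℤ u) (ε : ℝ) (hε : 0 < ε) : ∃ δ : ℝ, 0 < δ ∧ ∃ c : ℝ, ∀ Y : ℕ, 1 ≤ Y → ∀ Q : Finset ℕ,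
    (∀ p ∈ Q, p.Prime ∧ p ≤ Y ∧ ∀ _ : Fact p.Prime,
      ¬ ∀ T : ℕ, (p : ℝ) ^ ε ≤ T → ∀ h : Fin r → ZMod p, h ≠ 0 →
        ‖∑ n ∈ range T, (ZMod.stdAddChar (∑ j, h j * ((u j n : ℤ) : ZMod p)) : ℂ)‖ ≤ T * (p : ℝ) ^ (-δ)) →
    (Q.card : ℝ) ≤ c * (Y : ℝ) ^ ε := by
  classical
  obtain ⟨δ, hδ, P₀, hP⟩ := recSumG (ε / 2) (by positivity) f.natDegree
  obtain ⟨c, hc⟩ := almost f hf (ε / 2) (by positivity)
  obtain ⟨m, hm0, hm⟩ := indep hf.monic hu hi
  refine ⟨δ, hδ, P₀ + m.natAbs.primeFactors.card + c, ?_⟩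
  intro Y hY Q hQ
  have hY1 : (1 : ℝ) ≤ Y := by exact_mod_cast hY
  have h1 : (1 : ℝ) ≤ (Y : ℝ) ^ ε := Real.one_le_rpow hY1 hε.le
  obtain ⟨Q', hQ'⟩ : ∃ Q' : Finset ℕ, Q' = (Q \ range P₀) \ m.natAbs.primeFactors := ⟨_, rfl⟩
  have h2 := hc Y hY Q' (by
    intro p hp
    rw [hQ', mem_sdiff, mem_sdiff, mem_range, not_lt] at hp
    obtain ⟨⟨c1, c2⟩, c3⟩ := hp
    obtain ⟨d1, d2, d3⟩ := hQ p c1
    refine ⟨d1, d2, fun hF hcon => ?_⟩
    apply d3 hF
    intro T hT h hh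
    have hp1 : (1 : ℝ) ≤ p := by exact_mod_cast d1.one_lt.le
    have hmp : (m : ZMod p) ≠ 0 := fun h => c3 (mem_pf hm0 h)
    refine hP p c2 (red p f) (hf.monic.map _) hcon.1 hcon.2 (le_of_eq (hf.monic.natDegree_map _)) _
      (Rec.sum (fun j => Rec.cast hf.monic (hu j) p) h) (exists_ne (hm p hF hmp) hh) T (le_trans ?_ hT)
    exact Real.rpow_le_rpow_of_exponent_le hp1 (by linarith))
  rw [show 2 * (ε / 2) = ε by ring] at h2
  have h3 : Q.card ≤ P₀ + m.natAbs.primeFactors.card + Q'.card := by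
    have h4 : Q ⊆ (range P₀ ∪ m.natAbs.primeFactors) ∪ Q' := by
      intro p hp
      by_cases c1 : p ∈ range P₀
      · exact mem_union_left _ (mem_union_left _ c1)
      · by_cases c2 : p ∈ m.natAbs.primeFactors
        · exact mem_union_left _ (mem_union_right _ c2)
        · apply mem_union_right
          rw [hQ', mem_sdiff, mem_sdiff]
          exact ⟨⟨hp, c1⟩, c2⟩
    refine (card_le_card h4).trans ((card_union_le _ _).trans (Nat.add_le_add_right ((card_union_le _ _).trans ?_) _))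
    rw [card_range]
  have h4 : (Q.card : ℝ) ≤ P₀ + m.natAbs.primeFactors.card + Q'.card := by exact_mod_cast h3
  calc (Q.card : ℝ) ≤ P₀ + m.natAbs.primeFactors.card + Q'.card := h4
    _ ≤ P₀ * (Y : ℝ) ^ ε + m.natAbs.primeFactors.card * (Y : ℝ) ^ ε + c * (Y : ℝ) ^ ε := by
        apply add_le_add (add_le_add _ _) h2
        · exact le_mul_of_one_le_right (Nat.cast_nonneg _) h1
        · exact le_mul_of_one_le_right (Nat.cast_nonneg _) h1
    _ = _ := by ring

/-- vectors of linear recurring sequences modulo `p` -/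
theorem vecSum (ε : ℝ) (hε : 0 < ε) (k : ℕ) : ∃ δ : ℝ, 0 < δ ∧ ∃ P₀ : ℕ, ∀ p : ℕ, P₀ ≤ p → ∀ [Fact p.Prime]
    (f : (ZMod p)[X]), Good ε p f → f.natDegree ≤ k → ∀ (r : ℕ) (u : Fin r → ℕ → ZMod p), (∀ j, Rec f (u j)) →
    LinearIndependent (ZMod p) u → ∀ T : ℕ, (p : ℝ) ^ ε ≤ T → ∀ h : Fin r → ZMod p, h ≠ 0 →
      ‖∑ n ∈ range T, (ZMod.stdAddChar (∑ j, h j * u j n) : ℂ)‖ ≤ T * (p : ℝ) ^ (-δ) := by
  obtain ⟨δ, hδ, P₀, hP⟩ := recSumG ε hε k
  refine ⟨δ, hδ, P₀, ?_⟩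
  intro p hp _ f hf hk r u hu hi T hT h hh
  exact hP p hp f hf.monic hf.sqf (generic hf) hk _ (Rec.sum hu h) (exists_ne hi hh) T hT

end Pool.Agent.J4.H80.BGR
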